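import Pool.Agent.H52.PH.Defs

/-! Algebraic inequalities for `A(X) = |X|^(p-2) X` and `V(X) = |X|^((p-2)/2) X`. -/

open Set Metric Filter Topology Complex

namespace Pool.Agent.H52.PH

/-- Euclidean inner product on the plane. -/
def dot (X Y : ℂ) : ℝ := X.re * Y.re + X.im * Y.im

theorem norm_sq_dot (X : ℂ) : ‖X‖ ^ 2 = dot X X := by
  rw [Complex.sq_norm, Complex.normSq_apply]; rfl

theorem dot_comm (X Y : ℂ) : dot X Y = dot Y X := by simp only [dot]; ring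

theorem abs_dot_le (X Y : ℂ) : |dot X Y| ≤ ‖X‖ * ‖Y‖ := by
  have h1 : dot X Y ^ 2 ≤ (‖X‖ * ‖Y‖) ^ 2 := by
    rw [mul_pow, norm_sq_dot, norm_sq_dot]
    simp only [dot]
    nlinarith [sq_nonneg (X.re * Y.im - X.im * Y.re)]
  have h2 : 0 ≤ ‖X‖ * ‖Y‖ := by positivity
  exact abs_le_of_sq_le_sq h1 h2

theorem dot_le (X Y : ℂ) : dot X Y ≤ ‖X‖ * ‖Y‖ := (le_abs_self _).trans (abs_dot_le X Y)

theorem dot_expand (u w : ℝ) (X Y : ℂ) :
    ‖u • X - w • Y‖ ^ 2 = u ^ 2 * ‖X‖ ^ 2 + w ^ 2 * ‖Y‖ ^ 2 - 2 * u * w * dot X Y := by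
  rw [norm_sq_dot, norm_sq_dot, norm_sq_dot]
  simp only [dot, sub_re, sub_im, real_smul, mul_re, mul_im, ofReal_re, ofReal_im]
  ring

theorem dot_expand2 (u w : ℝ) (X Y : ℂ) :
    dot (u • X - w • Y) (X - Y) = u * ‖X‖ ^ 2 + w * ‖Y‖ ^ 2 - (u + w) * dot X Y := by
  rw [norm_sq_dot, norm_sq_dot]
  simp only [dot, sub_re, sub_im, real_smul, mul_re, mul_im, ofReal_re, ofReal_im]
  ring

/-- The map `V(X) = |X|^((p-2)/2) X`. -/
noncomputable def Vmap (p : ℝ) (Q : ℂ) : ℂ := (‖Q‖ ^ ((p - 2) / 2) : ℝ) • Q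

/-- Bernoulli. -/
theorem bern {q a b : ℝ} (hq : 1 ≤ q) (hb : 0 ≤ b) (hab : b ≤ a) :
    a ^ (q - 1) * a - b ^ (q - 1) * b ≤ q * a ^ (q - 1) * (a - b) := by
  rcases eq_or_lt_of_le (hb.trans hab) with ha | ha
  · have : a = 0 := ha.symm
    have hb0 : b = 0 := le_antisymm (by linarith) hb
    subst this; subst hb0; simp
  · have h1 : b ^ (q - 1) * b = b ^ q := by
      rcases eq_or_lt_of_le hb with hb' | hb'
      · rw [← hb', Real.zero_rpow (by linarith : q ≠ 0)]; simp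
      · rw [Real.rpow_sub_one hb'.ne']; field_simp
    have h2 : b ^ q = a ^ q * (b / a) ^ q := by
      rw [Real.div_rpow hb ha.le]
      field_simp [(Real.rpow_pos_of_pos ha q).ne']
    have h3 : a ^ q = a ^ (q - 1) * a := by
      rw [Real.rpow_sub_one ha.ne']; field_simp
    have h4 : 1 + q * (b / a - 1) ≤ (b / a) ^ q := by
      have := one_add_mul_self_le_rpow_one_add (s := b / a - 1)
        (by have : 0 ≤ b / a := by positivity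
            linarith) hq
      simpa using this
    have h5 : 0 ≤ a ^ (q - 1) * a := by positivity
    rw [h1, h2, h3]
    have h6 := mul_le_mul_of_nonneg_left h4 h5
    have h7 : a ^ (q - 1) * a * (1 + q * (b / a - 1)) =
        a ^ (q - 1) * a + q * a ^ (q - 1) * (b - a) := by
      field_simp
    linarith

theorem rpow_half_sq {p a : ℝ} (ha : 0 ≤ a) : (a ^ ((p - 2) / 2)) ^ 2 = a ^ (p - 2) := by
  rw [← Real.rpow_natCast, ← Real.rpow_mul ha]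
  norm_num

theorem mono_aux {K p u w a b c : ℝ} (hp : 2 ≤ p) (hK : K = p ^ 2 / 4) (hb : 0 ≤ b) (hab : b ≤ a)
    (hw : 0 ≤ w) (hwu : w ≤ u) (hc : c ≤ a * b) (h : u * a - w * b ≤ (p / 2) * u * (a - b)) :
    u ^ 2 * a ^ 2 + w ^ 2 * b ^ 2 - 2 * u * w * c ≤
      K * (u ^ 2 * a ^ 2 + w ^ 2 * b ^ 2 - (u ^ 2 + w ^ 2) * c) := by
  have hK1 : 1 ≤ K := by rw [hK]; nlinarith
  have h0 : 0 ≤ u * a - w * b := by nlinarith
  have h1 : (u * a - w * b) ^ 2 ≤ ((p / 2) * u * (a - b)) ^ 2 := pow_le_pow_left₀ h0 h 2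
  have h2 : u ^ 2 * (a - b) ≤ u ^ 2 * a - w ^ 2 * b := by
    have : w ^ 2 ≤ u ^ 2 := pow_le_pow_left₀ hw hwu 2
    nlinarith
  have h3 : K * (u ^ 2 * (a - b)) * (a - b) ≤ K * (u ^ 2 * a - w ^ 2 * b) * (a - b) := by
    have : 0 ≤ a - b := by linarith
    gcongr
  have h4 : 0 ≤ (a * b - c) * (K * (u ^ 2 + w ^ 2) - 2 * u * w) := by
    apply mul_nonneg (by linarith)
    nlinarith [sq_nonneg (u - w), sq_nonneg u, sq_nonneg w]
  have h5 : ((p / 2) * u * (a - b)) ^ 2 = K * (u ^ 2 * (a - b)) * (a - b) := by rw [hK]; ring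
  nlinarith

theorem mono_ineq {p : ℝ} (hp : 2 ≤ p) (X Y : ℂ) :
    ‖Vmap p X - Vmap p Y‖ ^ 2 ≤ (p ^ 2 / 4) * dot (flux p X - flux p Y) (X - Y) := by
  wlog hXY : ‖Y‖ ≤ ‖X‖ generalizing X Y
  · have := this Y X (le_of_not_ge hXY)
    rw [norm_sub_rev]
    refine this.trans (le_of_eq ?_)
    simp only [dot, sub_re, sub_im]; ring
  unfold Vmap flux
  rw [dot_expand, dot_expand2]
  have h1 := bern (q := p / 2) (by linarith) (norm_nonneg Y) hXY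
  have e : p / 2 - 1 = (p - 2) / 2 := by ring
  rw [e] at h1
  have hw : 0 ≤ ‖Y‖ ^ ((p - 2) / 2) := by positivity
  have hwu : ‖Y‖ ^ ((p - 2) / 2) ≤ ‖X‖ ^ ((p - 2) / 2) :=
    Real.rpow_le_rpow (norm_nonneg _) hXY (by linarith)
  have := mono_aux hp rfl (norm_nonneg Y) hXY hw hwu (dot_le X Y) h1
  rw [rpow_half_sq (norm_nonneg X), rpow_half_sq (norm_nonneg Y)] at *
  exact this

theorem flux_aux {u w a b c : ℝ} (hb : 0 ≤ b) (hab : b ≤ a)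
    (hw : 0 ≤ w) (hwu : w ≤ u) (hc : c ≤ a * b) :
    (u ^ 2) ^ 2 * a ^ 2 + (w ^ 2) ^ 2 * b ^ 2 - 2 * u ^ 2 * w ^ 2 * c ≤
      (u + w) ^ 2 * (u ^ 2 * a ^ 2 + w ^ 2 * b ^ 2 - 2 * u * w * c) := by
  have hu : 0 ≤ u := hw.trans hwu
  have ha : 0 ≤ a := hb.trans hab
  have h1 : 0 ≤ 2 * u * w * (u ^ 2 + u * w + w ^ 2) * (a * b - c) := by
    have : 0 ≤ a * b - c := by linarith
    positivity
  have h2 : 0 ≤ u * w * (a - b) * (2 * (u ^ 2 * a - w ^ 2 * b) + u * w * (a - b)) := by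
    have h3 : 0 ≤ a - b := by linarith
    have h4 : 0 ≤ u ^ 2 * a - w ^ 2 * b := by
      have h5 : w ^ 2 * b ≤ u ^ 2 * a := by gcongr
      linarith
    positivity
  nlinarith

theorem flux_le {p : ℝ} (hp : 2 ≤ p) (X Y : ℂ) :
    ‖flux p X - flux p Y‖ ≤
      ‖Vmap p X - Vmap p Y‖ * (‖X‖ ^ ((p - 2) / 2) + ‖Y‖ ^ ((p - 2) / 2)) := by
  wlog hXY : ‖Y‖ ≤ ‖X‖ generalizing X Y
  · have := this Y X (le_of_not_ge hXY)
    rw [norm_sub_rev, norm_sub_rev (Vmap p X), add_comm]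
    exact this
  have hw : 0 ≤ ‖Y‖ ^ ((p - 2) / 2) := by positivity
  have hu : 0 ≤ ‖X‖ ^ ((p - 2) / 2) := by positivity
  have hwu : ‖Y‖ ^ ((p - 2) / 2) ≤ ‖X‖ ^ ((p - 2) / 2) :=
    Real.rpow_le_rpow (norm_nonneg _) hXY (by linarith)
  have key := flux_aux (norm_nonneg Y) hXY hw hwu (dot_le X Y)
  refine le_of_sq_le_sq ?_ (by positivity)
  rw [mul_pow]
  unfold Vmap flux
  rw [dot_expand, dot_expand]
  rw [rpow_half_sq (norm_nonneg X), rpow_half_sq (norm_nonneg Y)] at *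
  exact key.trans (le_of_eq (mul_comm _ _))

theorem flux_lip_aux {q u w a b c : ℝ} (hq : 1 ≤ q) (hb : 0 ≤ b) (hab : b ≤ a)
    (hw : 0 ≤ w) (hwu : w ≤ u) (hc : c ≤ a * b) (h : u * a - w * b ≤ q * u * (a - b)) :
    u ^ 2 * a ^ 2 + w ^ 2 * b ^ 2 - 2 * u * w * c ≤
      (q * u) ^ 2 * (a ^ 2 + b ^ 2 - 2 * c) := by
  have hu : 0 ≤ u := hw.trans hwu
  have ha : 0 ≤ a := hb.trans hab
  have h0 : 0 ≤ u * a - w * b := by nlinarith
  have h1 : (u * a - w * b) ^ 2 ≤ (q * u * (a - b)) ^ 2 := pow_le_pow_left₀ h0 h 2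
  have h2 : 0 ≤ (a * b - c) * (2 * (q * u) ^ 2 - 2 * u * w) := by
    apply mul_nonneg (by linarith)
    have : u * w ≤ (q * u) ^ 2 := by
      have h3 : u * w ≤ u * u := by gcongr
      have h4 : u ≤ q * u := by nlinarith
      have h5 : u * u ≤ (q * u) * (q * u) := by gcongr
      nlinarith
    linarith
  nlinarith

theorem flux_lip {p : ℝ} (hp : 2 ≤ p) (X Y : ℂ) :
    ‖flux p X - flux p Y‖ ≤ (p - 1) * (max ‖X‖ ‖Y‖) ^ (p - 2) * ‖X - Y‖ := by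
  wlog hXY : ‖Y‖ ≤ ‖X‖ generalizing X Y
  · have := this Y X (le_of_not_ge hXY)
    rw [norm_sub_rev, norm_sub_rev X, max_comm]
    exact this
  rw [max_eq_left hXY]
  have hw : 0 ≤ ‖Y‖ ^ (p - 2) := by positivity
  have hu : 0 ≤ ‖X‖ ^ (p - 2) := by positivity
  have hwu : ‖Y‖ ^ (p - 2) ≤ ‖X‖ ^ (p - 2) :=
    Real.rpow_le_rpow (norm_nonneg _) hXY (by linarith)
  have h1 := bern (q := p - 1) (by linarith) (norm_nonneg Y) hXY
  have e : p - 1 - 1 = p - 2 := by ring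
  rw [e] at h1
  have key := flux_lip_aux (by linarith) (norm_nonneg Y) hXY hw hwu (dot_le X Y) h1
  refine le_of_sq_le_sq ?_ (by
    have : 0 ≤ p - 1 := by linarith
    positivity)
  rw [mul_pow]
  have e2 : ‖X - Y‖ ^ 2 = ‖X‖ ^ 2 + ‖Y‖ ^ 2 - 2 * dot X Y := by
    have := dot_expand 1 1 X Y
    simpa using this
  unfold flux
  rw [dot_expand, e2]
  exact key

theorem flux_coer {p : ℝ} (hp : 2 ≤ p) (X Y : ℂ) :
    (1 / 2) * (‖X‖ ^ (p - 2) + ‖Y‖ ^ (p - 2)) * ‖X - Y‖ ^ 2 ≤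
      dot (flux p X - flux p Y) (X - Y) := by
  have e2 : ‖X - Y‖ ^ 2 = ‖X‖ ^ 2 + ‖Y‖ ^ 2 - 2 * dot X Y := by
    have := dot_expand 1 1 X Y
    simpa using this
  unfold flux
  rw [dot_expand2, e2]
  have : 0 ≤ (‖X‖ ^ (p - 2) - ‖Y‖ ^ (p - 2)) * (‖X‖ ^ 2 - ‖Y‖ ^ 2) := by
    rcases le_total ‖X‖ ‖Y‖ with h | h
    · have h1 : ‖X‖ ^ (p - 2) ≤ ‖Y‖ ^ (p - 2) :=
        Real.rpow_le_rpow (norm_nonneg _) h (by linarith)
      have h2 : ‖X‖ ^ 2 ≤ ‖Y‖ ^ 2 := pow_le_pow_left₀ (norm_nonneg _) h 2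
      exact mul_nonneg_of_nonpos_of_nonpos (by linarith) (by linarith)
    · have h1 : ‖Y‖ ^ (p - 2) ≤ ‖X‖ ^ (p - 2) :=
        Real.rpow_le_rpow (norm_nonneg _) h (by linarith)
      have h2 : ‖Y‖ ^ 2 ≤ ‖X‖ ^ 2 := pow_le_pow_left₀ (norm_nonneg _) h 2
      exact mul_nonneg (by linarith) (by linarith)
  nlinarith

theorem flux_coer' {p : ℝ} (hp : 2 ≤ p) (X Y : ℂ) :
    ‖X‖ ^ (p - 2) * ‖X - Y‖ ≤ 2 * ‖flux p X - flux p Y‖ := by
  have h1 := flux_coer hp X Y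
  have h2 := dot_le (flux p X - flux p Y) (X - Y)
  have h3 : 0 ≤ ‖Y‖ ^ (p - 2) := by positivity
  rcases eq_or_lt_of_le (norm_nonneg (X - Y)) with h | h
  · rw [← h]; simp
  · have h4 : ‖X‖ ^ (p - 2) * ‖X - Y‖ * ‖X - Y‖ ≤ 2 * ‖flux p X - flux p Y‖ * ‖X - Y‖ := by
      nlinarith [mul_nonneg h3 (sq_nonneg ‖X - Y‖)]
    exact le_of_mul_le_mul_right h4 h

theorem norm_flux {p : ℝ} (hp : 2 ≤ p) (X : ℂ) : ‖flux p X‖ = ‖X‖ ^ (p - 1) := by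
  unfold flux
  rw [norm_smul, Real.norm_eq_abs, abs_of_nonneg (by positivity)]
  rcases eq_or_lt_of_le (norm_nonneg X) with h | h
  · rw [← h]
    rw [Real.zero_rpow (by linarith : p - 1 ≠ 0)]
    simp
  · rw [show p - 2 = (p - 1) - 1 by ring, Real.rpow_sub_one h.ne']
    field_simp

theorem norm_Vmap_sq {p : ℝ} (hp : 2 ≤ p) (X : ℂ) : ‖Vmap p X‖ ^ 2 = ‖X‖ ^ p := by
  unfold Vmap
  rw [norm_smul, mul_pow, Real.norm_eq_abs, abs_of_nonneg (by positivity),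
    rpow_half_sq (norm_nonneg X)]
  rcases eq_or_lt_of_le (norm_nonneg X) with h | h
  · rw [← h, Real.zero_rpow (by linarith : p ≠ 0)]
    simp
  · rw [show p - 2 = p - (2 : ℕ) by norm_num, Real.rpow_sub_natCast h.ne']
    field_simp

theorem norm_Vmap {p : ℝ} (hp : 2 ≤ p) (X : ℂ) : ‖Vmap p X‖ = ‖X‖ ^ (p / 2) := by
  have h1 := norm_Vmap_sq hp X
  have h2 : (‖X‖ ^ (p / 2)) ^ 2 = ‖X‖ ^ p := by
    rw [← Real.rpow_natCast, ← Real.rpow_mul (norm_nonneg X)]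
    congr 1
    push_cast; ring
  rw [← h2] at h1
  exact (pow_left_inj₀ (norm_nonneg _) (by positivity) two_ne_zero).1 h1

end Pool.Agent.H52.PH
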