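import Mathlib

/-!
# Planar p-harmonic functions: definitions

The plane is `ℂ` with its Euclidean norm and Lebesgue measure. A vector `(a, b)` is `a + i b`.
-/

open MeasureTheory Set Metric Filter Topology ContDiff Complex
open scoped ENNReal

namespace Pool.Agent.H52.PH

/-- `φ` is a smooth real function with compact support contained in `Ω`. -/
def IsTest (Ω : Set ℂ) (φ : ℂ → ℝ) : Prop :=
  ContDiff ℝ ∞ φ ∧ HasCompactSupport φ ∧ tsupport φ ⊆ Ω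

/-- The flux `A(Q) = |Q|^(p-2) Q`. -/
noncomputable def flux (p : ℝ) (Q : ℂ) : ℂ := (‖Q‖ ^ (p - 2) : ℝ) • Q

/-- The function `u` is locally in `L^q` on `Ω`. -/
def LocLp {E : Type*} [NormedAddCommGroup E] (q : ℝ≥0∞) (Ω : Set ℂ) (u : ℂ → E) : Prop :=
  ∀ K ⊆ Ω, IsCompact K → MemLp u q (volume.restrict K)

/-- `G` is the weak gradient of `h` on `Ω`: `∂ₓ h = Re G` and `∂_y h = Im G` in the sense of
distributions on `Ω`. -/
def IsWeakGradient (Ω : Set ℂ) (h : ℂ → ℝ) (G : ℂ → ℂ) : Prop :=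
  ∀ φ : ℂ → ℝ, IsTest Ω φ →
    (∫ z, h z * fderiv ℝ φ z 1) = -∫ z, (G z).re * φ z ∧
    (∫ z, h z * fderiv ℝ φ z I) = -∫ z, (G z).im * φ z

/-- `h ∈ W^{1,p}_loc(Ω)`, with weak gradient `G`, is `p`-harmonic on `Ω`:
`div (|∇h|^(p-2) ∇h) = 0` in the sense of distributions. -/
structure IsPHarmonic (p : ℝ) (Ω : Set ℂ) (h : ℂ → ℝ) (G : ℂ → ℂ) : Prop where
  loc : LocLp (ENNReal.ofReal p) Ω h
  locG : LocLp (ENNReal.ofReal p) Ω G
  weak : IsWeakGradient Ω h G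
  eqn : ∀ φ : ℂ → ℝ, IsTest Ω φ →
    (∫ z, ((flux p (G z)).re * fderiv ℝ φ z 1 + (flux p (G z)).im * fderiv ℝ φ z I)) = 0

/-- `g ∈ W^{1,q}_loc(U)` with derivative `D`: approximation by smooth functions in
`W^{1,q}(K)` for every compact `K ⊆ U`. -/
structure Sob {E : Type*} [NormedAddCommGroup E] [NormedSpace ℝ E] (q : ℝ≥0∞) (U : Set ℂ)
    (g : ℂ → E) (D : ℂ → ℂ →L[ℝ] E) : Prop where
  meas : AEStronglyMeasurable g (volume.restrict U)
  measD : AEStronglyMeasurable D (volume.restrict U)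
  approx : ∀ K ⊆ U, IsCompact K → ∃ φ : ℕ → ℂ → E, (∀ n, ContDiff ℝ ∞ (φ n)) ∧
    Tendsto (fun n => eLpNorm (fun z => φ n z - g z) q (volume.restrict K)) atTop (𝓝 0) ∧
    Tendsto (fun n => eLpNorm (fun z => fderiv ℝ (φ n) z - D z) q (volume.restrict K)) atTop (𝓝 0)

/-- The Jacobian determinant of a real-linear map of the plane. -/
noncomputable def jac (D : ℂ →L[ℝ] ℂ) : ℝ := (D 1).re * (D I).im - (D 1).im * (D I).re

/-- The quadratic form of the circle inequality, in the radial direction `r`. -/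
noncomputable def qform (m : ℝ) (D : ℂ →L[ℝ] ℂ) (r : ℂ) : ℝ :=
  (1 / m) * ‖D (I * r)‖ ^ 2 +
    (m - 1) / (3 * m ^ 2) * ((D (I * r)).re * r.re + (D (I * r)).im * r.im) ^ 2

/-- The gain in the circle inequality. -/
noncomputable def kap (m : ℝ) : ℝ := (m - 1) / (12 * m)

/-- Structure of the derivative `D` of one of the (orientation reversing) quasiregular maps built
from the gradient `G` of a `p`-harmonic function, `m = p - 1`: in an orthonormal frame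
`s, n = i s`,
`D s = μ (ν P s + R n)`, `D n = μ (ν R s - m P n)`, for some `μ ≥ 0` and `1 ≤ ν ≤ m`. -/
def QStruct (m : ℝ) (D : ℂ →L[ℝ] ℂ) : Prop :=
  ∃ (s : ℂ) (P R ν μ : ℝ), ‖s‖ = 1 ∧ 1 ≤ ν ∧ ν ≤ m ∧ 0 ≤ μ ∧
    D s = (μ * ν * P : ℝ) • s + (μ * R : ℝ) • (I * s) ∧
    D (I * s) = (μ * ν * R : ℝ) • s - (μ * m * P : ℝ) • (I * s)

/-- Structure of the Hessian `H` of a `p`-harmonic function whose gradient is `G`,
`m = p - 1`. -/
def PStruct (m : ℝ) (G : ℂ) (H : ℂ →L[ℝ] ℂ) : Prop :=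
  ∃ (s : ℂ) (P R : ℝ), ‖s‖ = 1 ∧ G = (‖G‖ : ℝ) • s ∧
    H s = (P : ℝ) • s + (R : ℝ) • (I * s) ∧
    H (I * s) = (R : ℝ) • s - (m * P : ℝ) • (I * s)

/-- (Orientation reversing) `K`-quasiregularity of a derivative. -/
def QR (K : ℝ) (D : ℂ →L[ℝ] ℂ) : Prop := ‖D‖ ^ 2 ≤ K * -jac D

end Pool.Agent.H52.PH
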