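import Pool.Agent.H52.PH.Reg3

/-! The degenerate and nondegenerate regimes and the final estimate. -/

open MeasureTheory Set Metric Filter Topology ContDiff Complex
open scoped ENNReal

namespace Pool.Agent.H52.PH

theorem vol_ball (x : ℂ) {r : ℝ} (hr : 0 ≤ r) : (volume (ball x r)).toReal = Real.pi * r ^ 2 := by
  rw [Complex.volume_ball, ENNReal.toReal_mul, ENNReal.toReal_pow, ENNReal.toReal_ofReal hr]
  simp [mul_comm]

theorem integral_sq_le {U : Set ℂ} {g : ℂ → ℂ} (hg : ContinuousOn g U) {x : ℂ} {R : ℝ} (hR : 0 < R)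
    (hb : closedBall x R ⊆ U) {c : ℂ} {S : ℝ} (hS : ∀ z ∈ ball x R, ‖g z - c‖ ≤ S) :
    ∫ z in ball x R, ‖g z - c‖ ^ 2 ≤ Real.pi * R ^ 2 * S ^ 2 := by
  have hS0 : 0 ≤ S := (norm_nonneg _).trans (hS x (mem_ball_self hR))
  have fin : volume (ball x R) ≠ ⊤ := measure_ball_lt_top.ne
  have h1 : ∫ z in ball x R, ‖g z - c‖ ^ 2 ≤ ∫ z in ball x R, S ^ 2 := by
    refine setIntegral_mono_on ?_ ?_ measurableSet_ball fun z hz => ?_
    · have : ContinuousOn (fun z => ‖g z - c‖ ^ 2) U := ((hg.sub continuousOn_const).norm).pow 2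
      exact ((this.mono hb).integrableOn_compact (isCompact_closedBall _ _)).mono_set
        ball_subset_closedBall
    · exact integrableOn_const fin
    · exact pow_le_pow_left₀ (norm_nonneg _) (hS z hz) 2
  refine h1.trans (le_of_eq ?_)
  rw [setIntegral_const, smul_eq_mul, Measure.real, vol_ball x hR.le]

/-- Hölder estimate from a sup bound. -/
theorem holder_sup (K : ℝ) (hK : 1 ≤ K) : ∃ C : ℝ, 1 ≤ C ∧
    ∀ (U : Set ℂ) (g : ℂ → ℂ) (D : ℂ → ℂ →L[ℝ] ℂ) (x : ℂ) (R : ℝ) (S : ℝ), IsOpen U →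
      Sob 2 U g D → ContinuousOn g U → (∀ᵐ z ∂volume.restrict U, QR K (D z)) → 0 < R →
      closedBall x R ⊆ U → (∀ z ∈ ball x R, ‖g z‖ ≤ S) →
      ∀ y ∈ ball x R, ‖g y - g x‖ ≤ C * (‖y - x‖ / R) ^ (1 / K) * S := by
  obtain ⟨C1, hC1, hcac⟩ := qr_caccioppoli K hK
  obtain ⟨C2, hC2, hhol⟩ := qr_holder K hK
  have hK0 : 0 < K := by linarith
  refine ⟨max 8 (C2 * 2 * Real.sqrt (4 * Real.pi * C1)), le_max_of_le_left (by norm_num), ?_⟩
  intro U g D x R S hU hS hg hQ hR hb hSb y hy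
  have hS0 : 0 ≤ S := (norm_nonneg _).trans (hSb x (mem_ball_self hR))
  have hy' : ‖y - x‖ < R := by rwa [← mem_ball_iff_norm]
  have hpow : ∀ a : ℝ, 0 < a → a ≤ 1 → a ≤ a ^ (1 / K) := by
    intro a ha ha1
    have := Real.rpow_le_rpow_of_exponent_ge ha ha1 (z := 1 / K) (y := 1)
      (by rw [div_le_one hK0]; exact hK)
    rwa [Real.rpow_one] at this
  have ht0 : 0 ≤ ‖y - x‖ / R := by positivity
  have hp0 : 0 ≤ (‖y - x‖ / R) ^ (1 / K) := by positivity
  by_cases hc : ‖y - x‖ < R / 4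
  · have hb2 : closedBall x (R / 2) ⊆ U := (closedBall_subset_closedBall (by linarith)).trans hb
    have h1 := hcac U g D x (R / 2) R 0 hU hS hQ (by linarith) (by linarith) hb
    have h2 := integral_sq_le hg hR hb (c := 0) (S := S) (by simpa using hSb)
    have h3 : ∫ z in ball x (R / 2), -jac (D z) ≤ 4 * Real.pi * C1 * S ^ 2 := by
      refine h1.trans ?_
      calc C1 / (R - R / 2) ^ 2 * ∫ z in ball x R, ‖g z - 0‖ ^ 2
          ≤ C1 / (R - R / 2) ^ 2 * (Real.pi * R ^ 2 * S ^ 2) := by gcongr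
        _ = 4 * Real.pi * C1 * S ^ 2 := by
            have : R - R / 2 = R / 2 := by ring
            rw [this]; field_simp; ring
    have h4 := hhol U g D x (R / 2) hU hS hg hQ (by linarith) hb2 y
      (by rw [mem_ball_iff_norm]; linarith) x (mem_ball_self (by linarith))
    have h5 : Real.sqrt (∫ z in ball x (R / 2), -jac (D z)) ≤
        Real.sqrt (4 * Real.pi * C1) * S := by
      rw [Real.sqrt_le_iff]
      refine ⟨by positivity, h3.trans (le_of_eq ?_)⟩
      rw [mul_pow, Real.sq_sqrt (by positivity)]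
    have h6 : (‖y - x‖ / (R / 2)) ^ (1 / K) ≤ 2 * (‖y - x‖ / R) ^ (1 / K) := by
      have e : ‖y - x‖ / (R / 2) = 2 * (‖y - x‖ / R) := by field_simp
      rw [e, Real.mul_rpow (by norm_num) ht0]
      refine mul_le_mul_of_nonneg_right ?_ hp0
      have := Real.rpow_le_rpow_of_exponent_le (x := 2) (by norm_num) (y := 1 / K) (z := 1)
        (by rw [div_le_one hK0]; exact hK)
      rwa [Real.rpow_one] at this
    calc ‖g y - g x‖ ≤ C2 * (‖y - x‖ / (R / 2)) ^ (1 / K) *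
          Real.sqrt (∫ z in ball x (R / 2), -jac (D z)) := h4
      _ ≤ C2 * (2 * (‖y - x‖ / R) ^ (1 / K)) * (Real.sqrt (4 * Real.pi * C1) * S) := by gcongr
      _ = (C2 * 2 * Real.sqrt (4 * Real.pi * C1)) * (‖y - x‖ / R) ^ (1 / K) * S := by ring
      _ ≤ _ := by
          gcongr
          exact le_max_right _ _
  · have h1 : ‖g y - g x‖ ≤ 2 * S := by
      have a := hSb y hy
      have b := hSb x (mem_ball_self hR)
      exact (norm_sub_le _ _).trans (by linarith)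
    have h2 : 1 / 4 ≤ ‖y - x‖ / R := by
      rw [div_le_div_iff₀ (by norm_num) hR]
      linarith
    have h3 : 1 / 4 ≤ (‖y - x‖ / R) ^ (1 / K) := by
      refine h2.trans (hpow _ (by linarith) ?_)
      rw [div_le_one hR]; exact hy'.le
    calc ‖g y - g x‖ ≤ 2 * S := h1
      _ = 8 * (1 / 4) * S := by ring
      _ ≤ max 8 (C2 * 2 * Real.sqrt (4 * Real.pi * C1)) * (‖y - x‖ / R) ^ (1 / K) * S := by
          gcongr
          exact le_max_left _ _

/-- Nondegenerate regime. -/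
theorem nondeg_lip {p : ℝ} (hp : 2 ≤ p) : ∃ C : ℝ, 1 ≤ C ∧
    ∀ (U : Set ℂ) (G : ℂ → ℂ) (D : ℂ → ℂ →L[ℝ] ℂ) (x : ℂ) (R : ℝ) (w : ℝ), IsOpen U →
      Sob 2 U G D → ContinuousOn G U → (∀ᵐ z ∂volume.restrict U, PStruct (p - 1) (G z) (D z)) →
      0 < R → closedBall x R ⊆ U → G x ≠ 0 →
      (∀ z ∈ ball x R, ‖flux p (G z) - flux p (G x)‖ ≤ w) → 4 * w ≤ ‖flux p (G x)‖ →
      ∀ y ∈ ball x R, ‖flux p (G y) - flux p (G x)‖ ≤ C * (‖y - x‖ / R) * w := by
  have hm : 1 ≤ p - 1 := by linarith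
  obtain ⟨C1, hC1, hcac⟩ := qr_caccioppoli (p - 1) hm
  obtain ⟨C2, hC2, hhol⟩ := qr_holder (p - 1) hm
  obtain ⟨C3, hC3, hdec⟩ := nondeg_decay (p - 1) hm
  set A := C2 * (8 * Real.sqrt (C3 * (4 * Real.pi * C1))) with hA
  have hA0 : 0 ≤ A := by positivity
  refine ⟨max 8 ((p - 1) * (3 / 2) ^ (p - 2) * (A * 2)), le_max_of_le_left (by norm_num), ?_⟩
  intro U G D x R w hU hS hg hP hR hb hGx hw h4w y hy
  have hw0 : 0 ≤ w := (norm_nonneg _).trans (hw x (mem_ball_self hR))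
  have hy' : ‖y - x‖ < R := by rwa [← mem_ball_iff_norm]
  have hQ : ∀ᵐ z ∂volume.restrict U, QR (p - 1) (D z) := by
    filter_upwards [hP] with z hz
    exact pstruct_qr hm hz
  have hGx0 : 0 < ‖G x‖ := norm_pos_iff.2 hGx
  have hpos : 0 < ‖G x‖ ^ (p - 2) := Real.rpow_pos_of_pos hGx0 _
  have hFx : ‖flux p (G x)‖ = ‖G x‖ ^ (p - 2) * ‖G x‖ := by
    unfold flux
    rw [norm_smul, Real.norm_eq_abs, abs_of_nonneg hpos.le]
  set ε := 2 * w / ‖G x‖ ^ (p - 2) with hε
  have hε0 : 0 ≤ ε := by positivity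
  have hGε : ∀ z ∈ ball x R, ‖G z - G x‖ ≤ ε := by
    intro z hz
    have h1 := flux_coer' hp (G x) (G z)
    have h2 := hw z hz
    rw [norm_sub_rev] at h2
    rw [hε, le_div_iff₀ hpos, norm_sub_rev]
    linarith
  have hεG : ε ≤ 1 / 2 * ‖G x‖ := by
    rw [hε, div_le_iff₀ hpos]
    rw [hFx] at h4w
    linarith
  by_cases hc : ‖y - x‖ < R / 8
  · rcases eq_or_ne y x with rfl | hyx
    · simp only [sub_self, norm_zero, zero_div, mul_zero, zero_mul, le_refl]
    have ht : 0 < ‖y - x‖ := norm_pos_iff.2 (sub_ne_zero.2 hyx)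
    set t := ‖y - x‖ with htdef
    have hb2 : closedBall x (R / 2) ⊆ U := (closedBall_subset_closedBall (by linarith)).trans hb
    have hb4 : closedBall x (4 * t) ⊆ U := (closedBall_subset_closedBall (by linarith)).trans hb
    have h1 := hcac U G D x (R / 2) R (G x) hU hS hQ (by linarith) (by linarith) hb
    have h2 := integral_sq_le hg hR hb (c := G x) (S := ε) hGε
    have h3 : ∫ z in ball x (R / 2), -jac (D z) ≤ 4 * Real.pi * C1 * ε ^ 2 := by
      refine h1.trans ?_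
      calc C1 / (R - R / 2) ^ 2 * ∫ z in ball x R, ‖G z - G x‖ ^ 2
          ≤ C1 / (R - R / 2) ^ 2 * (Real.pi * R ^ 2 * ε ^ 2) := by gcongr
        _ = 4 * Real.pi * C1 * ε ^ 2 := by
            have : R - R / 2 = R / 2 := by ring
            rw [this]; field_simp; ring
    have h4 := hdec U G D x (R / 2) hU hS hg hP (by linarith) hb2 hGx
      (fun z hz => (hGε z (ball_subset_ball (by linarith) hz)).trans hεG) (4 * t) (by linarith)
      (by linarith)
    have h5 : ∫ z in ball x (4 * t), -jac (D z) ≤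
        C3 * (4 * Real.pi * C1) * (8 * (t / R) * ε) ^ 2 := by
      refine h4.trans ?_
      calc C3 * (4 * t / (R / 2)) ^ 2 * ∫ z in ball x (R / 2), -jac (D z)
          ≤ C3 * (4 * t / (R / 2)) ^ 2 * (4 * Real.pi * C1 * ε ^ 2) := by gcongr
        _ = C3 * (4 * Real.pi * C1) * (8 * (t / R) * ε) ^ 2 := by
            field_simp; ring
    have h6 : Real.sqrt (∫ z in ball x (4 * t), -jac (D z)) ≤
        Real.sqrt (C3 * (4 * Real.pi * C1)) * (8 * (t / R) * ε) := by
      rw [Real.sqrt_le_iff]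
      refine ⟨by positivity, h5.trans (le_of_eq ?_)⟩
      rw [mul_pow (Real.sqrt (C3 * (4 * Real.pi * C1))), Real.sq_sqrt (by positivity)]
    have h7 := hhol U G D x (4 * t) hU hS hg hQ (by linarith) hb4 y
      (by rw [mem_ball_iff_norm]; linarith) x (mem_ball_self (by linarith))
    have h8 : (‖y - x‖ / (4 * t)) ^ (1 / (p - 1)) ≤ 1 := by
      refine Real.rpow_le_one (by positivity) ?_ (by positivity)
      rw [div_le_one (by linarith)]; linarith
    have h9 : ‖G y - G x‖ ≤ A * ((t / R) * ε) := by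
      calc ‖G y - G x‖ ≤ C2 * (‖y - x‖ / (4 * t)) ^ (1 / (p - 1)) *
            Real.sqrt (∫ z in ball x (4 * t), -jac (D z)) := h7
        _ ≤ C2 * 1 * (Real.sqrt (C3 * (4 * Real.pi * C1)) * (8 * (t / R) * ε)) := by gcongr
        _ = _ := by rw [hA]; ring
    have h10 : max ‖G y‖ ‖G x‖ ≤ 3 / 2 * ‖G x‖ := by
      refine max_le ?_ (by linarith)
      have : ‖G y‖ ≤ ‖G y - G x‖ + ‖G x‖ := by
        have := norm_add_le (G y - G x) (G x)
        simpa using this
      have := hGε y hy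
      linarith
    have h11 : (max ‖G y‖ ‖G x‖) ^ (p - 2) ≤ (3 / 2) ^ (p - 2) * ‖G x‖ ^ (p - 2) := by
      rw [← Real.mul_rpow (by norm_num) hGx0.le]
      exact Real.rpow_le_rpow (le_max_of_le_left (norm_nonneg _)) h10 (by linarith)
    calc ‖flux p (G y) - flux p (G x)‖ ≤ (p - 1) * (max ‖G y‖ ‖G x‖) ^ (p - 2) * ‖G y - G x‖ :=
          flux_lip hp _ _
      _ ≤ (p - 1) * ((3 / 2) ^ (p - 2) * ‖G x‖ ^ (p - 2)) * (A * ((t / R) * ε)) := by gcongr
      _ = ((p - 1) * (3 / 2) ^ (p - 2) * (A * 2)) * (t / R) * w := by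
          rw [hε]; field_simp
      _ ≤ _ := by
          gcongr
          exact le_max_right _ _
  · have h2 : 1 / 8 ≤ ‖y - x‖ / R := by
      rw [div_le_div_iff₀ (by norm_num) hR]
      linarith
    calc ‖flux p (G y) - flux p (G x)‖ ≤ w := hw y hy
      _ = 8 * (1 / 8) * w := by ring
      _ ≤ _ := by
          gcongr
          exact le_max_left _ _

end Pool.Agent.H52.PH
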