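import Pool.Agent.H52.PH.Final

/-! Pointwise linear growth of the flux. -/

open MeasureTheory Set Metric Filter Topology ContDiff Complex
open scoped ENNReal

namespace Pool.Agent.H52.PH

theorem ball_fin (x : ℂ) (r : ℝ) : IsFiniteMeasure (volume.restrict (ball x r)) := by
  refine ⟨?_⟩
  rw [Measure.restrict_apply_univ]
  exact measure_ball_lt_top

theorem flux_small {p : ℝ} (hp : 2 ≤ p) {X Y : ℂ} {b : ℝ} (h1 : ‖X‖ ≤ 2 * b) (h2 : ‖Y‖ ≤ 2 * b)
    (hb : 0 ≤ b) {d : ℝ} (hXY : ‖X - Y‖ ≤ d) :
    ‖flux p X - flux p Y‖ ≤ (p - 1) * 2 ^ (p - 2) * b ^ (p - 2) * d := by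
  have hp1 : 0 ≤ p - 1 := by linarith
  have h3 : (max ‖X‖ ‖Y‖) ^ (p - 2) ≤ 2 ^ (p - 2) * b ^ (p - 2) := by
    rw [← Real.mul_rpow (by norm_num) hb]
    exact Real.rpow_le_rpow (le_max_of_le_left (norm_nonneg _)) (max_le h1 h2) (by linarith)
  calc ‖flux p X - flux p Y‖ ≤ (p - 1) * (max ‖X‖ ‖Y‖) ^ (p - 2) * ‖X - Y‖ := flux_lip hp _ _
    _ ≤ (p - 1) * (2 ^ (p - 2) * b ^ (p - 2)) * d := by gcongr
    _ = _ := by ring

set_option maxHeartbeats 4000000 in
/-- The flux grows at most linearly at the centre of a ball, relative to its oscillation. -/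
theorem pointwise_lip {p : ℝ} (hp : 2 ≤ p) : ∃ C : ℝ, 1 ≤ C ∧
    ∀ (U : Set ℂ) (G : ℂ → ℂ) (D : ℂ → ℂ →L[ℝ] ℂ) (x : ℂ) (R : ℝ) (w : ℝ), IsOpen U →
      Sob 2 U G D → ContinuousOn G U → (∀ᵐ z ∂volume.restrict U, PStruct (p - 1) (G z) (D z)) →
      0 < R → closedBall x R ⊆ U →
      (∀ z ∈ ball x R, ‖flux p (G z) - flux p (G x)‖ ≤ w) →
      ∀ y ∈ ball x R, ‖flux p (G y) - flux p (G x)‖ ≤ C * (‖y - x‖ / R) * w := by
  have hm : 1 ≤ p - 1 := by linarith
  have hm0 : 0 < p - 1 := by linarith
  obtain ⟨C2, hC2, hS2⟩ := holder_sup (p - 1) hm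
  obtain ⟨C3, hC3, hS3⟩ := nondeg_lip hp
  have hC20 : 0 < C2 := by linarith
  -- constants
  set M := (p - 1) * 2 ^ (p - 2) with hM
  have hM1 : 1 ≤ M := by
    have : (1 : ℝ) ≤ 2 ^ (p - 2) := Real.one_le_rpow (by norm_num) (by linarith)
    rw [hM]; nlinarith
  set a := 1 / (4 * M) with ha
  have ha0 : 0 < a := by positivity
  have ha1 : a ≤ 1 := by
    rw [ha, div_le_one (by positivity)]; linarith
  set c := a ^ (p - 1) with hc
  have hc0 : 0 < c := Real.rpow_pos_of_pos ha0 _
  have hc1 : c ≤ 1 := Real.rpow_le_one ha0.le ha1 hm0.le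
  set Q := C2 ^ (p - 1) with hQdef
  have hQ0 : 0 < Q := Real.rpow_pos_of_pos hC20 _
  refine ⟨max C3 (max (M * Q * 5 / c) (C3 * Q * 5 / c)), le_max_of_le_left hC3, ?_⟩
  intro U G D x R w hU hS hg hP hR hb hw y hy
  have hw0 : 0 ≤ w := (norm_nonneg _).trans (hw x (mem_ball_self hR))
  have hy' : ‖y - x‖ < R := by rwa [← mem_ball_iff_norm]
  rcases eq_or_lt_of_le hw0 with hw00 | hwpos
  · have := hw y hy
    rw [← hw00] at this ⊢
    linarith
  rcases eq_or_ne y x with rfl | hyx
  · simp only [sub_self, norm_zero, zero_div, mul_zero, zero_mul, le_refl]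
  have ht : 0 < ‖y - x‖ := norm_pos_iff.2 (sub_ne_zero.2 hyx)
  set t := ‖y - x‖ with htdef
  have htR : 0 < t / R := by positivity
  by_cases hcase : 4 * w ≤ ‖flux p (G x)‖
  · have hGx : G x ≠ 0 := by
      intro h0
      rw [h0, norm_flux hp, norm_zero, Real.zero_rpow hm0.ne'] at hcase
      linarith
    refine (hS3 U G D x R w hU hS hg hP hR hb hGx hw hcase y hy).trans ?_
    gcongr
    exact le_max_left _ _
  push Not at hcase
  -- the degenerate regime
  have hQR : ∀ᵐ z ∂volume.restrict U, QR (p - 1) (D z) := by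
    filter_upwards [hP] with z hz
    exact pstruct_qr hm hz
  set S := (5 * w) ^ (1 / (p - 1)) with hSdef
  have hS0 : 0 < S := Real.rpow_pos_of_pos (by positivity) _
  have hSm : S ^ (p - 1) = 5 * w := by
    rw [hSdef, ← Real.rpow_mul (by positivity), one_div_mul_cancel hm0.ne', Real.rpow_one]
  have hGS : ∀ z ∈ ball x R, ‖G z‖ ≤ S := by
    intro z hz
    have h1 : ‖flux p (G z)‖ ≤ 5 * w := by
      have := norm_add_le (flux p (G z) - flux p (G x)) (flux p (G x))
      rw [sub_add_cancel] at this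
      linarith [hw z hz]
    rw [norm_flux hp] at h1
    rw [← hSm] at h1
    exact (Real.rpow_le_rpow_iff (norm_nonneg _) hS0.le hm0).1 h1
  have hhol := hS2 U G D x R S hU hS hg hQR hR hb hGS
  -- b(τ)
  set b : ℝ → ℝ := fun τ => C2 * (τ / R) ^ (1 / (p - 1)) * S with hbdef
  have hbm : ∀ τ, 0 ≤ τ → b τ ^ (p - 1) = Q * (τ / R) * (5 * w) := by
    intro τ hτ
    simp only [hbdef]
    have h1 : 0 ≤ τ / R := by positivity
    rw [Real.mul_rpow (by positivity) hS0.le, Real.mul_rpow hC20.le (by positivity), hSm,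
      ← Real.rpow_mul h1, one_div_mul_cancel hm0.ne', Real.rpow_one]
  have hb0 : ∀ τ, 0 < τ → 0 < b τ := by
    intro τ hτ
    simp only [hbdef]
    have : 0 < (τ / R) ^ (1 / (p - 1)) := Real.rpow_pos_of_pos (by positivity) _
    positivity
  have hpow : ∀ X : ℝ, 0 < X → X ^ (p - 2) * X = X ^ (p - 1) := by
    intro X hX
    rw [← Real.rpow_add_one hX.ne']
    congr 1; ring
  have hyG : ‖G y - G x‖ ≤ b t := hhol y hy
  have hbt := hb0 t ht
  by_cases hB : ‖G x‖ ≤ b t
  · -- B1
    have h1 : ‖G y‖ ≤ 2 * b t := by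
      have := norm_add_le (G y - G x) (G x)
      rw [sub_add_cancel] at this
      linarith
    have h2 := flux_small hp h1 (by linarith : ‖G x‖ ≤ 2 * b t) hbt.le hyG
    calc ‖flux p (G y) - flux p (G x)‖ ≤ M * (b t) ^ (p - 2) * b t := h2
      _ = M * (b t) ^ (p - 1) := by rw [mul_assoc, hpow _ hbt]
      _ = M * Q * 5 * (t / R) * w := by rw [hbm t ht.le]; ring
      _ ≤ M * Q * 5 / c * (t / R) * w := by
          gcongr
          rw [le_div_iff₀ hc0]
          have : 0 ≤ M * Q * 5 := by positivity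
          nlinarith
      _ ≤ _ := by
          gcongr
          exact (le_max_left _ _).trans (le_max_right _ _)
  · push Not at hB
    have hGx0 : 0 < ‖G x‖ := hbt.trans hB
    have hGx : G x ≠ 0 := norm_pos_iff.1 hGx0
    -- t*
    obtain ⟨τ, hτdef⟩ : ∃ τ, τ = R * (‖G x‖ / (C2 * S)) ^ (p - 1) := ⟨_, rfl⟩
    have hratio : 0 < ‖G x‖ / (C2 * S) := by positivity
    have hratio1 : ‖G x‖ / (C2 * S) ≤ 1 := by
      rw [div_le_one (by positivity)]
      have := hGS x (mem_ball_self hR)
      nlinarith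
    have hτ0 : 0 < τ := by
      rw [hτdef]
      have := Real.rpow_pos_of_pos hratio (p - 1)
      positivity
    have hτR : τ ≤ R := by
      rw [hτdef]
      have := Real.rpow_le_one hratio.le hratio1 hm0.le
      nlinarith
    have hbτ : b τ = ‖G x‖ := by
      simp only [hbdef]
      have : τ / R = (‖G x‖ / (C2 * S)) ^ (p - 1) := by rw [hτdef]; field_simp
      rw [this, ← Real.rpow_mul hratio.le, mul_one_div_cancel hm0.ne', Real.rpow_one]
      field_simp
    have hFx : ‖flux p (G x)‖ = Q * (τ / R) * (5 * w) := by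
      rw [norm_flux hp, ← hbτ, hbm τ hτ0.le]
    have hbscale : ∀ s, 0 ≤ s → b s = ‖G x‖ * (s / τ) ^ (1 / (p - 1)) := by
      intro s hs
      rw [← hbτ]
      simp only [hbdef]
      have e : s / R = (τ / R) * (s / τ) := by field_simp
      rw [e, Real.mul_rpow (by positivity) (by positivity)]
      ring
    by_cases hB2 : t < c * τ
    · -- nondegenerate at scale `c τ`
      have hcτ : 0 < c * τ := by positivity
      have hcτR : c * τ ≤ R := by nlinarith
      have hsubR : ∀ z ∈ ball x (c * τ), z ∈ ball x R := fun z hz =>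
        ball_subset_ball hcτR hz
      have hw' : ∀ z ∈ ball x (c * τ), ‖flux p (G z) - flux p (G x)‖ ≤
          ‖flux p (G x)‖ / 4 := by
        intro z hz
        have hz' : ‖z - x‖ < c * τ := by rwa [← mem_ball_iff_norm]
        have h1 : ‖G z - G x‖ ≤ a * ‖G x‖ := by
          refine (hhol z (hsubR z hz)).trans ?_
          change b ‖z - x‖ ≤ _
          rw [hbscale _ (norm_nonneg _), mul_comm a]
          refine mul_le_mul_of_nonneg_left ?_ hGx0.le
          have h2 : ‖z - x‖ / τ ≤ c := by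
            rw [div_le_iff₀ hτ0]; exact hz'.le
          calc (‖z - x‖ / τ) ^ (1 / (p - 1)) ≤ c ^ (1 / (p - 1)) :=
                Real.rpow_le_rpow (by positivity) h2 (by positivity)
            _ = a := by
                rw [hc, ← Real.rpow_mul ha0.le, mul_one_div_cancel hm0.ne', Real.rpow_one]
        have h3 : ‖G z‖ ≤ 2 * ‖G x‖ := by
          have := norm_add_le (G z - G x) (G x)
          rw [sub_add_cancel] at this
          nlinarith
        have h4 := flux_small hp h3 (by linarith : ‖G x‖ ≤ 2 * ‖G x‖) hGx0.le h1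
        refine h4.trans (le_of_eq ?_)
        rw [norm_flux hp, ← hpow _ hGx0, ha]
        field_simp
        exact hM.symm
      have h5 := hS3 U G D x (c * τ) (‖flux p (G x)‖ / 4) hU hS hg hP hcτ
        ((closedBall_subset_closedBall hcτR).trans hb) hGx hw' (by linarith) y
        (by rw [mem_ball_iff_norm]; exact hB2)
      calc ‖flux p (G y) - flux p (G x)‖ ≤ C3 * (t / (c * τ)) * (‖flux p (G x)‖ / 4) := h5
        _ = (C3 * Q * 5 / c) / 4 * (t / R) * w := by
            rw [hFx]; field_simp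
        _ ≤ (C3 * Q * 5 / c) * (t / R) * w := by
            have : 0 ≤ C3 * Q * 5 / c := by positivity
            exact mul_le_mul_of_nonneg_right (mul_le_mul_of_nonneg_right (by linarith) htR.le) hw0
        _ ≤ _ := by
            gcongr
            exact (le_max_right _ _).trans (le_max_right _ _)
    · push Not at hB2
      have h1 : ‖G y‖ ≤ 2 * ‖G x‖ := by
        have := norm_add_le (G y - G x) (G x)
        rw [sub_add_cancel] at this
        linarith
      have h2 := flux_small hp h1 (by linarith : ‖G x‖ ≤ 2 * ‖G x‖) hGx0.le (hyG.trans hB.le)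
      calc ‖flux p (G y) - flux p (G x)‖ ≤ M * ‖G x‖ ^ (p - 2) * ‖G x‖ := h2
        _ = M * ‖flux p (G x)‖ := by rw [mul_assoc, hpow _ hGx0, norm_flux hp]
        _ = M * Q * 5 * (τ / R) * w := by rw [hFx]; ring
        _ ≤ M * Q * 5 * (t / c / R) * w := by
            gcongr
            rw [le_div_iff₀ hc0]; linarith
        _ = M * Q * 5 / c * (t / R) * w := by ring
        _ ≤ _ := by
            gcongr
            exact (le_max_left _ _).trans (le_max_right _ _)

/-- Mean oscillation is at most twice the mean distance to a constant. -/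
theorem osc_le {F : ℂ → ℂ} {x : ℂ} {r : ℝ} (hr : 0 < r) (hF : IntegrableOn F (ball x r)) (c : ℂ) :
    ⨍ z in ball x r, ‖F z - ⨍ w in ball x r, F w‖ ≤ 2 * ⨍ z in ball x r, ‖F z - c‖ := by
  have hfin : volume (ball x r) ≠ ⊤ := measure_ball_lt_top.ne
  have hpos : volume (ball x r) ≠ 0 := (measure_ball_pos volume x hr).ne'
  have hpr : 0 < (volume (ball x r)).toReal := ENNReal.toReal_pos hpos hfin
  have := ball_fin x r
  have hc : Integrable (fun z => ‖F z - c‖) (volume.restrict (ball x r)) :=
    (hF.sub (integrable_const c)).norm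
  set A := ⨍ w in ball x r, F w with hA
  have h1 : ‖c - A‖ ≤ ⨍ z in ball x r, ‖F z - c‖ := by
    have e : A - c = ⨍ z in ball x r, (F z - c) := by
      rw [hA, setAverage_eq, setAverage_eq, integral_sub hF (integrable_const c), smul_sub]
      congr 1
      rw [setIntegral_const, smul_smul, Measure.real, inv_mul_cancel₀ hpr.ne', one_smul]
    rw [norm_sub_rev, e, setAverage_eq, setAverage_eq, norm_smul, smul_eq_mul, norm_inv,
      Real.norm_eq_abs, abs_of_nonneg (by positivity)]
    exact mul_le_mul_of_nonneg_left (norm_integral_le_integral_norm _) (by positivity)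
  have h2 : ⨍ z in ball x r, ‖F z - A‖ ≤ ⨍ z in ball x r, (‖F z - c‖ + ‖c - A‖) := by
    rw [setAverage_eq, setAverage_eq, smul_eq_mul, smul_eq_mul]
    refine mul_le_mul_of_nonneg_left ?_ (by positivity)
    refine integral_mono ((hF.sub (integrable_const A)).norm) (hc.add (integrable_const _))
      fun z => ?_
    have := norm_add_le (F z - c) (c - A)
    simpa using this
  have h3 : ⨍ z in ball x r, (‖F z - c‖ + ‖c - A‖) =
      (⨍ z in ball x r, ‖F z - c‖) + ‖c - A‖ := by
    rw [setAverage_eq, setAverage_eq, integral_add hc (integrable_const _), smul_add]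
    congr 1
    rw [setIntegral_const, smul_smul, Measure.real, inv_mul_cancel₀ hpr.ne', one_smul]
  linarith

set_option maxHeartbeats 4000000 in
/-- The main theorem. -/
theorem linear_decay {p : ℝ} (hp : 2 ≤ p) : ∃ c : ℝ, 0 < c ∧
    ∀ (Ω : Set ℂ), IsOpen Ω → ∀ (h : ℂ → ℝ) (G : ℂ → ℂ), IsPHarmonic p Ω h G →
    ∀ (x : ℂ) (r : ℝ), 0 < r → ball x r ⊆ Ω → IntegrableOn (fun z => flux p (G z)) (ball x r) →
    ∀ θ ∈ Ioo (0 : ℝ) 1,
      ⨍ z in ball x (θ * r), ‖flux p (G z) - ⨍ w in ball x (θ * r), flux p (G w)‖ ≤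
        c * θ * ⨍ z in ball x r, ‖flux p (G z) - ⨍ w in ball x r, flux p (G w)‖ := by
  have hp1 : 1 ≤ p := by linarith
  obtain ⟨C1, hC1, hsup⟩ := qr_sup p hp1
  obtain ⟨C4, hC4, hlip⟩ := pointwise_lip hp
  set B := C1 / (5 / 8) ^ 2 * Real.pi with hB
  have hB0 : 0 < B := by positivity
  refine ⟨max 128 (2 * (C4 * 4 * (2 * B))), lt_max_of_lt_left (by norm_num), ?_⟩
  intro Ω hΩ h G H x r hr hbΩ hFint θ hθ
  obtain ⟨hθ0, hθ1⟩ := hθ
  set A := ⨍ w in ball x r, flux p (G w) with hA
  set O := ⨍ z in ball x r, ‖flux p (G z) - A‖ with hO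
  have := ball_fin x r
  have hvol : 0 < (volume (ball x r)).toReal := by
    rw [vol_ball x hr.le]; positivity
  have hOint : ∫ z in ball x r, ‖flux p (G z) - A‖ = Real.pi * r ^ 2 * O := by
    rw [hO, setAverage_eq, smul_eq_mul, Measure.real, vol_ball x hr.le, ← mul_assoc,
      mul_inv_cancel₀ (by positivity), one_mul]
  have hO0 : 0 ≤ O := by
    rw [hO, setAverage_eq, smul_eq_mul]; positivity
  have hθr : 0 < θ * r := by positivity
  have hsubθ : ball x (θ * r) ⊆ ball x r := ball_subset_ball (by nlinarith)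
  have hFθ : IntegrableOn (fun z => flux p (G z)) (ball x (θ * r)) := hFint.mono_set hsubθ
  by_cases hcase : 1 / 4 ≤ θ
  · -- large `θ`
    have h1 := osc_le hθr hFθ A
    have h2 : ⨍ z in ball x (θ * r), ‖flux p (G z) - A‖ ≤ 16 * O := by
      rw [setAverage_eq, smul_eq_mul, Measure.real, vol_ball x hθr.le]
      have h3 : ∫ z in ball x (θ * r), ‖flux p (G z) - A‖ ≤ Real.pi * r ^ 2 * O := by
        rw [← hOint]
        exact setIntegral_mono_set ((hFint.sub (integrable_const A)).norm)
          (Eventually.of_forall fun z => norm_nonneg _) hsubθ.eventuallyLE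
      calc (Real.pi * (θ * r) ^ 2)⁻¹ * ∫ z in ball x (θ * r), ‖flux p (G z) - A‖
          ≤ (Real.pi * (θ * r) ^ 2)⁻¹ * (Real.pi * r ^ 2 * O) := by gcongr
        _ = (1 / θ ^ 2) * O := by field_simp
        _ ≤ 16 * O := by
            refine mul_le_mul_of_nonneg_right ?_ hO0
            rw [div_le_iff₀ (by positivity)]
            nlinarith
    calc _ ≤ 2 * ⨍ z in ball x (θ * r), ‖flux p (G z) - A‖ := h1
      _ ≤ 2 * (16 * O) := by linarith
      _ ≤ 128 * θ * O := by nlinarith
      _ ≤ _ := by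
          gcongr
          exact le_max_left _ _
  · push Not at hcase
    -- regularity on the ball of radius `3r/4`
    obtain ⟨G', DG, DF, hG'c, hGG', hSG, hPG, hSF, hQF⟩ := main_regularity hp hΩ H
      (x := x) (ρ := 3 * r / 4) (ρ' := 7 * r / 8) (by positivity) (by linarith)
      ((closedBall_subset_ball (by linarith)).trans hbΩ)
    have hF'c : ContinuousOn (fun z => flux p (G' z)) (ball x (3 * r / 4)) :=
      (continuous_flux hp).comp_continuousOn hG'c
    have hs1 : closedBall x (5 * r / 8) ⊆ ball x (3 * r / 4) :=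
      closedBall_subset_ball (by linarith)
    have hss : ball x (5 * r / 8) ⊆ ball x (3 * r / 4) := ball_subset_closedBall.trans hs1
    -- sup bound
    have hsupb : ∀ y ∈ ball x (5 * r / 8 / 2), ‖flux p (G' y) - A‖ ≤ B * O := by
      intro y hy
      have h1 := hsup _ _ DF x (5 * r / 8) A isOpen_ball hSF hF'c hQF (by positivity) hs1 y hy
      refine h1.trans ?_
      have h2 : ∫ z in ball x (5 * r / 8), ‖flux p (G' z) - A‖ ≤ Real.pi * r ^ 2 * O := by
        have h3 : ∫ z in ball x (5 * r / 8), ‖flux p (G' z) - A‖ =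
            ∫ z in ball x (5 * r / 8), ‖flux p (G z) - A‖ := by
          refine integral_congr_ae ?_
          filter_upwards [ae_restrict_of_ae_restrict_of_subset hss hGG'] with z hz
          rw [hz]
        rw [h3, ← hOint]
        exact setIntegral_mono_set ((hFint.sub (integrable_const A)).norm)
          (Eventually.of_forall fun z => norm_nonneg _)
          (ball_subset_ball (by linarith)).eventuallyLE
      calc C1 / (5 * r / 8) ^ 2 * ∫ z in ball x (5 * r / 8), ‖flux p (G' z) - A‖
          ≤ C1 / (5 * r / 8) ^ 2 * (Real.pi * r ^ 2 * O) := by gcongr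
        _ = B * O := by rw [hB]; field_simp
    -- pointwise estimate on the ball of radius `r/4`
    have hR4 : closedBall x (r / 4) ⊆ ball x (3 * r / 4) := closedBall_subset_ball (by linarith)
    have hosc : ∀ z ∈ ball x (r / 4), ‖flux p (G' z) - flux p (G' x)‖ ≤ 2 * B * O := by
      intro z hz
      have h1 := hsupb z (ball_subset_ball (by linarith) hz)
      have h2 := hsupb x (mem_ball_self (by positivity))
      have h3 := norm_sub_le (flux p (G' z) - A) (flux p (G' x) - A)
      rw [sub_sub_sub_cancel_right] at h3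
      linarith
    have hl := hlip _ G' DG x (r / 4) (2 * B * O) isOpen_ball hSG hG'c hPG (by positivity) hR4 hosc
    -- conclusion
    have hθ4 : ball x (θ * r) ⊆ ball x (r / 4) := ball_subset_ball (by nlinarith)
    have h1 := osc_le hθr hFθ (flux p (G' x))
    have hvolθ : 0 < Real.pi * (θ * r) ^ 2 := by positivity
    have h2 : ⨍ z in ball x (θ * r), ‖flux p (G z) - flux p (G' x)‖ ≤
        C4 * (4 * θ) * (2 * B * O) := by
      rw [setAverage_eq, smul_eq_mul, Measure.real, vol_ball x hθr.le]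
      have h3 : ∫ z in ball x (θ * r), ‖flux p (G z) - flux p (G' x)‖ ≤
          ∫ z in ball x (θ * r), C4 * (4 * θ) * (2 * B * O) := by
        have := ball_fin x (θ * r)
        refine integral_mono_ae ((hFθ.sub (integrable_const _)).norm) (integrable_const _) ?_
        have hsub3 : ball x (θ * r) ⊆ ball x (3 * r / 4) := hθ4.trans
          (ball_subset_closedBall.trans hR4)
        filter_upwards [ae_restrict_of_ae_restrict_of_subset hsub3 hGG',
          ae_restrict_mem measurableSet_ball] with z hz hzb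
        have hz' : ‖z - x‖ < θ * r := by rwa [← mem_ball_iff_norm]
        simp only [hz]
        refine (hl z (hθ4 hzb)).trans ?_
        have h5 : ‖z - x‖ / (r / 4) ≤ 4 * θ := by
          rw [div_le_iff₀ (by positivity)]
          nlinarith
        gcongr
      rw [setIntegral_const, Measure.real, vol_ball x hθr.le, smul_eq_mul] at h3
      calc (Real.pi * (θ * r) ^ 2)⁻¹ * ∫ z in ball x (θ * r), ‖flux p (G z) - flux p (G' x)‖
          ≤ (Real.pi * (θ * r) ^ 2)⁻¹ * (Real.pi * (θ * r) ^ 2 * (C4 * (4 * θ) * (2 * B * O))) := by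
            gcongr
        _ = _ := by rw [← mul_assoc, inv_mul_cancel₀ hvolθ.ne', one_mul]
    calc _ ≤ 2 * ⨍ z in ball x (θ * r), ‖flux p (G z) - flux p (G' x)‖ := h1
      _ ≤ 2 * (C4 * (4 * θ) * (2 * B * O)) := by linarith
      _ = (2 * (C4 * 4 * (2 * B))) * θ * O := by ring
      _ ≤ _ := by
          gcongr
          exact le_max_right _ _

end Pool.Agent.H52.PH
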