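import Pool.Agent.H52.PH.Trans
import Pool.Agent.H12.PH.Moll
import Pool.Agent.H12.PH.DiffQuot

/-! `V = |∇h|^((p-2)/2) ∇h` has a square integrable derivative. -/

open MeasureTheory Set Metric Filter Topology ContDiff Complex
open scoped ENNReal

namespace Pool.Agent.H52.PH

theorem inner_eq_dot (X Y : ℂ) : inner ℝ X Y = dot X Y := by
  rw [Complex.inner]
  simp [dot]
  ring

theorem clm_apply_eq {F : Type*} [NormedAddCommGroup F] [NormedSpace ℝ F] (L : ℂ →L[ℝ] F) (v : ℂ) :
    L v = v.re • L 1 + v.im • L I := by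
  conv_lhs => rw [← Complex.re_add_im v]
  have : ((v.re : ℂ) + (v.im : ℂ) * I) = v.re • (1 : ℂ) + v.im • I := by
    simp
  rw [this, map_add, map_smul, map_smul]

theorem continuous_flux {p : ℝ} (hp : 2 ≤ p) : Continuous (flux p) := by
  unfold flux
  have : Continuous fun Q : ℂ => (‖Q‖ ^ (p - 2) : ℝ) :=
    continuous_norm.rpow_const fun x => Or.inr (by linarith)
  exact this.smul continuous_id

theorem continuous_Vmap {p : ℝ} (hp : 2 ≤ p) : Continuous (Vmap p) := by
  unfold Vmap
  have : Continuous fun Q : ℂ => (‖Q‖ ^ ((p - 2) / 2) : ℝ) :=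
    continuous_norm.rpow_const fun x => Or.inr (by linarith)
  exact this.smul continuous_id

/-- A `p`-harmonic function is in the Sobolev class. -/
theorem IsPHarmonic.sob {p : ℝ} (hp : 2 ≤ p) {Ω : Set ℂ} (hΩ : IsOpen Ω) {h : ℂ → ℝ} {G : ℂ → ℂ}
    (H : IsPHarmonic p Ω h G) :
    Sob (ENNReal.ofReal p) Ω h (fun z => innerSL ℝ (G z)) := by
  refine Pool.Agent.H12.PH.sob_of_weak ?_ ENNReal.ofReal_ne_top hΩ H.loc ?_ ?_
  · rw [← ENNReal.ofReal_one]; exact ENNReal.ofReal_le_ofReal (by linarith)
  · intro K hK hKc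
    exact (innerSL ℝ : ℂ →L[ℝ] ℂ →L[ℝ] ℝ).comp_memLp' (H.locG K hK hKc)
  · intro φ hφ v
    obtain ⟨h1, h2⟩ := H.weak φ hφ
    have hφs := hφ.1
    have hKc : IsCompact (tsupport φ) := hφ.2.1
    have cont : ∀ w : ℂ, Continuous fun z => fderiv ℝ φ z w := fun w =>
      (hφs.continuous_fderiv (by simp)).clm_apply continuous_const
    have hq : (1 : ℝ≥0∞) ≤ ENNReal.ofReal p := by
      rw [← ENNReal.ofReal_one]; exact ENNReal.ofReal_le_ofReal (by linarith)
    have : IsFiniteMeasure (volume.restrict (tsupport φ)) := ⟨by simpa using hKc.measure_lt_top⟩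
    have ih : IntegrableOn h (tsupport φ) :=
      ((H.loc _ hφ.2.2 hKc).mono_exponent hq).integrable le_rfl
    have iG : IntegrableOn G (tsupport φ) :=
      ((H.locG _ hφ.2.2 hKc).mono_exponent hq).integrable le_rfl
    have int1 : ∀ w : ℂ, Integrable fun z => h z * fderiv ℝ φ z w := by
      intro w
      have : IntegrableOn (fun z => h z * fderiv ℝ φ z w) (tsupport φ) :=
        ih.mul_continuousOn (cont w).continuousOn hKc
      rw [integrableOn_iff_integrable_of_support_subset] at this
      · exact this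
      · intro z hz
        by_contra hz'
        apply hz
        simp [fderiv_eq_zero_of_notMem_tsupport hz']
    have int2 : ∀ L : ℂ →L[ℝ] ℝ, Integrable fun z => L (G z) * φ z := by
      intro L
      have : IntegrableOn (fun z => L (G z) * φ z) (tsupport φ) :=
        IntegrableOn.mul_continuousOn (L.integrable_comp iG) hφs.continuous.continuousOn hKc
      rw [integrableOn_iff_integrable_of_support_subset] at this
      · exact this
      · intro z hz
        by_contra hz'
        apply hz
        simp [image_eq_zero_of_notMem_tsupport hz']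
    have e1 : ∀ z, fderiv ℝ φ z v • h z =
        v.re * (h z * fderiv ℝ φ z 1) + v.im * (h z * fderiv ℝ φ z I) := by
      intro z
      rw [clm_apply_eq (fderiv ℝ φ z) v]
      simp only [smul_eq_mul]; ring
    have e2 : ∀ z, φ z • (innerSL ℝ (G z) : ℂ →L[ℝ] ℝ) v =
        v.re * (reCLM (G z) * φ z) + v.im * (imCLM (G z) * φ z) := by
      intro z
      rw [innerSL_apply_apply, inner_eq_dot]
      simp only [smul_eq_mul, dot, reCLM_apply, imCLM_apply]; ring
    simp_rw [e1, e2]
    rw [integral_add ((int1 1).const_mul _) ((int1 I).const_mul _),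
      integral_add ((int2 _).const_mul _) ((int2 _).const_mul _),
      integral_const_mul, integral_const_mul, integral_const_mul, integral_const_mul]
    rw [h1, h2]
    simp only [reCLM_apply, imCLM_apply]
    ring

theorem memLp_flux {p : ℝ} (hp : 2 ≤ p) {μ : Measure ℂ} {G : ℂ → ℂ}
    (hG : MemLp G (ENNReal.ofReal p) μ) :
    MemLp (fun z => flux p (G z)) (ENNReal.ofReal (p / (p - 1))) μ := by
  have h1 := hG.norm_rpow_div (ENNReal.ofReal (p - 1))
  have e1 : ENNReal.ofReal p / ENNReal.ofReal (p - 1) = ENNReal.ofReal (p / (p - 1)) :=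
    (ENNReal.ofReal_div_of_pos (by linarith)).symm
  rw [e1, ENNReal.toReal_ofReal (by linarith)] at h1
  refine (memLp_norm_iff ((continuous_flux hp).comp_aestronglyMeasurable
    hG.aestronglyMeasurable)).1 ?_
  refine h1.congr_norm ((continuous_flux hp).comp_aestronglyMeasurable
    hG.aestronglyMeasurable).norm (Eventually.of_forall fun z => ?_)
  simp only [norm_flux hp, Real.norm_eq_abs]

theorem memLp_Vmap {p : ℝ} (hp : 2 ≤ p) {μ : Measure ℂ} {G : ℂ → ℂ}
    (hG : MemLp G (ENNReal.ofReal p) μ) :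
    MemLp (fun z => Vmap p (G z)) 2 μ := by
  have h1 := hG.norm_rpow_div (ENNReal.ofReal (p / 2))
  have e1 : ENNReal.ofReal p / ENNReal.ofReal (p / 2) = 2 := by
    rw [← ENNReal.ofReal_div_of_pos (by linarith)]
    rw [show p / (p / 2) = 2 by field_simp]
    simp
  rw [e1, ENNReal.toReal_ofReal (by linarith)] at h1
  refine (memLp_norm_iff ((continuous_Vmap hp).comp_aestronglyMeasurable
    hG.aestronglyMeasurable)).1 ?_
  refine h1.congr_norm ((continuous_Vmap hp).comp_aestronglyMeasurable
    hG.aestronglyMeasurable).norm (Eventually.of_forall fun z => ?_)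
  simp only [norm_Vmap hp, Real.norm_eq_abs]

/-- The weak equation in terms of the derivative of the test function. -/
theorem IsPHarmonic.eqn' {p : ℝ} {Ω : Set ℂ} {h : ℂ → ℝ} {G : ℂ → ℂ}
    (H : IsPHarmonic p Ω h G) {φ : ℂ → ℝ} (hφ : IsTest Ω φ) :
    ∫ z, fderiv ℝ φ z (flux p (G z)) = 0 := by
  rw [← H.eqn φ hφ]
  congr 1
  funext z
  rw [clm_apply_eq (fderiv ℝ φ z)]
  simp

/-- The weak equation for the translated function. -/
theorem IsPHarmonic.eqn_translate {p : ℝ} {Ω : Set ℂ} {h : ℂ → ℝ} {G : ℂ → ℂ}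
    (H : IsPHarmonic p Ω h G) {φ : ℂ → ℝ} (hφs : ContDiff ℝ ∞ φ) (hφc : HasCompactSupport φ)
    {e : ℂ} (hφe : ∀ z ∈ tsupport φ, z + e ∈ Ω) :
    ∫ z, fderiv ℝ φ z (flux p (G (z + e))) = 0 := by
  have hT : IsTest Ω (fun z => φ (z - e)) := by
    refine ⟨hφs.comp (contDiff_id.sub contDiff_const), ?_, ?_⟩
    · exact hφc.comp_homeomorph (Homeomorph.subRight e)
    · have : tsupport (fun z => φ (z - e)) ⊆ (fun z => z - e) ⁻¹' tsupport φ :=
        tsupport_comp_subset_preimage φ (continuous_id.sub continuous_const)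
      intro z hz
      have := hφe _ (this hz)
      simpa using this
  have h1 := H.eqn' hT
  have h2 := integral_add_right_eq_self (μ := (volume : Measure ℂ))
    (fun z => fderiv ℝ (fun z => φ (z - e)) z (flux p (G z))) e
  rw [h1] at h2
  rw [← h2]
  congr 1
  funext z
  have h3 : fderiv ℝ (fun z => φ (z - e)) (z + e) = fderiv ℝ φ z := by
    rw [fderiv_comp_sub]
    simp
  rw [h3]

end Pool.Agent.H52.PH
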