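import Pool.Agent.H52.PH.Sob2
import Pool.Agent.H52.PH.T1

/-! The maps `Φ(X) = (δ² + |X|²)^(γ/2) X` and cutoffs. -/

open MeasureTheory Set Metric Filter Topology ContDiff Complex
open scoped ENNReal

namespace Pool.Agent.H52.PH

/-- `Φ(X) = (δ² + |X|²)^(γ/2) X`. -/
noncomputable def Phi (δ γ : ℝ) (X : ℂ) : ℂ := ((δ ^ 2 + ‖X‖ ^ 2) ^ (γ / 2) : ℝ) • X

/-- The derivative of `Φ`. -/
noncomputable def dPhi (δ γ : ℝ) (X : ℂ) : ℂ →L[ℝ] ℂ :=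
  ((δ ^ 2 + ‖X‖ ^ 2) ^ (γ / 2) : ℝ) • ContinuousLinearMap.id ℝ ℂ +
    (γ * (δ ^ 2 + ‖X‖ ^ 2) ^ (γ / 2 - 1) : ℝ) • (innerSL ℝ X).smulRight X

theorem dPhi_apply (δ γ : ℝ) (X Y : ℂ) : dPhi δ γ X Y =
    ((δ ^ 2 + ‖X‖ ^ 2) ^ (γ / 2) : ℝ) • Y +
      (γ * (δ ^ 2 + ‖X‖ ^ 2) ^ (γ / 2 - 1) * dot X Y : ℝ) • X := by
  unfold dPhi
  simp only [add_apply, smul_apply, ContinuousLinearMap.id_apply,
    ContinuousLinearMap.smulRight_apply, innerSL_apply_apply, inner_eq_dot, smul_smul]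

theorem hasFDerivAt_Phi {δ γ : ℝ} {X : ℂ} (h : 0 < δ ^ 2 + ‖X‖ ^ 2) :
    HasFDerivAt (Phi δ γ) (dPhi δ γ X) X := by
  have h1 : HasFDerivAt (fun X : ℂ => ‖X‖ ^ 2) (2 • innerSL ℝ X) X :=
    (hasStrictFDerivAt_norm_sq X).hasFDerivAt
  have h2 : HasFDerivAt (fun X : ℂ => δ ^ 2 + ‖X‖ ^ 2) (2 • innerSL ℝ X) X :=
    h1.const_add (δ ^ 2)
  have h3 := h2.rpow_const (p := γ / 2) (Or.inl h.ne')
  have h4 : HasFDerivAt (Phi δ γ) _ X := h3.smul (hasFDerivAt_id X)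
  refine h4.congr_fderiv ?_
  ext1 Y
  rw [dPhi_apply]
  simp only [add_apply, smul_apply, ContinuousLinearMap.smulRight_apply,
    ContinuousLinearMap.id_apply, innerSL_apply_apply, inner_eq_dot, smul_eq_mul, nsmul_eq_mul]
  congr 1
  congr 1
  ring

theorem contDiffAt_Phi {δ γ : ℝ} {X : ℂ} (h : 0 < δ ^ 2 + ‖X‖ ^ 2) :
    ContDiffAt ℝ ∞ (Phi δ γ) X := by
  have h2 : ContDiffAt ℝ ∞ (fun X : ℂ => δ ^ 2 + ‖X‖ ^ 2) X :=
    contDiffAt_const.add (contDiff_norm_sq ℝ).contDiffAt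
  exact (h2.rpow_const_of_ne h.ne').smul contDiffAt_id

theorem contDiff_Phi {δ γ : ℝ} (hδ : 0 < δ) : ContDiff ℝ ∞ (Phi δ γ) :=
  contDiff_iff_contDiffAt.2 fun X => contDiffAt_Phi (by positivity)

theorem fderiv_Phi {δ γ : ℝ} {X : ℂ} (h : 0 < δ ^ 2 + ‖X‖ ^ 2) :
    fderiv ℝ (Phi δ γ) X = dPhi δ γ X := (hasFDerivAt_Phi h).fderiv

theorem norm_dPhi_le {δ γ : ℝ} (X : ℂ) (h : 0 < δ ^ 2 + ‖X‖ ^ 2) :
    ‖dPhi δ γ X‖ ≤ (1 + |γ|) * (δ ^ 2 + ‖X‖ ^ 2) ^ (γ / 2) := by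
  refine ContinuousLinearMap.opNorm_le_bound _ (by positivity) fun Y => ?_
  rw [dPhi_apply]
  set T := δ ^ 2 + ‖X‖ ^ 2 with hT
  have h1 : 0 ≤ T ^ (γ / 2) := by positivity
  have h2 : T ^ (γ / 2 - 1) * ‖X‖ ^ 2 ≤ T ^ (γ / 2) := by
    rw [Real.rpow_sub_one h.ne']
    rw [div_mul_eq_mul_div, div_le_iff₀ h]
    have : ‖X‖ ^ 2 ≤ T := by rw [hT]; nlinarith [sq_nonneg δ]
    gcongr
  calc ‖(T ^ (γ / 2) : ℝ) • Y + (γ * T ^ (γ / 2 - 1) * dot X Y : ℝ) • X‖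
      ≤ ‖(T ^ (γ / 2) : ℝ) • Y‖ + ‖(γ * T ^ (γ / 2 - 1) * dot X Y : ℝ) • X‖ := norm_add_le _ _
    _ = T ^ (γ / 2) * ‖Y‖ + |γ| * T ^ (γ / 2 - 1) * |dot X Y| * ‖X‖ := by
        rw [norm_smul, norm_smul, Real.norm_eq_abs, Real.norm_eq_abs, abs_of_nonneg h1, abs_mul,
          abs_mul, abs_of_nonneg (by positivity : 0 ≤ T ^ (γ / 2 - 1))]
    _ ≤ T ^ (γ / 2) * ‖Y‖ + |γ| * T ^ (γ / 2 - 1) * (‖X‖ * ‖Y‖) * ‖X‖ := by
        have := abs_dot_le X Y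
        gcongr
    _ = T ^ (γ / 2) * ‖Y‖ + |γ| * (T ^ (γ / 2 - 1) * ‖X‖ ^ 2) * ‖Y‖ := by ring
    _ ≤ T ^ (γ / 2) * ‖Y‖ + |γ| * T ^ (γ / 2) * ‖Y‖ := by gcongr
    _ = _ := by ring

/-- The basic bump function. -/
noncomputable def bmp : ContDiffBump (0 : ℂ) := ⟨1, 2, one_pos, one_lt_two⟩

theorem contDiff_bmp : ContDiff ℝ ∞ (bmp : ℂ → ℝ) := bmp.contDiff

theorem bmp_bound : ∃ B : ℝ, 0 ≤ B ∧ ∀ X : ℂ, ‖fderiv ℝ (bmp : ℂ → ℝ) X‖ * ‖X‖ ≤ B := by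
  have hc : Continuous (fderiv ℝ (bmp : ℂ → ℝ)) :=
    contDiff_bmp.continuous_fderiv (by simp)
  have hK : IsCompact (closedBall (0 : ℂ) 2) := isCompact_closedBall _ _
  obtain ⟨B0, hB0⟩ := hK.exists_bound_of_continuousOn hc.continuousOn
  refine ⟨max B0 0 * 2, by positivity, fun X => ?_⟩
  by_cases hX : X ∈ closedBall (0 : ℂ) 2
  · have h1 : ‖X‖ ≤ 2 := by simpa using hX
    exact mul_le_mul ((hB0 X hX).trans (le_max_left _ _)) h1 (norm_nonneg _) (le_max_right _ _)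
  · have : X ∉ tsupport (bmp : ℂ → ℝ) := by rw [bmp.tsupport_eq]; exact hX
    rw [fderiv_eq_zero_of_notMem_tsupport this]
    simp

/-- Scaled bump. -/
noncomputable def bt (t : ℝ) (X : ℂ) : ℝ := bmp (t • X)

theorem contDiff_bt (t : ℝ) : ContDiff ℝ ∞ (bt t) := bmp.contDiff.comp (contDiff_const_smul t)

theorem fderiv_bt (t : ℝ) (X : ℂ) : fderiv ℝ (bt t) X = t • fderiv ℝ (bmp : ℂ → ℝ) (t • X) := by
  have h1 : HasFDerivAt (fun X : ℂ => t • X) (t • ContinuousLinearMap.id ℝ ℂ) X :=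
    (hasFDerivAt_id X).const_smul t
  have h2 : HasFDerivAt (bmp : ℂ → ℝ) (fderiv ℝ (bmp : ℂ → ℝ) (t • X)) (t • X) :=
    (contDiff_bmp.differentiable (by simp) _).hasFDerivAt
  have h3 : HasFDerivAt (bt t) _ X := h2.comp X h1
  rw [h3.fderiv]
  ext Y
  simp

theorem bt_nonneg (t : ℝ) (X : ℂ) : 0 ≤ bt t X := bmp.nonneg
theorem bt_le_one (t : ℝ) (X : ℂ) : bt t X ≤ 1 := bmp.le_one

theorem bt_eq_one {t : ℝ} {X : ℂ} (h : |t| * ‖X‖ ≤ 1) : bt t X = 1 := by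
  apply bmp.one_of_mem_closedBall
  rw [mem_closedBall_zero_iff, norm_smul, Real.norm_eq_abs]
  exact h

theorem bt_eq_zero {t : ℝ} {X : ℂ} (h : 2 ≤ |t| * ‖X‖) : bt t X = 0 := by
  apply bmp.zero_of_le_dist
  rw [dist_zero_right, norm_smul, Real.norm_eq_abs]
  exact h

theorem fderiv_bt_bound : ∃ B : ℝ, 0 ≤ B ∧ ∀ (t : ℝ) (X : ℂ), ‖fderiv ℝ (bt t) X‖ * ‖X‖ ≤ B := by
  obtain ⟨B, hB0, hB⟩ := bmp_bound
  refine ⟨B, hB0, fun t X => ?_⟩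
  have := hB (t • X)
  rw [fderiv_bt, norm_smul]
  rw [norm_smul] at this
  linarith

/-- Cutoff to an annulus. -/
noncomputable def zt (n : ℕ) (X : ℂ) : ℝ := (1 - bt (n + 1) X) * bt (1 / (n + 1)) X

theorem contDiff_zt (n : ℕ) : ContDiff ℝ ∞ (zt n) :=
  (contDiff_const.sub (contDiff_bt _)).mul (contDiff_bt _)

theorem zt_nonneg (n : ℕ) (X : ℂ) : 0 ≤ zt n X :=
  mul_nonneg (sub_nonneg.2 (bt_le_one _ _)) (bt_nonneg _ _)

theorem zt_le_one (n : ℕ) (X : ℂ) : zt n X ≤ 1 := by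
  unfold zt
  have h1 := bt_nonneg (n + 1) X
  have h2 := bt_le_one (n + 1) X
  have h3 := bt_nonneg (1 / (n + 1)) X
  have h4 := bt_le_one (1 / (n + 1)) X
  nlinarith

theorem fderiv_zt (n : ℕ) (X : ℂ) : fderiv ℝ (zt n) X =
    (1 - bt (n + 1) X) • fderiv ℝ (bt (1 / (n + 1))) X -
      bt (1 / (n + 1)) X • fderiv ℝ (bt (n + 1)) X := by
  have h1 : HasFDerivAt (bt (n + 1)) (fderiv ℝ (bt (n + 1)) X) X :=
    ((contDiff_bt _).differentiable (by simp) X).hasFDerivAt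
  have h2 : HasFDerivAt (bt (1 / (n + 1))) (fderiv ℝ (bt (1 / (n + 1))) X) X :=
    ((contDiff_bt _).differentiable (by simp) X).hasFDerivAt
  have h3 : HasFDerivAt (zt n) _ X := (h1.const_sub 1).mul h2
  rw [h3.fderiv]
  ext Y
  simp only [add_apply, smul_apply, sub_apply, neg_apply, smul_eq_mul]
  ring

theorem fderiv_zt_bound : ∃ B : ℝ, 0 ≤ B ∧ ∀ (n : ℕ) (X : ℂ), ‖fderiv ℝ (zt n) X‖ * ‖X‖ ≤ B := by
  obtain ⟨B, hB0, hB⟩ := fderiv_bt_bound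
  refine ⟨B + B, by positivity, fun n X => ?_⟩
  rw [fderiv_zt]
  have h1 : ‖(1 - bt (n + 1) X) • fderiv ℝ (bt (1 / (n + 1))) X‖ ≤
      ‖fderiv ℝ (bt (1 / (n + 1))) X‖ := by
    rw [norm_smul, Real.norm_eq_abs, abs_of_nonneg (sub_nonneg.2 (bt_le_one _ _))]
    have := bt_nonneg (n + 1) X
    have h0 := norm_nonneg (fderiv ℝ (bt (1 / (n + 1))) X)
    nlinarith
  have h2 : ‖bt (1 / (n + 1)) X • fderiv ℝ (bt (n + 1)) X‖ ≤ ‖fderiv ℝ (bt (n + 1)) X‖ := by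
    rw [norm_smul, Real.norm_eq_abs, abs_of_nonneg (bt_nonneg _ _)]
    have := bt_le_one (1 / (n + 1)) X
    have h0 := norm_nonneg (fderiv ℝ (bt (n + 1)) X)
    nlinarith
  calc ‖(1 - bt (n + 1) X) • fderiv ℝ (bt (1 / (n + 1))) X -
      bt (1 / (n + 1)) X • fderiv ℝ (bt (n + 1)) X‖ * ‖X‖
      ≤ (‖fderiv ℝ (bt (1 / (n + 1))) X‖ + ‖fderiv ℝ (bt (n + 1)) X‖) * ‖X‖ := by
        gcongr
        exact (norm_sub_le _ _).trans (add_le_add h1 h2)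
    _ = ‖fderiv ℝ (bt (1 / (n + 1))) X‖ * ‖X‖ + ‖fderiv ℝ (bt (n + 1)) X‖ * ‖X‖ := by ring
    _ ≤ B + B := add_le_add (hB _ _) (hB _ _)

theorem zt_eventually_one {X : ℂ} (hX : X ≠ 0) :
    ∀ᶠ n : ℕ in atTop, ∀ᶠ Y in 𝓝 X, zt n Y = 1 := by
  have hX0 : 0 < ‖X‖ := norm_pos_iff.2 hX
  have t1 : Tendsto (fun n : ℕ => (n : ℝ) + 1) atTop atTop :=
    tendsto_atTop_add_const_right _ _ tendsto_natCast_atTop_atTop
  filter_upwards [t1.eventually_gt_atTop (4 / ‖X‖), t1.eventually_gt_atTop (2 * ‖X‖)]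
    with n h1 h2
  have hn : (0 : ℝ) < n + 1 := by positivity
  have ev : ∀ᶠ Y in 𝓝 X, ‖X‖ / 2 < ‖Y‖ ∧ ‖Y‖ < 2 * ‖X‖ := by
    have c := continuous_norm.tendsto X
    exact (c.eventually (lt_mem_nhds (by linarith))).and (c.eventually (gt_mem_nhds (by linarith)))
  filter_upwards [ev] with Y hY
  have e1 : bt (n + 1) Y = 0 := by
    apply bt_eq_zero
    rw [abs_of_pos hn]
    have : 4 / ‖X‖ * (‖X‖ / 2) ≤ (n + 1) * ‖Y‖ := by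
      have := hY.1
      gcongr
    have h3 : 4 / ‖X‖ * (‖X‖ / 2) = 2 := by field_simp; norm_num
    linarith
  have e2 : bt (1 / (n + 1)) Y = 1 := by
    apply bt_eq_one
    rw [abs_of_pos (by positivity), one_div, inv_mul_le_iff₀ hn]
    linarith [hY.2]
  rw [zt, e1, e2]; norm_num

theorem zt_zero_near (n : ℕ) : ∀ᶠ Y in 𝓝 (0 : ℂ), zt n Y = 0 := by
  have hn : (0 : ℝ) < n + 1 := by positivity
  have ev : ∀ᶠ Y in 𝓝 (0 : ℂ), ‖Y‖ < 1 / (n + 1) := by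
    have c := continuous_norm.tendsto (0 : ℂ)
    rw [norm_zero] at c
    exact c.eventually (gt_mem_nhds (by positivity))
  filter_upwards [ev] with Y hY
  have e1 : bt (n + 1) Y = 1 := by
    apply bt_eq_one
    rw [abs_of_pos hn]
    calc (n + 1) * ‖Y‖ ≤ (n + 1) * (1 / (n + 1)) := by gcongr
      _ = 1 := by field_simp
  simp [zt, e1]

theorem zt_compact (n : ℕ) : HasCompactSupport (zt n) := by
  have hn : (0 : ℝ) < n + 1 := by positivity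
  refine HasCompactSupport.of_support_subset_isCompact
    (isCompact_closedBall (0 : ℂ) (2 * (n + 1))) fun X hX => ?_
  by_contra h
  apply hX
  rw [mem_closedBall_zero_iff, not_le] at h
  have : bt (1 / (n + 1)) X = 0 := by
    apply bt_eq_zero
    rw [abs_of_pos (by positivity), one_div, le_inv_mul_iff₀ hn]
    linarith
  rw [zt, this, mul_zero]

end Pool.Agent.H52.PH
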