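import Pool.Agent.H52.PH.Struct
import Pool.Agent.H41.PHEnergy
import Pool.Agent.H80.PH.Morrey

/-! Energy decay, continuity and Hölder estimate for quasiregular maps. -/

open MeasureTheory Set Metric Filter Topology ContDiff Complex
open scoped ENNReal

namespace Pool.Agent.H52.PH

theorem continuous_jac : Continuous (jac : (ℂ →L[ℝ] ℂ) → ℝ) := by
  unfold jac
  have c1 : ∀ v : ℂ, Continuous fun L : ℂ →L[ℝ] ℂ => L v := fun v =>
    (ContinuousLinearMap.apply ℝ ℂ v).continuous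
  exact ((continuous_re.comp (c1 1)).mul (continuous_im.comp (c1 I))).sub
    ((continuous_im.comp (c1 1)).mul (continuous_re.comp (c1 I)))

theorem abs_jac_le (L : ℂ →L[ℝ] ℂ) : |jac L| ≤ 2 * ‖L‖ ^ 2 := by
  have b1 : ‖L 1‖ ≤ ‖L‖ := by simpa using L.le_opNorm 1
  have b2 : ‖L I‖ ≤ ‖L‖ := by simpa using L.le_opNorm I
  have c1 := abs_re_le_norm (L 1)
  have c2 := abs_im_le_norm (L 1)
  have c3 := abs_re_le_norm (L I)
  have c4 := abs_im_le_norm (L I)
  unfold jac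
  calc |(L 1).re * (L I).im - (L 1).im * (L I).re|
      ≤ |(L 1).re * (L I).im| + |(L 1).im * (L I).re| := abs_sub _ _
    _ = |(L 1).re| * |(L I).im| + |(L 1).im| * |(L I).re| := by rw [abs_mul, abs_mul]
    _ ≤ ‖L‖ * ‖L‖ + ‖L‖ * ‖L‖ := by
        gcongr <;> linarith
    _ = _ := by ring

theorem qr_jac_nonneg {K : ℝ} (hK : 1 ≤ K) {L : ℂ →L[ℝ] ℂ} (h : QR K L) : 0 ≤ -jac L := by
  unfold QR at h
  have h1 : 0 ≤ K * -jac L := (sq_nonneg _).trans h
  exact nonneg_of_mul_nonneg_right h1 (by linarith)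

theorem sob_integrable {U : Set ℂ} {g : ℂ → ℂ} {D : ℂ → ℂ →L[ℝ] ℂ} (h : Sob 2 U g D)
    {K : Set ℂ} (hK : IsCompact K) (hKU : K ⊆ U) {t : Set ℂ} (ht : t ⊆ K) :
    IntegrableOn (fun z => ‖D z‖ ^ 2) t ∧ IntegrableOn (fun z => -jac (D z)) t := by
  have mD := (h.memLpD hKU hK).mono_measure (Measure.restrict_mono ht le_rfl)
  have i1 : Integrable (fun z => ‖D z‖ ^ 2) (volume.restrict t) :=
    mD.integrable_norm_pow (by norm_num)
  refine ⟨i1, ?_⟩
  refine Integrable.neg ?_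
  refine (i1.const_mul 2).mono' (continuous_jac.comp_aestronglyMeasurable mD.aestronglyMeasurable)
    (Eventually.of_forall fun z => ?_)
  exact abs_jac_le (D z)

theorem qr_decay {K : ℝ} (hK : 1 ≤ K) {U : Set ℂ} {g : ℂ → ℂ} {D : ℂ → ℂ →L[ℝ] ℂ}
    (h : Sob 2 U g D) (hQ : ∀ᵐ z ∂volume.restrict U, QR K (D z)) {x : ℂ} {r R : ℝ} (hr : 0 < r)
    (hrR : r ≤ R) (hR : closedBall x R ⊆ U) :
    ∫ z in ball x r, -jac (D z) ≤ (r / R) ^ (2 / K) * ∫ z in ball x R, -jac (D z) := by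
  have hK0 : 0 < K := by linarith
  have hR0 : 0 < R := lt_of_lt_of_le hr hrR
  have key := Pool.Agent.H41.PH.energy_decay (m := 1) le_rfl hr hrR hR h
    (E := fun s => s ^ (-(2 / K))) (E' := fun s => -(2 / K) * s ^ (-(2 / K) - 1))
    (fun s hs => by
      have hs0 : 0 < s := lt_of_lt_of_le hr hs.1
      exact Real.hasDerivAt_rpow_const (Or.inl hs0.ne'))
    (by
      refine ContinuousOn.mul continuousOn_const ?_
      refine ContinuousOn.rpow_const continuousOn_id fun s hs => Or.inl ?_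
      exact (lt_of_lt_of_le hr hs.1).ne')
    (fun s hs => by
      have hs0 : 0 < s := lt_of_lt_of_le hr hs.1
      have : 0 < s ^ (-(2 / K) - 1) := Real.rpow_pos_of_pos hs0 _
      have h2 : 0 < 2 / K := by positivity
      nlinarith)
    (by
      have hQR := ae_restrict_of_ae_restrict_of_subset (ball_subset_closedBall.trans hR) hQ
      filter_upwards [hQR] with z hz hrz
      have hs0 : 0 < ‖z - x‖ := lt_of_lt_of_le hr hrz
      set s := ‖z - x‖ with hs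
      have e1 : s ^ (-(2 / K) - 1) * s = s ^ (-(2 / K)) := by
        rw [Real.rpow_sub_one hs0.ne']; field_simp
      have hE : 0 < s ^ (-(2 / K)) := Real.rpow_pos_of_pos hs0 _
      have hunit : ‖I * ((z - x) / ((s : ℝ) : ℂ))‖ = 1 := by
        rw [norm_mul, norm_I, one_mul, norm_div, Complex.norm_real, ← hs, Real.norm_eq_abs,
          abs_of_pos hs0, div_self hs0.ne']
      have hq : qform 1 (D z) ((z - x) / ((s : ℝ) : ℂ)) ≤ K * -jac (D z) := by
        have h1 : ‖D z (I * ((z - x) / ((s : ℝ) : ℂ)))‖ ≤ ‖D z‖ := by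
          have := (D z).le_opNorm (I * ((z - x) / ((s : ℝ) : ℂ)))
          rwa [hunit, mul_one] at this
        have h2 : qform 1 (D z) ((z - x) / ((s : ℝ) : ℂ)) =
            ‖D z (I * ((z - x) / ((s : ℝ) : ℂ)))‖ ^ 2 := by
          unfold qform; ring
        rw [h2]
        exact (pow_le_pow_left₀ (norm_nonneg _) h1 2).trans hz
      have e2 : kap 1 = 0 := by unfold kap; norm_num
      rw [e2]
      calc -(-(2 / K) * s ^ (-(2 / K) - 1)) * s * qform 1 (D z) ((z - x) / ((s : ℝ) : ℂ))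
          = (2 / K) * s ^ (-(2 / K)) * qform 1 (D z) ((z - x) / ((s : ℝ) : ℂ)) := by
            rw [← e1]; ring
        _ ≤ (2 / K) * s ^ (-(2 / K)) * (K * -jac (D z)) := by gcongr
        _ = 2 / 1 * (1 + 0) * (s ^ (-(2 / K)) * -jac (D z)) := by field_simp; ring)
  have hEr : 0 < r ^ (2 / K) := Real.rpow_pos_of_pos hr _
  have hER : 0 < R ^ (2 / K) := Real.rpow_pos_of_pos hR0 _
  rw [Real.rpow_neg hr.le, Real.rpow_neg hR0.le] at key
  rw [Real.div_rpow hr.le hR0.le]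
  have h2 := mul_le_mul_of_nonneg_left key hEr.le
  rw [← mul_assoc, mul_inv_cancel₀ hEr.ne', one_mul] at h2
  refine h2.trans (le_of_eq ?_)
  ring

/-- Growth of the Dirichlet integral, in the form needed for Morrey's lemma. -/
theorem qr_growth {K : ℝ} (hK : 1 ≤ K) {U : Set ℂ} {g : ℂ → ℂ} {D : ℂ → ℂ →L[ℝ] ℂ}
    (h : Sob 2 U g D) (hQ : ∀ᵐ z ∂volume.restrict U, QR K (D z)) {x : ℂ} {ρ s₀ : ℝ}
    (hs₀ : 0 < s₀) (hb : closedBall x (ρ + s₀) ⊆ U) :
    ∀ y ∈ ball x ρ, ∀ s, 0 < s → s ≤ s₀ → ∫ z in ball y s, ‖D z‖ ^ 2 ≤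
      (Real.sqrt (K * ∫ z in ball x (ρ + s₀), -jac (D z))) ^ 2 * (s / s₀) ^ (2 * (1 / K)) := by
  intro y hy s hs hss
  have hy' : ‖y - x‖ < ρ := by rwa [← mem_ball_iff_norm]
  have hsub : closedBall y s₀ ⊆ closedBall x (ρ + s₀) := by
    refine closedBall_subset_closedBall' ?_
    rw [dist_eq_norm]; linarith
  have hsubb : ball y s₀ ⊆ ball x (ρ + s₀) := by
    refine ball_subset_ball' ?_
    rw [dist_eq_norm]; linarith
  have cK : IsCompact (closedBall x (ρ + s₀)) := isCompact_closedBall _ _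
  have hQb : ∀ᵐ z ∂volume.restrict (closedBall x (ρ + s₀)), QR K (D z) :=
    ae_restrict_of_ae_restrict_of_subset hb hQ
  have st1 : ball y s ⊆ closedBall x (ρ + s₀) :=
    (ball_subset_closedBall.trans (closedBall_subset_closedBall hss)).trans hsub
  obtain ⟨i1, i2⟩ := sob_integrable h cK hb st1
  obtain ⟨i3, i4⟩ := sob_integrable h cK hb (t := ball x (ρ + s₀)) ball_subset_closedBall
  have h1 : ∫ z in ball y s, ‖D z‖ ^ 2 ≤ K * ∫ z in ball y s, -jac (D z) := by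
    rw [← integral_const_mul]
    refine integral_mono_ae i1 (i2.const_mul K) ?_
    exact ae_restrict_of_ae_restrict_of_subset st1 hQb
  have h2 := qr_decay hK h hQ hs hss (hsub.trans hb)
  have hnn : ∀ᵐ z ∂volume.restrict (ball x (ρ + s₀)), 0 ≤ -jac (D z) := by
    filter_upwards [ae_restrict_of_ae_restrict_of_subset ball_subset_closedBall hQb] with z hz
    exact qr_jac_nonneg hK hz
  have h3 : ∫ z in ball y s₀, -jac (D z) ≤ ∫ z in ball x (ρ + s₀), -jac (D z) :=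
    setIntegral_mono_set i4 hnn hsubb.eventuallyLE
  have h4 : 0 ≤ ∫ z in ball x (ρ + s₀), -jac (D z) := integral_nonneg_of_ae hnn
  rw [Real.sq_sqrt (by positivity)]
  have e : 2 * (1 / K) = 2 / K := by ring
  rw [e]
  calc ∫ z in ball y s, ‖D z‖ ^ 2 ≤ K * ∫ z in ball y s, -jac (D z) := h1
    _ ≤ K * ((s / s₀) ^ (2 / K) * ∫ z in ball y s₀, -jac (D z)) := by gcongr
    _ ≤ K * ((s / s₀) ^ (2 / K) * ∫ z in ball x (ρ + s₀), -jac (D z)) := by gcongr
    _ = _ := by ring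

theorem qr_cont {K : ℝ} (hK : 1 ≤ K) {U : Set ℂ} (hU : IsOpen U) {g : ℂ → ℂ}
    {D : ℂ → ℂ →L[ℝ] ℂ} (h : Sob 2 U g D) (hQ : ∀ᵐ z ∂volume.restrict U, QR K (D z))
    {x : ℂ} {ρ s₀ : ℝ} (hρ : 0 < ρ) (hs₀ : 0 < s₀) (hb : closedBall x (ρ + s₀) ⊆ U) :
    ∃ g' : ℂ → ℂ, ContinuousOn g' (ball x ρ) ∧
      ∀ᵐ z ∂(volume.restrict (ball x ρ)), g z = g' z := by
  obtain ⟨C, hC, H⟩ := Pool.Agent.H80.PH.morrey (1 / K) (by positivity)
    (by rw [div_le_one (by linarith)]; exact hK)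
  obtain ⟨g', h1, h2, -, -⟩ := H U g D x ρ s₀ _ hU h hρ hs₀ (Real.sqrt_nonneg _) hb
    (qr_growth hK h hQ hs₀ hb)
  exact ⟨g', h1, h2⟩

theorem qr_holder (K : ℝ) (hK : 1 ≤ K) : ∃ C : ℝ, 0 < C ∧
    ∀ (U : Set ℂ) (g : ℂ → ℂ) (D : ℂ → ℂ →L[ℝ] ℂ) (x : ℂ) (R : ℝ), IsOpen U → Sob 2 U g D →
      ContinuousOn g U → (∀ᵐ z ∂volume.restrict U, QR K (D z)) → 0 < R → closedBall x R ⊆ U →
      ∀ y ∈ ball x (R / 2), ∀ z ∈ ball x (R / 2),
        ‖g y - g z‖ ≤ C * (‖y - z‖ / R) ^ (1 / K) * Real.sqrt (∫ z in ball x R, -jac (D z)) := by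
  obtain ⟨C, hC, H⟩ := Pool.Agent.H80.PH.morrey (1 / K) (by positivity)
    (by rw [div_le_one (by linarith)]; exact hK)
  refine ⟨2 * (C * Real.sqrt K), by positivity, ?_⟩
  intro U g D x R hU h hg hQ hR hb y hy z hz
  have hR2 : 0 < R / 2 := by positivity
  have eR : R / 2 + R / 2 = R := by ring
  obtain ⟨g', h1, h2, h3, -⟩ := H U g D x (R / 2) (R / 2) _ hU h hR2 hR2 (Real.sqrt_nonneg _)
    (by rw [eR]; exact hb) (qr_growth hK h hQ hR2 (by rw [eR]; exact hb))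
  rw [eR] at h3
  have hsub : ball x (R / 2) ⊆ U :=
    (ball_subset_closedBall.trans (closedBall_subset_closedBall (by linarith))).trans hb
  have heq : EqOn g g' (ball x (R / 2)) :=
    Measure.eqOn_open_of_ae_eq (μ := volume) h2 isOpen_ball (hg.mono hsub) h1
  -- midpoint
  have hmid : (1 / 2 : ℝ) • y + (1 / 2 : ℝ) • z ∈ ball x (R / 2) :=
    convex_ball x (R / 2) hy hz (by norm_num) (by norm_num) (by norm_num)
  set w := (1 / 2 : ℝ) • y + (1 / 2 : ℝ) • z with hw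
  have d1 : ‖y - w‖ = ‖y - z‖ / 2 := by
    have : y - w = (1 / 2 : ℝ) • (y - z) := by
      rw [hw, real_smul, real_smul, real_smul]; push_cast; ring
    rw [this, norm_smul, Real.norm_eq_abs, abs_of_pos (by norm_num)]; ring
  have d2 : ‖w - z‖ = ‖y - z‖ / 2 := by
    have : w - z = (1 / 2 : ℝ) • (y - z) := by
      rw [hw, real_smul, real_smul, real_smul]; push_cast; ring
    rw [this, norm_smul, Real.norm_eq_abs, abs_of_pos (by norm_num)]; ring
  have hyz : ‖y - z‖ ≤ R := by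
    have a1 := mem_ball_iff_norm.1 hy
    have a2 := mem_ball_iff_norm.1 hz
    have := norm_sub_le (y - x) (z - x)
    rw [sub_sub_sub_cancel_right] at this
    linarith
  have k1 := h3 y hy w hmid (by rw [d1]; linarith)
  have k2 := h3 w hmid z hz (by rw [d2]; linarith)
  rw [d1] at k1
  rw [d2] at k2
  have e3 : ‖y - z‖ / 2 / (R / 2) = ‖y - z‖ / R := by field_simp
  rw [e3] at k1 k2
  rw [heq hy, heq hz]
  have k3 : ‖g' y - g' z‖ ≤ ‖g' y - g' w‖ + ‖g' w - g' z‖ := norm_sub_le_norm_sub_add_norm_sub _ _ _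
  rw [Real.sqrt_mul (by linarith)] at k1 k2
  calc ‖g' y - g' z‖ ≤ ‖g' y - g' w‖ + ‖g' w - g' z‖ := k3
    _ ≤ _ := add_le_add k1 k2
    _ = _ := by ring

end Pool.Agent.H52.PH
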