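import Pool.Agent.H52.PH.Sob2
import Pool.Agent.H52.PH.Alg

/-! Translation estimates. -/

open MeasureTheory Set Metric Filter Topology ContDiff Complex
open scoped ENNReal

namespace Pool.Agent.H52.PH

variable {E : Type*} [NormedAddCommGroup E] [NormedSpace ℝ E]

theorem mp_translate (e : ℂ) (K2 : Set ℂ) (hK2 : MeasurableSet K2) :
    MeasurePreserving (fun z : ℂ => z + e) (volume.restrict ((fun z : ℂ => z + e) ⁻¹' K2))
      (volume.restrict K2) :=
  (measurePreserving_add_right volume e).restrict_preimage hK2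

theorem aesm_translate {X : Type*} [TopologicalSpace X] {e : ℂ} {K1 K2 : Set ℂ}
    (hK2 : MeasurableSet K2) (h : ∀ z ∈ K1, z + e ∈ K2) {f : ℂ → X}
    (hf : AEStronglyMeasurable f (volume.restrict K2)) :
    AEStronglyMeasurable (fun z => f (z + e)) (volume.restrict K1) := by
  have h1 := hf.comp_measurePreserving (mp_translate e K2 hK2)
  exact h1.mono_measure (Measure.restrict_mono (fun z hz => h z hz) le_rfl)

theorem eLpNorm_translate_le {X : Type*} [NormedAddCommGroup X] {e : ℂ} {K1 K2 : Set ℂ}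
    (hK2 : MeasurableSet K2) (h : ∀ z ∈ K1, z + e ∈ K2) {f : ℂ → X} (q : ℝ≥0∞)
    (hf : AEStronglyMeasurable f (volume.restrict K2)) :
    eLpNorm (fun z => f (z + e)) q (volume.restrict K1) ≤ eLpNorm f q (volume.restrict K2) := by
  have h1 := eLpNorm_comp_measurePreserving (p := q) hf (mp_translate e K2 hK2)
  rw [← h1]
  exact eLpNorm_mono_measure _ (Measure.restrict_mono (fun z hz => h z hz) le_rfl)

theorem memLp_translate {X : Type*} [NormedAddCommGroup X] {e : ℂ} {K1 K2 : Set ℂ}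
    (hK2 : MeasurableSet K2) (h : ∀ z ∈ K1, z + e ∈ K2) {f : ℂ → X} {q : ℝ≥0∞}
    (hf : MemLp f q (volume.restrict K2)) :
    MemLp (fun z => f (z + e)) q (volume.restrict K1) :=
  ⟨aesm_translate hK2 h hf.aestronglyMeasurable,
    (eLpNorm_translate_le hK2 h q hf.aestronglyMeasurable).trans_lt hf.eLpNorm_lt_top⟩

theorem lintegral_translate_le {e : ℂ} {K1 K2 : Set ℂ}
    (hK2 : MeasurableSet K2) (h : ∀ z ∈ K1, z + e ∈ K2) {f : ℂ → ℝ≥0∞}
    (hf : AEMeasurable f (volume.restrict K2)) :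
    ∫⁻ z in K1, f (z + e) ≤ ∫⁻ z in K2, f z := by
  have h1 := lintegral_map' (μ := volume.restrict ((fun z : ℂ => z + e) ⁻¹' K2))
    (g := fun z => z + e) (f := f) (by rw [(mp_translate e K2 hK2).map_eq]; exact hf)
    (mp_translate e K2 hK2).measurable.aemeasurable
  rw [(mp_translate e K2 hK2).map_eq] at h1
  rw [h1]
  exact lintegral_mono' (Measure.restrict_mono (fun z hz => h z hz) le_rfl) le_rfl

theorem eLpNorm_ofReal_rpow {X : Type*} [NormedAddCommGroup X] {p : ℝ} (hp : 1 ≤ p) (f : ℂ → X)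
    (μ : Measure ℂ) :
    eLpNorm f (ENNReal.ofReal p) μ ^ p = ∫⁻ z, ‖f z‖ₑ ^ p ∂μ := by
  rw [eLpNorm_eq_lintegral_rpow_enorm_toReal (by simp; linarith) ENNReal.ofReal_ne_top]
  rw [ENNReal.toReal_ofReal (by linarith), ← ENNReal.rpow_mul]
  simp [(by linarith : p ≠ 0)]

theorem lintegral_jensen {p : ℝ} (hp : 1 ≤ p) {f : ℝ → ℝ≥0∞} (hf : AEMeasurable f
    (volume.restrict (Ioc (0 : ℝ) 1))) :
    (∫⁻ t in Ioc (0 : ℝ) 1, f t) ^ p ≤ ∫⁻ t in Ioc (0 : ℝ) 1, f t ^ p := by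
  have : IsProbabilityMeasure (volume.restrict (Ioc (0 : ℝ) 1)) := ⟨by simp⟩
  rcases eq_or_lt_of_le hp with h1 | h1
  · rw [← h1]; simp
  · have h2 := ENNReal.lintegral_mul_le_Lp_mul_Lq (volume.restrict (Ioc (0 : ℝ) 1))
      (Real.HolderConjugate.conjExponent h1) (f := f) (g := fun _ => 1) hf aemeasurable_const
    simp only [Pi.mul_apply, mul_one, ENNReal.one_rpow, lintegral_const, measure_univ,
      ENNReal.one_rpow] at h2
    calc (∫⁻ t in Ioc (0 : ℝ) 1, f t) ^ p ≤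
        ((∫⁻ t in Ioc (0 : ℝ) 1, f t ^ p) ^ (1 / p)) ^ p :=
          ENNReal.rpow_le_rpow h2 (by linarith)
      _ = _ := by
          rw [← ENNReal.rpow_mul]
          simp [(by linarith : p ≠ 0)]

/-- Translation estimate for smooth functions. -/
theorem translation_smooth [CompleteSpace E] {p : ℝ} (hp : 1 ≤ p) {φ : ℂ → E} (hφ : ContDiff ℝ ∞ φ) {e : ℂ}
    {K1 K2 : Set ℂ} (hK1 : MeasurableSet K1) (hK2 : MeasurableSet K2)
    (h : ∀ z ∈ K1, ∀ t ∈ Ioc (0 : ℝ) 1, z + t • e ∈ K2) :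
    ∫⁻ z in K1, ‖φ (z + e) - φ z‖ₑ ^ p ≤ ‖e‖ₑ ^ p * ∫⁻ z in K2, ‖fderiv ℝ φ z‖ₑ ^ p := by
  have hφ' : Continuous (fderiv ℝ φ) := hφ.continuous_fderiv (by simp)
  have hφd := hφ.differentiable (by simp)
  have h1 : ∀ z, ‖φ (z + e) - φ z‖ₑ ^ p ≤
      ‖e‖ₑ ^ p * ∫⁻ t in Ioc (0 : ℝ) 1, ‖fderiv ℝ φ (z + t • e)‖ₑ ^ p := by
    intro z
    have hd : ∀ t ∈ uIcc (0 : ℝ) 1, HasDerivAt (fun t : ℝ => φ (z + t • e))
        (fderiv ℝ φ (z + t • e) e) t := by
      intro t _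
      have a1 : HasDerivAt (fun t : ℝ => z + t • e) e t := by
        have := ((hasDerivAt_id t).smul_const e).const_add z
        simpa using this
      exact (hφd _).hasFDerivAt.comp_hasDerivAt t a1
    have hcont : Continuous fun t : ℝ => fderiv ℝ φ (z + t • e) e := by
      refine (hφ'.comp ?_).clm_apply continuous_const
      fun_prop
    have ftc : ∫ t in (0 : ℝ)..1, fderiv ℝ φ (z + t • e) e = φ (z + e) - φ z := by
      have := intervalIntegral.integral_eq_sub_of_hasDerivAt hd (hcont.intervalIntegrable _ _)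
      simpa using this
    rw [← ftc, intervalIntegral.integral_of_le zero_le_one]
    have b1 : ‖∫ t in Ioc (0 : ℝ) 1, fderiv ℝ φ (z + t • e) e‖ₑ ≤
        ∫⁻ t in Ioc (0 : ℝ) 1, ‖e‖ₑ * ‖fderiv ℝ φ (z + t • e)‖ₑ := by
      refine (enorm_integral_le_lintegral_enorm _).trans (lintegral_mono fun t => ?_)
      rw [mul_comm]
      exact ContinuousLinearMap.le_opENorm _ _
    have hmeas : AEMeasurable (fun t : ℝ => ‖fderiv ℝ φ (z + t • e)‖ₑ)
        (volume.restrict (Ioc (0 : ℝ) 1)) := by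
      have : Continuous fun t : ℝ => ‖fderiv ℝ φ (z + t • e)‖ₑ := by
        refine continuous_enorm.comp (hφ'.comp ?_)
        fun_prop
      exact this.aemeasurable
    rw [lintegral_const_mul' _ _ enorm_ne_top] at b1
    calc _ ≤ (‖e‖ₑ * ∫⁻ t in Ioc (0 : ℝ) 1, ‖fderiv ℝ φ (z + t • e)‖ₑ) ^ p :=
          ENNReal.rpow_le_rpow b1 (by linarith)
      _ = ‖e‖ₑ ^ p * (∫⁻ t in Ioc (0 : ℝ) 1, ‖fderiv ℝ φ (z + t • e)‖ₑ) ^ p :=
          ENNReal.mul_rpow_of_nonneg _ _ (by linarith)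
      _ ≤ _ := mul_le_mul_right (lintegral_jensen hp hmeas) _
  calc ∫⁻ z in K1, ‖φ (z + e) - φ z‖ₑ ^ p
      ≤ ∫⁻ z in K1, ‖e‖ₑ ^ p * ∫⁻ t in Ioc (0 : ℝ) 1, ‖fderiv ℝ φ (z + t • e)‖ₑ ^ p :=
        lintegral_mono fun z => h1 z
    _ = ‖e‖ₑ ^ p * ∫⁻ z in K1, ∫⁻ t in Ioc (0 : ℝ) 1, ‖fderiv ℝ φ (z + t • e)‖ₑ ^ p :=
        lintegral_const_mul' _ _ (ENNReal.rpow_ne_top_of_nonneg (by linarith) enorm_ne_top)
    _ = ‖e‖ₑ ^ p * ∫⁻ t in Ioc (0 : ℝ) 1, ∫⁻ z in K1, ‖fderiv ℝ φ (z + t • e)‖ₑ ^ p := by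
        congr 1
        refine lintegral_lintegral_swap ?_
        have : Continuous (Function.uncurry fun (z : ℂ) (t : ℝ) =>
            ‖fderiv ℝ φ (z + t • e)‖ₑ ^ p) := by
          refine ENNReal.continuous_rpow_const.comp (continuous_enorm.comp (hφ'.comp ?_))
          fun_prop
        exact this.aemeasurable
    _ ≤ ‖e‖ₑ ^ p * ∫⁻ t in Ioc (0 : ℝ) 1, ∫⁻ z in K2, ‖fderiv ℝ φ z‖ₑ ^ p := by
        refine mul_le_mul_right ?_ _
        refine setLIntegral_mono' measurableSet_Ioc fun t ht => ?_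
        refine lintegral_translate_le (f := fun z => ‖fderiv ℝ φ z‖ₑ ^ p) hK2
          (fun z hz => h z hz t ht) ?_
        exact (ENNReal.continuous_rpow_const.comp (continuous_enorm.comp hφ')).aemeasurable
    _ = _ := by simp

theorem translation_smooth' [CompleteSpace E] {p : ℝ} (hp : 1 ≤ p) {φ : ℂ → E}
    (hφ : ContDiff ℝ ∞ φ) {e : ℂ}
    {K1 K2 : Set ℂ} (hK1 : MeasurableSet K1) (hK2 : MeasurableSet K2)
    (h : ∀ z ∈ K1, ∀ t ∈ Icc (0 : ℝ) 1, z + t • e ∈ K2) :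
    eLpNorm (fun z => φ (z + e) - φ z) (ENNReal.ofReal p) (volume.restrict K1) ≤
      ‖e‖ₑ * eLpNorm (fderiv ℝ φ) (ENNReal.ofReal p) (volume.restrict K2) := by
  have hp0 : 0 < p := by linarith
  have h1 := translation_smooth hp hφ hK1 hK2 fun z hz t ht => h z hz t ⟨ht.1.le, ht.2⟩
  rw [← eLpNorm_ofReal_rpow hp, ← eLpNorm_ofReal_rpow hp, ← ENNReal.mul_rpow_of_nonneg _ _ hp0.le]
    at h1
  exact (ENNReal.rpow_le_rpow_iff hp0).1 h1

theorem eLpNorm_tri {X : Type*} [NormedAddCommGroup X] {μ : Measure ℂ} {q : ℝ≥0∞} (hq : 1 ≤ q)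
    {f g : ℂ → X} (hf : AEStronglyMeasurable f μ) (hg : AEStronglyMeasurable g μ) :
    eLpNorm (fun z => f z + g z) q μ ≤ eLpNorm f q μ + eLpNorm g q μ := eLpNorm_add_le hf hg hq

theorem eLpNorm_tri_sub {X : Type*} [NormedAddCommGroup X] {μ : Measure ℂ} {q : ℝ≥0∞} (hq : 1 ≤ q)
    {f g : ℂ → X} (hf : AEStronglyMeasurable f μ) (hg : AEStronglyMeasurable g μ) :
    eLpNorm (fun z => f z - g z) q μ ≤ eLpNorm f q μ + eLpNorm g q μ := eLpNorm_sub_le hf hg hq

theorem eLpNorm_le_sub_add {X : Type*} [NormedAddCommGroup X] {μ : Measure ℂ} {q : ℝ≥0∞}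
    (hq : 1 ≤ q)
    {f g : ℂ → X} (hf : AEStronglyMeasurable f μ) (hg : AEStronglyMeasurable g μ) :
    eLpNorm f q μ ≤ eLpNorm (fun z => f z - g z) q μ + eLpNorm g q μ := by
  have e : f = fun z => (f z - g z) + g z := by funext z; simp
  calc eLpNorm f q μ = eLpNorm (fun z => (f z - g z) + g z) q μ := by rw [← e]
    _ ≤ _ := eLpNorm_tri hq (hf.sub hg) hg

/-- Translation estimate for Sobolev functions. -/
theorem translation_sob [CompleteSpace E] {p : ℝ} (hp : 1 ≤ p) {U : Set ℂ} {g : ℂ → E}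
    {D : ℂ → ℂ →L[ℝ] E} (hs : Sob (ENNReal.ofReal p) U g D) {e : ℂ}
    {K1 K2 : Set ℂ} (hK1 : MeasurableSet K1) (hK2 : IsCompact K2) (hK2U : K2 ⊆ U)
    (h : ∀ z ∈ K1, ∀ t ∈ Icc (0 : ℝ) 1, z + t • e ∈ K2) :
    eLpNorm (fun z => g (z + e) - g z) (ENNReal.ofReal p) (volume.restrict K1) ≤
      ‖e‖ₑ * eLpNorm D (ENNReal.ofReal p) (volume.restrict K2) := by
  obtain ⟨φ, hφ, h1, h2⟩ := hs.approx K2 hK2U hK2
  have hq : (1 : ℝ≥0∞) ≤ ENNReal.ofReal p := by
    rw [← ENNReal.ofReal_one]; exact ENNReal.ofReal_le_ofReal hp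
  have hK12 : K1 ⊆ K2 := fun z hz => by simpa using h z hz 0 (by simp)
  have hK12' : ∀ z ∈ K1, z + e ∈ K2 := fun z hz => by simpa using h z hz 1 (by simp)
  have hK2m := hK2.measurableSet
  have mg := (hs.memLp hK2U hK2).aestronglyMeasurable
  have mD := (hs.memLpD hK2U hK2).aestronglyMeasurable
  have mφ : ∀ n, AEStronglyMeasurable (fun z => φ n z - g z) (volume.restrict K2) :=
    fun n => (hφ n).continuous.aestronglyMeasurable.sub mg
  have mφ1 : ∀ n, AEStronglyMeasurable (fun z => φ n z - g z) (volume.restrict K1) :=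
    fun n => (mφ n).mono_measure (Measure.restrict_mono hK12 le_rfl)
  have mφ2 : ∀ n, AEStronglyMeasurable (fun z => φ n (z + e) - g (z + e)) (volume.restrict K1) :=
    fun n => aesm_translate (f := fun z => φ n z - g z) hK2m hK12' (mφ n)
  have m3 : ∀ n, AEStronglyMeasurable (fun z => φ n (z + e) - φ n z) (volume.restrict K1) :=
    fun n => (((hφ n).continuous.comp (continuous_id.add continuous_const)).sub
      (hφ n).continuous).aestronglyMeasurable
  have hb : ∀ n, eLpNorm (fun z => g (z + e) - g z) (ENNReal.ofReal p) (volume.restrict K1) ≤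
      ‖e‖ₑ * (eLpNorm (fun z => fderiv ℝ (φ n) z - D z) (ENNReal.ofReal p) (volume.restrict K2) +
        eLpNorm D (ENNReal.ofReal p) (volume.restrict K2)) +
      (eLpNorm (fun z => φ n z - g z) (ENNReal.ofReal p) (volume.restrict K2) +
       eLpNorm (fun z => φ n z - g z) (ENNReal.ofReal p) (volume.restrict K2)) := by
    intro n
    have e1 : (fun z => g (z + e) - g z) = fun z => (φ n (z + e) - φ n z) +
        ((φ n z - g z) - (φ n (z + e) - g (z + e))) := by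
      funext z
      abel
    have k1 := eLpNorm_tri hq (m3 n) ((mφ1 n).sub (mφ2 n))
    have k2 := translation_smooth' hp (hφ n) hK1 hK2m h
    have k3 := eLpNorm_le_sub_add hq
      ((hφ n).continuous_fderiv (by simp)).aestronglyMeasurable (μ := volume.restrict K2) mD
    have k4 := eLpNorm_tri_sub hq (mφ1 n) (mφ2 n)
    have k5 : eLpNorm (fun z => φ n z - g z) (ENNReal.ofReal p) (volume.restrict K1) ≤
        eLpNorm (fun z => φ n z - g z) (ENNReal.ofReal p) (volume.restrict K2) :=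
      eLpNorm_mono_measure _ (Measure.restrict_mono hK12 le_rfl)
    have k6 := eLpNorm_translate_le (f := fun z => φ n z - g z) hK2m hK12'
      (ENNReal.ofReal p) (mφ n)
    rw [e1]
    refine k1.trans (add_le_add (k2.trans (mul_le_mul_right k3 _)) ?_)
    exact k4.trans (add_le_add k5 k6)
  have lim : Tendsto (fun n => ‖e‖ₑ * (eLpNorm (fun z => fderiv ℝ (φ n) z - D z)
        (ENNReal.ofReal p) (volume.restrict K2) +
        eLpNorm D (ENNReal.ofReal p) (volume.restrict K2)) +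
      (eLpNorm (fun z => φ n z - g z) (ENNReal.ofReal p) (volume.restrict K2) +
       eLpNorm (fun z => φ n z - g z) (ENNReal.ofReal p) (volume.restrict K2))) atTop
      (𝓝 (‖e‖ₑ * (0 + eLpNorm D (ENNReal.ofReal p) (volume.restrict K2)) + (0 + 0))) :=
    (ENNReal.Tendsto.const_mul (h2.add tendsto_const_nhds) (Or.inr enorm_ne_top)).add (h1.add h1)
  have := ge_of_tendsto' lim hb
  simpa using this

end Pool.Agent.H52.PH
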