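import Pool.Agent.H52.PH.QRD
import Pool.Agent.H52.PH.Trans

/-! Caccioppoli's inequality and the `L¹`-`L^∞` bound for quasiregular maps. -/

open MeasureTheory Set Metric Filter Topology ContDiff Complex
open scoped ENNReal

namespace Pool.Agent.H52.PH

/-- Caccioppoli identity for smooth maps, as an inequality. -/
theorem cacc_smooth {φ : ℂ → ℂ} (hφ : ContDiff ℝ ∞ φ) {η : ℂ → ℝ} (hη : ContDiff ℝ ∞ η)
    (hc : HasCompactSupport η) (c : ℂ) :
    |∫ z, η z ^ 2 * jac (fderiv ℝ φ z)| ≤
      ∫ z, (4 * |η z| * ‖fderiv ℝ η z‖) * (‖φ z - c‖ * ‖fderiv ℝ φ z‖) := by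
  have hη2 : ContDiff ℝ ∞ (fun z => η z ^ 2) := hη.pow 2
  have hc2 : HasCompactSupport (fun z => η z ^ 2) := by
    have : (fun z => η z ^ 2) = fun z => η z * η z := by funext z; ring
    rw [this]; exact hc.mul_left
  -- real and imaginary parts
  obtain ⟨a, ha⟩ : ∃ a : ℂ → ℝ, a = fun z => (φ z).re - c.re := ⟨_, rfl⟩
  obtain ⟨b, hb⟩ : ∃ b : ℂ → ℝ, b = fun z => (φ z).im := ⟨_, rfl⟩
  have has : ContDiff ℝ ∞ a := by
    rw [ha]; exact (reCLM.contDiff.comp hφ).sub contDiff_const
  have hbs : ContDiff ℝ ∞ b := by rw [hb]; exact imCLM.contDiff.comp hφ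
  have hφd : ∀ z, HasFDerivAt φ (fderiv ℝ φ z) z := fun z =>
    ((hφ.differentiable (by simp)) z).hasFDerivAt
  have hda : ∀ z v, fderiv ℝ a z v = (fderiv ℝ φ z v).re := by
    intro z v
    have h1 : HasFDerivAt a (reCLM.comp (fderiv ℝ φ z)) z := by
      rw [ha]; exact (reCLM.hasFDerivAt.comp z (hφd z)).sub_const c.re
    rw [h1.fderiv]; rfl
  have hdb : ∀ z v, fderiv ℝ b z v = (fderiv ℝ φ z v).im := by
    intro z v
    have h1 : HasFDerivAt b (imCLM.comp (fderiv ℝ φ z)) z := by
      rw [hb]; exact imCLM.hasFDerivAt.comp z (hφd z)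
    rw [h1.fderiv]; rfl
  have hb' : ContDiff ℝ ∞ (fderiv ℝ b) := hbs.fderiv_right (by simp)
  have hbv : ∀ v, ContDiff ℝ ∞ (fun z => fderiv ℝ b z v) := fun v => hb'.clm_apply contDiff_const
  -- the two products
  have P1 := smooth_ibp hη2 hc2 (has.mul (hbv I)) 1
  have P2 := smooth_ibp hη2 hc2 (has.mul (hbv 1)) I
  have dη2 : ∀ z v, fderiv ℝ (fun z => η z ^ 2) z v = 2 * η z * fderiv ℝ η z v := by
    intro z v
    have h1 : HasFDerivAt η (fderiv ℝ η z) z := ((hη.differentiable (by simp)) z).hasFDerivAt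
    have h2 : HasFDerivAt (fun z => η z ^ 2) _ z := h1.pow 2
    rw [h2.fderiv]
    simp only [smul_apply, smul_eq_mul, nsmul_eq_mul]
    norm_num
  have dprod : ∀ (w v z : ℂ), fderiv ℝ (a * fun z => fderiv ℝ b z w) z v =
      fderiv ℝ a z v * fderiv ℝ b z w + a z * fderiv ℝ (fun z => fderiv ℝ b z w) z v := by
    intro w v z
    have h1 : HasFDerivAt a (fderiv ℝ a z) z := ((has.differentiable (by simp)) z).hasFDerivAt
    have h2 : HasFDerivAt (fun z => fderiv ℝ b z w) (fderiv ℝ (fun z => fderiv ℝ b z w) z) z :=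
      (((hbv w).differentiable (by simp)) z).hasFDerivAt
    rw [(h1.mul h2).fderiv]
    simp only [add_apply, smul_apply, smul_eq_mul]
    ring
  have sym : ∀ z, fderiv ℝ (fun z => fderiv ℝ b z I) z 1 =
      fderiv ℝ (fun z => fderiv ℝ b z 1) z I := by
    intro z
    have d : DifferentiableAt ℝ (fderiv ℝ b) z := (hb'.differentiable (by simp)) z
    have e1 : ∀ v w : ℂ, fderiv ℝ (fun z => fderiv ℝ b z v) z w = fderiv ℝ (fderiv ℝ b) z w v := by
      intro v w
      rw [fderiv_clm_apply d (differentiableAt_const _)]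
      simp
    rw [e1, e1]
    have s : IsSymmSndFDerivAt ℝ b z := (hbs.contDiffAt).isSymmSndFDerivAt (by
      simp only [minSmoothness_of_isRCLikeNormedField]
      exact ENat.LEInfty.out)
    exact s.eq 1 I
  -- integrability
  have ci : ∀ f : ℂ → ℝ, Continuous f → Integrable (fun z => η z ^ 2 * f z) := by
    intro f hf
    exact (hη2.continuous.mul hf).integrable_of_hasCompactSupport hc2.mul_right
  have hη' : Continuous (fderiv ℝ η) := hη.continuous_fderiv (by simp)
  have hφ' : Continuous (fderiv ℝ φ) := hφ.continuous_fderiv (by simp)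
  have cv : ∀ v : ℂ, Continuous fun z => fderiv ℝ η z v := fun v =>
    hη'.clm_apply continuous_const
  have cj : ∀ f : ℂ → ℝ, Continuous f → Integrable (fun z => η z * f z) := by
    intro f hf
    exact (hη.continuous.mul hf).integrable_of_hasCompactSupport hc.mul_right
  have cbv : ∀ v : ℂ, Continuous fun z => fderiv ℝ b z v := fun v => (hbv v).continuous
  have cdbv : ∀ v w : ℂ, Continuous fun z => fderiv ℝ (a * fun z => fderiv ℝ b z w) z v := by
    intro v w
    have : ContDiff ℝ ∞ (a * fun z => fderiv ℝ b z w) := has.mul (hbv w)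
    exact (this.continuous_fderiv (by simp)).clm_apply continuous_const
  -- the identity
  have key : ∫ z, η z ^ 2 * jac (fderiv ℝ φ z) =
      -∫ z, η z * (2 * (a z * (fderiv ℝ η z 1 * fderiv ℝ b z I -
        fderiv ℝ η z I * fderiv ℝ b z 1))) := by
    have e1 : ∀ z, η z ^ 2 * jac (fderiv ℝ φ z) =
        η z ^ 2 * fderiv ℝ (a * fun z => fderiv ℝ b z I) z 1 -
        η z ^ 2 * fderiv ℝ (a * fun z => fderiv ℝ b z 1) z I := by
      intro z
      rw [dprod, dprod, sym]
      simp only [jac, hda, hdb]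
      ring
    rw [integral_congr_ae (Eventually.of_forall e1), integral_sub (ci _ (cdbv _ _))
      (ci _ (cdbv _ _))]
    simp only [smul_eq_mul, dη2] at P1 P2
    have Q1 : ∫ z, η z ^ 2 * fderiv ℝ (a * fun z => fderiv ℝ b z I) z 1 =
        -∫ z, 2 * η z * fderiv ℝ η z 1 * (a z * fderiv ℝ b z I) := by
      rw [P1, neg_neg]; rfl
    have Q2 : ∫ z, η z ^ 2 * fderiv ℝ (a * fun z => fderiv ℝ b z 1) z I =
        -∫ z, 2 * η z * fderiv ℝ η z I * (a z * fderiv ℝ b z 1) := by
      rw [P2, neg_neg]; rfl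
    rw [Q1, Q2]
    have e2 : ∀ z, η z * (2 * (a z * (fderiv ℝ η z 1 * fderiv ℝ b z I -
        fderiv ℝ η z I * fderiv ℝ b z 1))) =
        2 * η z * fderiv ℝ η z 1 * (a z * fderiv ℝ b z I) -
        2 * η z * fderiv ℝ η z I * (a z * fderiv ℝ b z 1) := by
      intro z; ring
    have i1 : Integrable (fun z => 2 * η z * fderiv ℝ η z 1 * (a z * fderiv ℝ b z I)) := by
      refine (cj (fun z => 2 * fderiv ℝ η z 1 * (a z * fderiv ℝ b z I)) ?_).congr
        (Eventually.of_forall fun z => by ring)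
      exact (continuous_const.mul (cv 1)).mul (has.continuous.mul (cbv I))
    have i2 : Integrable (fun z => 2 * η z * fderiv ℝ η z I * (a z * fderiv ℝ b z 1)) := by
      refine (cj (fun z => 2 * fderiv ℝ η z I * (a z * fderiv ℝ b z 1)) ?_).congr
        (Eventually.of_forall fun z => by ring)
      exact (continuous_const.mul (cv I)).mul (has.continuous.mul (cbv 1))
    rw [integral_congr_ae (Eventually.of_forall e2), integral_sub i1 i2]
    ring
  rw [key, abs_neg]
  refine (abs_integral_le_integral_abs).trans ?_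
  refine integral_mono_of_nonneg (Eventually.of_forall fun z => abs_nonneg _) ?_
    (Eventually.of_forall fun z => ?_)
  · have c1 : Continuous fun z => (4 * |η z| * ‖fderiv ℝ η z‖) * (‖φ z - c‖ * ‖fderiv ℝ φ z‖) :=
      ((continuous_const.mul hη.continuous.abs).mul hη'.norm).mul
        (((hφ.continuous.sub continuous_const).norm).mul hφ'.norm)
    refine c1.integrable_of_hasCompactSupport ?_
    refine hc.mono' (fun z hz => ?_)
    by_contra h
    have : η z = 0 := by
      by_contra h0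
      exact h (subset_closure h0)
    apply hz
    simp [this]
  · have h1 : |a z| ≤ ‖φ z - c‖ := by
      have := abs_re_le_norm (φ z - c)
      rw [sub_re] at this
      rw [ha]; exact this
    have h2 : ∀ v : ℂ, ‖v‖ = 1 → |fderiv ℝ b z v| ≤ ‖fderiv ℝ φ z‖ := by
      intro v hv
      rw [hdb]
      refine (abs_im_le_norm _).trans ?_
      have := (fderiv ℝ φ z).le_opNorm v
      rwa [hv, mul_one] at this
    have h3 : ∀ v : ℂ, ‖v‖ = 1 → |fderiv ℝ η z v| ≤ ‖fderiv ℝ η z‖ := by
      intro v hv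
      have := (fderiv ℝ η z).le_opNorm v
      rwa [hv, mul_one, Real.norm_eq_abs] at this
    have h4 : |fderiv ℝ η z 1 * fderiv ℝ b z I - fderiv ℝ η z I * fderiv ℝ b z 1| ≤
        2 * (‖fderiv ℝ η z‖ * ‖fderiv ℝ φ z‖) := by
      refine (abs_sub _ _).trans ?_
      rw [abs_mul, abs_mul]
      have a1 := mul_le_mul (h3 1 norm_one) (h2 I norm_I) (abs_nonneg _) (norm_nonneg _)
      have a2 := mul_le_mul (h3 I norm_I) (h2 1 norm_one) (abs_nonneg _) (norm_nonneg _)
      linarith
    calc |η z * (2 * (a z * (fderiv ℝ η z 1 * fderiv ℝ b z I -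
          fderiv ℝ η z I * fderiv ℝ b z 1)))|
        = |η z| * (2 * (|a z| * |fderiv ℝ η z 1 * fderiv ℝ b z I -
          fderiv ℝ η z I * fderiv ℝ b z 1|)) := by
          rw [abs_mul, abs_mul, abs_mul, abs_two]
      _ ≤ |η z| * (2 * (‖φ z - c‖ * (2 * (‖fderiv ℝ η z‖ * ‖fderiv ℝ φ z‖)))) := by gcongr
      _ = _ := by ring

end Pool.Agent.H52.PH
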