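import Pool.Agent.H52.PH.QRE

/-! Caccioppoli's inequality for quasiregular maps. -/

open MeasureTheory Set Metric Filter Topology ContDiff Complex
open scoped ENNReal

namespace Pool.Agent.H52.PH

/-- The Jacobian as a bilinear form. -/
theorem exists_jac_bilin : ∃ B : (ℂ →L[ℝ] ℂ) →L[ℝ] (ℂ →L[ℝ] ℂ) →L[ℝ] ℝ,
    (∀ L, B L L = jac L) := by
  obtain ⟨a, ha⟩ : ∃ a : ℂ → (ℂ →L[ℝ] ℂ) →L[ℝ] ℝ, ∀ v L, a v L = (L v).re :=
    ⟨fun v => reCLM.comp (ContinuousLinearMap.apply ℝ ℂ v), fun v L => rfl⟩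
  obtain ⟨b, hb⟩ : ∃ b : ℂ → (ℂ →L[ℝ] ℂ) →L[ℝ] ℝ, ∀ v L, b v L = (L v).im :=
    ⟨fun v => imCLM.comp (ContinuousLinearMap.apply ℝ ℂ v), fun v L => rfl⟩
  refine ⟨(ContinuousLinearMap.mul ℝ ℝ).bilinearComp (a 1) (b I) -
    (ContinuousLinearMap.mul ℝ ℝ).bilinearComp (b 1) (a I), fun L => ?_⟩
  change a 1 L * b I L - b 1 L * a I L = _
  rw [ha, hb, ha, hb, jac]

theorem tendsto_weight {X : Type*} [NormedAddCommGroup X] [NormedSpace ℝ X] {K : Set ℂ}
    (hK : IsCompact K) {q : ℝ≥0∞} {w : ℂ → ℝ} (hw : Continuous w) {u : ℂ → X} {φ : ℕ → ℂ → X}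
    (h : Tendsto (fun n => eLpNorm (fun z => φ n z - u z) q (volume.restrict K)) atTop (𝓝 0)) :
    Tendsto (fun n => eLpNorm (fun z => w z • φ n z - w z • u z) q (volume.restrict K)) atTop
      (𝓝 0) := by
  obtain ⟨C, hC⟩ := hK.exists_bound_of_continuousOn hw.continuousOn
  have hle : ∀ n, eLpNorm (fun z => w z • φ n z - w z • u z) q (volume.restrict K) ≤
      ENNReal.ofReal C * eLpNorm (fun z => φ n z - u z) q (volume.restrict K) := by
    intro n
    refine eLpNorm_le_mul_eLpNorm_of_ae_le_mul ?_ _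
    rw [ae_restrict_iff' hK.measurableSet]
    refine Eventually.of_forall fun z hz => ?_
    rw [← smul_sub, norm_smul]
    exact mul_le_mul_of_nonneg_right (hC z hz) (norm_nonneg _)
  have lim := ENNReal.Tendsto.const_mul (a := ENNReal.ofReal C) h (Or.inr ENNReal.ofReal_ne_top)
  rw [mul_zero] at lim
  exact tendsto_of_tendsto_of_tendsto_of_le_of_le tendsto_const_nhds lim (fun _ => bot_le) hle

theorem memLp_weight {X : Type*} [NormedAddCommGroup X] [NormedSpace ℝ X] {K : Set ℂ}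
    (hK : IsCompact K) {q : ℝ≥0∞} {w : ℂ → ℝ} (hw : Continuous w) {u : ℂ → X}
    (hu : MemLp u q (volume.restrict K)) :
    MemLp (fun z => w z • u z) q (volume.restrict K) := by
  obtain ⟨C, hC⟩ := hK.exists_bound_of_continuousOn hw.continuousOn
  refine ⟨hw.aestronglyMeasurable.smul hu.aestronglyMeasurable, ?_⟩
  refine lt_of_le_of_lt (eLpNorm_le_mul_eLpNorm_of_ae_le_mul (c := C) (g := u) ?_ q)
    (ENNReal.mul_lt_top ENNReal.ofReal_lt_top hu.eLpNorm_lt_top)
  rw [ae_restrict_iff' hK.measurableSet]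
  refine Eventually.of_forall fun z hz => ?_
  rw [norm_smul]
  exact mul_le_mul_of_nonneg_right (hC z hz) (norm_nonneg _)

/-- Caccioppoli inequality for Sobolev maps. -/
theorem cacc_sob {U : Set ℂ} {g : ℂ → ℂ} {D : ℂ → ℂ →L[ℝ] ℂ} (h : Sob 2 U g D) {K : Set ℂ}
    (hK : IsCompact K) (hKU : K ⊆ U) {η : ℂ → ℝ} (hη : ContDiff ℝ ∞ η) (hηK : tsupport η ⊆ K)
    (c : ℂ) :
    |∫ z in K, η z ^ 2 * jac (D z)| ≤
      ∫ z in K, (4 * |η z| * ‖fderiv ℝ η z‖) * (‖g z - c‖ * ‖D z‖) := by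
  obtain ⟨φ, hφ, h1, h2⟩ := h.approx K hKU hK
  obtain ⟨B, hB⟩ := exists_jac_bilin
  have hc : HasCompactSupport η := hK.of_isClosed_subset (isClosed_tsupport η) hηK
  have hη' : Continuous (fderiv ℝ η) := hη.continuous_fderiv (by simp)
  have mD := h.memLpD hKU hK
  have mg := h.memLp hKU hK
  have mDn : ∀ n, MemLp (fderiv ℝ (φ n)) 2 (volume.restrict K) := fun n =>
    memLp_continuous ((hφ n).continuous_fderiv (by simp)) hK _
  have mgn : ∀ n, MemLp (φ n) 2 (volume.restrict K) := fun n =>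
    memLp_continuous (hφ n).continuous hK _
  have w1 : Continuous fun z => η z ^ 2 := hη.continuous.pow 2
  have w2 : Continuous fun z => 4 * |η z| * ‖fderiv ℝ η z‖ :=
    (continuous_const.mul hη.continuous.abs).mul hη'.norm
  have fc : IsFiniteMeasure (volume.restrict K) := ⟨by simpa using hK.measure_lt_top⟩
  -- left side
  have L := tendsto_integral_bilin B (memLp_weight hK w1 mD)
    (fun n => memLp_weight hK w1 (mDn n)) (tendsto_weight hK w1 h2) mD mDn h2
  -- right side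
  have n1 : Tendsto (fun n => eLpNorm (fun z => ‖φ n z - c‖ - ‖g z - c‖) 2 (volume.restrict K))
      atTop (𝓝 0) := by
    refine tendsto_eLpNorm_lipschitz (Φ := fun x : ℂ => ‖x - c‖) (L := 1) (fun x y => ?_) h1
    rw [one_mul, Real.norm_eq_abs]
    have := abs_norm_sub_norm_le (x - c) (y - c)
    rwa [sub_sub_sub_cancel_right] at this
  have n2 : Tendsto (fun n => eLpNorm (fun z => ‖fderiv ℝ (φ n) z‖ - ‖D z‖) 2
      (volume.restrict K)) atTop (𝓝 0) := by
    refine tendsto_eLpNorm_lipschitz (Φ := fun x : ℂ →L[ℝ] ℂ => ‖x‖) (L := 1) (fun x y => ?_) h2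
    rw [one_mul, Real.norm_eq_abs]
    exact abs_norm_sub_norm_le x y
  have mconst : MemLp (fun _ : ℂ => c) 2 (volume.restrict K) := memLp_const c
  have m1 : MemLp (fun z => ‖g z - c‖) 2 (volume.restrict K) := (mg.sub mconst).norm
  have m1n : ∀ n, MemLp (fun z => ‖φ n z - c‖) 2 (volume.restrict K) := fun n =>
    ((mgn n).sub mconst).norm
  have R := tendsto_integral_bilin (ContinuousLinearMap.mul ℝ ℝ) (memLp_weight hK w2 m1)
    (fun n => memLp_weight hK w2 (m1n n)) (tendsto_weight hK w2 n1) mD.norm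
    (fun n => (mDn n).norm) n2
  have E1 : ∀ (D' : ℂ → ℂ →L[ℝ] ℂ), (fun z => B (η z ^ 2 • D' z) (D' z)) =
      fun z => η z ^ 2 * jac (D' z) := by
    intro D'; funext z
    rw [map_smul, smul_apply, hB, smul_eq_mul]
  have E2 : ∀ (g' : ℂ → ℂ) (D' : ℂ → ℂ →L[ℝ] ℂ),
      (fun z => (ContinuousLinearMap.mul ℝ ℝ) ((4 * |η z| * ‖fderiv ℝ η z‖) • ‖g' z - c‖)
        ‖D' z‖) =
      fun z => (4 * |η z| * ‖fderiv ℝ η z‖) * (‖g' z - c‖ * ‖D' z‖) := by
    intro g' D'; funext z
    simp only [ContinuousLinearMap.mul_apply', smul_eq_mul]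
    ring
  simp_rw [E1] at L
  simp_rw [E2] at R
  refine le_of_tendsto_of_tendsto' L.abs R fun n => ?_
  have s1 : ∫ z in K, η z ^ 2 * jac (fderiv ℝ (φ n) z) = ∫ z, η z ^ 2 * jac (fderiv ℝ (φ n) z) := by
    refine setIntegral_eq_integral_of_forall_compl_eq_zero fun z hz => ?_
    rw [image_eq_zero_of_notMem_tsupport (fun h => hz (hηK h))]
    simp
  have s2 : ∫ z in K, (4 * |η z| * ‖fderiv ℝ η z‖) * (‖φ n z - c‖ * ‖fderiv ℝ (φ n) z‖) =
      ∫ z, (4 * |η z| * ‖fderiv ℝ η z‖) * (‖φ n z - c‖ * ‖fderiv ℝ (φ n) z‖) := by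
    refine setIntegral_eq_integral_of_forall_compl_eq_zero fun z hz => ?_
    rw [image_eq_zero_of_notMem_tsupport (fun h => hz (hηK h))]
    simp
  rw [s1, s2]
  exact cacc_smooth (hφ n) hη hc c

/-- Caccioppoli inequality for quasiregular maps, with a cut-off. -/
theorem cacc_qr {Q : ℝ} (hQ1 : 1 ≤ Q) {U : Set ℂ} {g : ℂ → ℂ} {D : ℂ → ℂ →L[ℝ] ℂ}
    (h : Sob 2 U g D) {K : Set ℂ}
    (hK : IsCompact K) (hKU : K ⊆ U) (hQ : ∀ᵐ z ∂volume.restrict U, QR Q (D z)) {η : ℂ → ℝ}
    (hη : ContDiff ℝ ∞ η) (hηK : tsupport η ⊆ K) (c : ℂ) :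
    ∫ z in K, η z ^ 2 * -jac (D z) ≤ 16 * Q * ∫ z in K, ‖fderiv ℝ η z‖ ^ 2 * ‖g z - c‖ ^ 2 := by
  have hη' : Continuous (fderiv ℝ η) := hη.continuous_fderiv (by simp)
  have mD := h.memLpD hKU hK
  have mg := h.memLp hKU hK
  have fc : IsFiniteMeasure (volume.restrict K) := ⟨by simpa using hK.measure_lt_top⟩
  have mconst : MemLp (fun _ : ℂ => c) 2 (volume.restrict K) := memLp_const c
  have m1 : MemLp (fun z => g z - c) 2 (volume.restrict K) := mg.sub mconst
  have w3 : Continuous fun z => ‖fderiv ℝ η z‖ := hη'.norm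
  have i1 : Integrable (fun z => ‖fderiv ℝ η z‖ ^ 2 * ‖g z - c‖ ^ 2) (volume.restrict K) := by
    have := (memLp_weight hK w3 m1).integrable_norm_pow (p := 2) (by norm_num)
    refine this.congr (Eventually.of_forall fun z => ?_)
    simp only [norm_smul, norm_norm, mul_pow]
  have i2 : Integrable (fun z => η z ^ 2 * -jac (D z)) (volume.restrict K) := by
    obtain ⟨C, hC⟩ := hK.exists_bound_of_continuousOn (hη.continuous.pow 2).continuousOn
    have i0 := (sob_integrable h hK hKU (t := K) le_rfl).2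
    refine Integrable.bdd_mul (c := C) i0 (hη.continuous.pow 2).aestronglyMeasurable ?_
    rw [ae_restrict_iff' hK.measurableSet]
    exact Eventually.of_forall hC
  have key := cacc_sob h hK hKU hη hηK c
  have hQK : ∀ᵐ z ∂volume.restrict K, QR Q (D z) := ae_restrict_of_ae_restrict_of_subset hKU hQ
  have e1 : ∫ z in K, η z ^ 2 * -jac (D z) ≤ |∫ z in K, η z ^ 2 * jac (D z)| := by
    have : ∫ z in K, η z ^ 2 * -jac (D z) = -∫ z in K, η z ^ 2 * jac (D z) := by
      rw [← integral_neg]; congr 1; funext z; ring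
    rw [this]
    exact neg_le_abs _
  have e2 : ∫ z in K, (4 * |η z| * ‖fderiv ℝ η z‖) * (‖g z - c‖ * ‖D z‖) ≤
      ∫ z in K, ((1 / 2) * (η z ^ 2 * -jac (D z)) +
        8 * Q * (‖fderiv ℝ η z‖ ^ 2 * ‖g z - c‖ ^ 2)) := by
    refine integral_mono_of_nonneg (Eventually.of_forall fun z => by positivity)
      ((i2.const_mul _).add (i1.const_mul _)) ?_
    filter_upwards [hQK] with z hz
    unfold QR at hz
    have hQ0 : 0 < Q := by linarith
    have a1 : ‖D z‖ ^ 2 / Q ≤ -jac (D z) := by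
      rw [div_le_iff₀ hQ0]; linarith
    have a2 : (4 * |η z| * ‖fderiv ℝ η z‖) * (‖g z - c‖ * ‖D z‖) ≤
        (1 / 2) * (η z ^ 2 * (‖D z‖ ^ 2 / Q)) +
        8 * Q * (‖fderiv ℝ η z‖ ^ 2 * ‖g z - c‖ ^ 2) := by
      obtain ⟨a, ha⟩ : ∃ a, a = |η z| * ‖D z‖ := ⟨_, rfl⟩
      obtain ⟨b, hb⟩ : ∃ b, b = ‖fderiv ℝ η z‖ * ‖g z - c‖ := ⟨_, rfl⟩
      have e3 : (4 * |η z| * ‖fderiv ℝ η z‖) * (‖g z - c‖ * ‖D z‖) = 4 * (a * b) := by
        rw [ha, hb]; ring
      have e4 : η z ^ 2 * (‖D z‖ ^ 2 / Q) = a ^ 2 / Q := by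
        rw [ha, mul_pow, sq_abs]; ring
      have e5 : ‖fderiv ℝ η z‖ ^ 2 * ‖g z - c‖ ^ 2 = b ^ 2 := by rw [hb]; ring
      rw [e3, e4, e5]
      have e6 : (1 / 2) * (a ^ 2 / Q) + 8 * Q * b ^ 2 - 4 * (a * b) =
          (a - 4 * Q * b) ^ 2 / (2 * Q) := by field_simp; ring
      have e7 : 0 ≤ (a - 4 * Q * b) ^ 2 / (2 * Q) := by positivity
      linarith
    refine a2.trans ?_
    have a3 : η z ^ 2 * (‖D z‖ ^ 2 / Q) ≤ η z ^ 2 * -jac (D z) :=
      mul_le_mul_of_nonneg_left a1 (sq_nonneg _)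
    linarith
  rw [integral_add (i2.const_mul _) (i1.const_mul _), integral_const_mul, integral_const_mul] at e2
  linarith

/-- A radial cut-off function with a bound for its derivative. -/
theorem exists_cutoff : ∃ C : ℝ, 0 < C ∧ ∀ (x : ℂ) (r R : ℝ), 0 < r → r < R →
    ∃ η : ℂ → ℝ, ContDiff ℝ ∞ η ∧ tsupport η ⊆ closedBall x R ∧ (∀ z ∈ ball x r, η z = 1) ∧
      ∀ z, ‖fderiv ℝ η z‖ ≤ C / (R - r) := by
  -- bound for the derivative of the smooth transition
  obtain ⟨M, hM⟩ : ∃ M : ℝ, ∀ t, |deriv Real.smoothTransition t| ≤ M := by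
    have c1 : Continuous (deriv Real.smoothTransition) :=
      (Real.smoothTransition.contDiff (n := 1)).continuous_deriv le_rfl
    obtain ⟨M, hM⟩ := (isCompact_Icc (a := (0 : ℝ)) (b := 1)).exists_bound_of_continuousOn
      c1.continuousOn
    refine ⟨max M 0, fun t => ?_⟩
    rcases lt_or_ge t 0 with h0 | h0
    · have : Real.smoothTransition =ᶠ[𝓝 t] fun _ => 0 := by
        filter_upwards [gt_mem_nhds h0] with s hs
        exact Real.smoothTransition.zero_of_nonpos hs.le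
      rw [this.deriv_eq]
      simp
    · rcases le_or_gt t 1 with h1 | h1
      · exact (hM t ⟨h0, h1⟩).trans (le_max_left _ _)
      · have : Real.smoothTransition =ᶠ[𝓝 t] fun _ => 1 := by
          filter_upwards [lt_mem_nhds h1] with s hs
          exact Real.smoothTransition.one_of_one_le hs.le
        rw [this.deriv_eq]
        simp
  have hM0 : 0 ≤ M := (abs_nonneg _).trans (hM 0)
  refine ⟨2 * M + 1, by linarith, ?_⟩
  intro x r R hr hrR
  have hR : 0 < R := hr.trans hrR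
  have hd : 0 < R ^ 2 - r ^ 2 := by nlinarith
  obtain ⟨q, hq⟩ : ∃ q : ℂ → ℝ, q = fun z => (R ^ 2 - ‖z - x‖ ^ 2) / (R ^ 2 - r ^ 2) := ⟨_, rfl⟩
  have hqs : ContDiff ℝ ∞ q := by
    rw [hq]
    exact (contDiff_const.sub ((contDiff_id.sub contDiff_const).norm_sq ℝ)).div_const _
  have hst : ContDiff ℝ ∞ Real.smoothTransition := Real.smoothTransition.contDiff
  refine ⟨fun z => Real.smoothTransition (q z), hst.comp hqs, ?_, ?_, ?_⟩
  · refine closure_minimal (fun z hz => ?_) isClosed_closedBall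
    rw [mem_closedBall_iff_norm]
    by_contra hcon
    push Not at hcon
    apply hz
    refine Real.smoothTransition.zero_of_nonpos ?_
    rw [hq]
    refine div_nonpos_of_nonpos_of_nonneg ?_ hd.le
    nlinarith
  · intro z hz
    rw [mem_ball_iff_norm] at hz
    refine Real.smoothTransition.one_of_one_le ?_
    rw [hq]
    simp only
    rw [le_div_iff₀ hd]
    nlinarith [norm_nonneg (z - x)]
  · intro z
    rcases le_or_gt ‖z - x‖ R with hz | hz
    · have d1 : HasFDerivAt q (fderiv ℝ q z) z := ((hqs.differentiable (by simp)) z).hasFDerivAt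
      have d2 : HasDerivAt Real.smoothTransition (deriv Real.smoothTransition (q z)) (q z) :=
        ((hst.differentiable (by simp)) (q z)).hasDerivAt
      have d3 := d2.comp_hasFDerivAt z d1
      have d4 : HasFDerivAt q (-(2 / (R ^ 2 - r ^ 2)) • innerSL ℝ (z - x)) z := by
        have a1 : HasFDerivAt (fun z : ℂ => z - x) (ContinuousLinearMap.id ℝ ℂ) z :=
          (hasFDerivAt_id z).sub_const x
        have a2 := a1.norm_sq
        have a3 := (a2.const_sub (R ^ 2)).mul_const ((R ^ 2 - r ^ 2)⁻¹)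
        rw [hq]
        refine a3.congr_fderiv ?_
        ext v
        simp [div_eq_mul_inv]
        ring
      have e1 : fderiv ℝ (fun z => Real.smoothTransition (q z)) z =
          deriv Real.smoothTransition (q z) • fderiv ℝ q z := d3.fderiv
      have e3 : |2 / (R ^ 2 - r ^ 2)| = 2 / (R ^ 2 - r ^ 2) := abs_of_pos (div_pos two_pos hd)
      rw [e1, norm_smul, d4.fderiv, norm_smul, norm_neg, innerSL_apply_norm]
      simp only [Real.norm_eq_abs]
      rw [e3]
      have e2 : 2 / (R ^ 2 - r ^ 2) * ‖z - x‖ ≤ 2 / (R - r) := by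
        rw [div_mul_eq_mul_div, div_le_div_iff₀ hd (by linarith)]
        have h5 : ‖z - x‖ ≤ R + r := by linarith
        have h6 : R ^ 2 - r ^ 2 = (R + r) * (R - r) := by ring
        rw [h6]
        have h7 : 0 < R - r := by linarith
        nlinarith [mul_le_mul_of_nonneg_right h5 h7.le]
      calc |deriv Real.smoothTransition (q z)| * (2 / (R ^ 2 - r ^ 2) * ‖z - x‖)
          ≤ M * (2 / (R - r)) := by
            have h8 : 0 ≤ 2 / (R ^ 2 - r ^ 2) * ‖z - x‖ := by positivity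
            exact mul_le_mul (hM _) e2 h8 hM0
        _ ≤ (2 * M + 1) / (R - r) := by
            rw [mul_div_assoc', div_le_div_iff_of_pos_right (by linarith)]
            linarith
    · have : (fun z => Real.smoothTransition (q z)) =ᶠ[𝓝 z] fun _ => 0 := by
        have ho : IsOpen {z : ℂ | R < ‖z - x‖} :=
          isOpen_lt continuous_const ((continuous_id.sub continuous_const).norm)
        filter_upwards [ho.mem_nhds hz] with s hs
        refine Real.smoothTransition.zero_of_nonpos ?_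
        rw [hq]
        refine div_nonpos_of_nonpos_of_nonneg ?_ hd.le
        have : R < ‖s - x‖ := hs
        nlinarith
      rw [this.fderiv_eq]
      simp only [fderiv_fun_const, Pi.zero_apply, norm_zero]
      have : 0 < R - r := by linarith
      positivity

theorem qr_caccioppoli (K : ℝ) (hK : 1 ≤ K) : ∃ C : ℝ, 0 < C ∧
    ∀ (U : Set ℂ) (g : ℂ → ℂ) (D : ℂ → ℂ →L[ℝ] ℂ) (x : ℂ) (r R : ℝ) (c : ℂ), IsOpen U →
      Sob 2 U g D → (∀ᵐ z ∂volume.restrict U, QR K (D z)) → 0 < r → r < R → closedBall x R ⊆ U →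
      ∫ z in ball x r, -jac (D z) ≤ C / (R - r) ^ 2 * ∫ z in ball x R, ‖g z - c‖ ^ 2 := by
  obtain ⟨C, hC, H⟩ := exists_cutoff
  refine ⟨16 * K * C ^ 2, by positivity, ?_⟩
  intro U g D x r R c hU h hQ hr hrR hb
  obtain ⟨η, hη, hs, h1, hd⟩ := H x r R hr hrR
  have cK : IsCompact (closedBall x R) := isCompact_closedBall _ _
  have key := cacc_qr hK h cK hb hQ hη hs c
  have hsub : ball x r ⊆ closedBall x R :=
    ball_subset_closedBall.trans (closedBall_subset_closedBall hrR.le)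
  have hQK : ∀ᵐ z ∂volume.restrict (closedBall x R), QR K (D z) :=
    ae_restrict_of_ae_restrict_of_subset hb hQ
  have fc : IsFiniteMeasure (volume.restrict (closedBall x R)) :=
    ⟨by rw [Measure.restrict_apply_univ]; exact measure_closedBall_lt_top⟩
  have mconst : MemLp (fun _ : ℂ => c) 2 (volume.restrict (closedBall x R)) := memLp_const c
  have m1 : MemLp (fun z => g z - c) 2 (volume.restrict (closedBall x R)) :=
    (h.memLp hb cK).sub mconst
  have i1 : Integrable (fun z => ‖g z - c‖ ^ 2) (volume.restrict (closedBall x R)) :=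
    m1.integrable_norm_pow (by norm_num)
  have i2 : Integrable (fun z => η z ^ 2 * -jac (D z)) (volume.restrict (closedBall x R)) := by
    obtain ⟨C, hC⟩ := cK.exists_bound_of_continuousOn (hη.continuous.pow 2).continuousOn
    have i0 := (sob_integrable h cK hb (t := closedBall x R) le_rfl).2
    refine Integrable.bdd_mul (c := C) i0 (hη.continuous.pow 2).aestronglyMeasurable ?_
    rw [ae_restrict_iff' cK.measurableSet]
    exact Eventually.of_forall hC
  have l1 : ∫ z in ball x r, -jac (D z) = ∫ z in ball x r, η z ^ 2 * -jac (D z) := by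
    refine setIntegral_congr_fun measurableSet_ball fun z hz => ?_
    simp only [h1 z hz]; ring
  have l2 : ∫ z in ball x r, η z ^ 2 * -jac (D z) ≤
      ∫ z in closedBall x R, η z ^ 2 * -jac (D z) := by
    refine setIntegral_mono_set i2 ?_ hsub.eventuallyLE
    filter_upwards [hQK] with z hz
    exact mul_nonneg (sq_nonneg _) (qr_jac_nonneg hK hz)
  have hRr : 0 < R - r := by linarith
  have l3 : ∫ z in closedBall x R, ‖fderiv ℝ η z‖ ^ 2 * ‖g z - c‖ ^ 2 ≤
      ∫ z in closedBall x R, (C / (R - r)) ^ 2 * ‖g z - c‖ ^ 2 := by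
    refine integral_mono_of_nonneg (Eventually.of_forall fun z => by positivity)
      (i1.const_mul _) (Eventually.of_forall fun z => ?_)
    exact mul_le_mul_of_nonneg_right (pow_le_pow_left₀ (norm_nonneg _) (hd z) 2) (sq_nonneg _)
  rw [integral_const_mul] at l3
  have l4 : ∫ z in closedBall x R, ‖g z - c‖ ^ 2 = ∫ z in ball x R, ‖g z - c‖ ^ 2 := by
    refine setIntegral_congr_set ?_
    exact (ae_eq_of_subset_of_measure_ge ball_subset_closedBall
      (Measure.addHaar_closedBall_eq_addHaar_ball volume x R).le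
      measurableSet_ball.nullMeasurableSet measure_closedBall_lt_top.ne).symm
  rw [l4] at l3
  calc ∫ z in ball x r, -jac (D z) ≤ 16 * K * ∫ z in closedBall x R, ‖fderiv ℝ η z‖ ^ 2 * ‖g z - c‖ ^ 2 := by
        rw [l1]; exact l2.trans key
    _ ≤ 16 * K * ((C / (R - r)) ^ 2 * ∫ z in ball x R, ‖g z - c‖ ^ 2) := by gcongr
    _ = _ := by rw [div_pow]; ring

end Pool.Agent.H52.PH
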