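import Pool.Agent.H52.PH.QRE2
import Pool.Agent.H42.PH.Sup
import Pool.Agent.H11.PH.FreezeMain

/-! The remaining estimates for quasiregular maps. -/

open MeasureTheory Set Metric Filter Topology ContDiff Complex
open scoped ENNReal

namespace Pool.Agent.H52.PH

theorem qr_sup (K : ℝ) (hK : 1 ≤ K) : ∃ C : ℝ, 0 < C ∧
    ∀ (U : Set ℂ) (g : ℂ → ℂ) (D : ℂ → ℂ →L[ℝ] ℂ) (x : ℂ) (R : ℝ) (c : ℂ), IsOpen U →
      Sob 2 U g D → ContinuousOn g U → (∀ᵐ z ∂volume.restrict U, QR K (D z)) → 0 < R →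
      closedBall x R ⊆ U → ∀ y ∈ ball x (R / 2),
        ‖g y - c‖ ≤ C / R ^ 2 * ∫ z in ball x R, ‖g z - c‖ := Pool.Agent.H42.PH.qr_sup K hK

theorem pstruct_qr {m : ℝ} (hm : 1 ≤ m) {G : ℂ} {H : ℂ →L[ℝ] ℂ} (h : PStruct m G H) :
    QR m H := Pool.Agent.H11.PH.pstruct_qr hm h

theorem nondeg_decay (m : ℝ) (hm : 1 ≤ m) : ∃ C : ℝ, 0 < C ∧
    ∀ (U : Set ℂ) (G : ℂ → ℂ) (D : ℂ → ℂ →L[ℝ] ℂ) (x : ℂ) (R : ℝ), IsOpen U → Sob 2 U G D →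
      ContinuousOn G U → (∀ᵐ z ∂volume.restrict U, PStruct m (G z) (D z)) → 0 < R →
      closedBall x R ⊆ U → G x ≠ 0 → (∀ z ∈ ball x R, ‖G z - G x‖ ≤ (1 / 2) * ‖G x‖) →
      ∀ r, 0 < r → r ≤ R →
        ∫ z in ball x r, -jac (D z) ≤ C * (r / R) ^ 2 * ∫ z in ball x R, -jac (D z) :=
  Pool.Agent.H11.PH.nondeg_decay_of m hm (qr_holder m hm) (qr_caccioppoli m hm)

end Pool.Agent.H52.PH
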