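import Pool.Agent.H52.PH.Struct

/-! Chain rule for continuous Sobolev maps, closure of the class `Sob` under limits, and the
regularity of `G` and `F`. -/

open MeasureTheory Set Metric Filter Topology ContDiff Complex
open scoped ENNReal

namespace Pool.Agent.H52.PH

variable {E : Type*} [NormedAddCommGroup E] [NormedSpace ℝ E]

/-- Chain rule for continuous maps. -/
theorem Sob.comp_loc {U : Set ℂ} {g : ℂ → ℂ} {D : ℂ → ℂ →L[ℝ] ℂ} (h : Sob 2 U g D)
    (hc : ContinuousOn g U) {Φ : ℂ → ℂ} (hΦ : ContDiff ℝ ∞ Φ) :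
    Sob 2 U (fun z => Φ (g z)) (fun z => (fderiv ℝ Φ (g z)).comp (D z)) := by
  have hΦ' : Continuous (fderiv ℝ Φ) := hΦ.continuous_fderiv (by simp)
  refine ⟨hΦ.continuous.comp_aestronglyMeasurable h.meas, ?_, ?_⟩
  · exact (ContinuousLinearMap.compL ℝ ℂ ℂ ℂ).aestronglyMeasurable_comp₂
      (hΦ'.comp_aestronglyMeasurable h.meas) h.measD
  intro K hKU hK
  obtain ⟨M, hM⟩ := hK.exists_bound_of_continuousOn (hc.mono hKU)
  -- cutoff at a large radius
  obtain ⟨t, ht0, htM⟩ : ∃ t : ℝ, 0 < t ∧ t * (|M| + 1) < 1 := by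
    refine ⟨1 / (2 * (|M| + 1)), by positivity, ?_⟩
    have : (0 : ℝ) < |M| + 1 := by positivity
    rw [div_mul_eq_mul_div, one_mul, div_lt_one (by positivity)]
    linarith
  set Φ' : ℂ → ℂ := fun X => bt t X • Φ X with hΦ'def
  have hΦs : ContDiff ℝ ∞ Φ' := (contDiff_bt t).smul hΦ
  have hbtc : HasCompactSupport (bt t) := by
    refine HasCompactSupport.of_support_subset_isCompact
      (isCompact_closedBall (0 : ℂ) (2 / t)) fun X hX => ?_
    by_contra h
    apply hX
    rw [mem_closedBall_zero_iff, not_le] at h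
    apply bt_eq_zero
    rw [abs_of_pos ht0]
    rw [div_lt_iff₀ ht0] at h
    linarith
  have hΦc : HasCompactSupport Φ' := hbtc.smul_right
  obtain ⟨L, hL⟩ := bounded_fderiv hΦs hΦc
  have hS := (h.comp_smooth hΦs hL).approx K hKU hK
  have hev : ∀ X : ℂ, ‖X‖ ≤ M → Φ' =ᶠ[𝓝 X] Φ := by
    intro X hX
    have ev : ∀ᶠ Y in 𝓝 X, ‖Y‖ < |M| + 1 := by
      refine (continuous_norm.tendsto X).eventually (gt_mem_nhds ?_)
      linarith [le_abs_self M]
    filter_upwards [ev] with Y hY
    have : bt t Y = 1 := by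
      apply bt_eq_one
      rw [abs_of_pos ht0]
      nlinarith
    simp [hΦ'def, this]
  obtain ⟨φ, hφ, h1, h2⟩ := hS
  refine ⟨φ, hφ, ?_, ?_⟩
  · refine h1.congr fun n => eLpNorm_congr_ae ?_
    rw [EventuallyEq, ae_restrict_iff' hK.measurableSet]
    refine Eventually.of_forall fun z hz => ?_
    rw [(hev (g z) (hM z hz)).self_of_nhds]
  · refine h2.congr fun n => eLpNorm_congr_ae ?_
    rw [EventuallyEq, ae_restrict_iff' hK.measurableSet]
    refine Eventually.of_forall fun z hz => ?_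
    rw [(hev (g z) (hM z hz)).fderiv_eq]

/-- The class `Sob` is closed under `W^{1,q}_loc` limits. -/
theorem Sob.of_tendsto {q : ℝ≥0∞} (hq : 1 ≤ q) {U : Set ℂ} {g : ℕ → ℂ → E}
    {D : ℕ → ℂ → ℂ →L[ℝ] E} (h : ∀ n, Sob q U (g n) (D n)) {f : ℂ → E} {Df : ℂ → ℂ →L[ℝ] E}
    (hf : AEStronglyMeasurable f (volume.restrict U))
    (hDf : AEStronglyMeasurable Df (volume.restrict U))
    (h1 : ∀ K ⊆ U, IsCompact K →
      Tendsto (fun n => eLpNorm (fun z => g n z - f z) q (volume.restrict K)) atTop (𝓝 0))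
    (h2 : ∀ K ⊆ U, IsCompact K →
      Tendsto (fun n => eLpNorm (fun z => D n z - Df z) q (volume.restrict K)) atTop (𝓝 0)) :
    Sob q U f Df := by
  refine ⟨hf, hDf, fun K hKU hK => ?_⟩
  have mK : volume.restrict K ≤ volume.restrict U := Measure.restrict_mono hKU le_rfl
  have ap : ∀ n : ℕ, ∃ φ : ℂ → E, ContDiff ℝ ∞ φ ∧
      eLpNorm (fun z => φ z - g n z) q (volume.restrict K) < (1 / (n + 1) : ℝ≥0∞) ∧
      eLpNorm (fun z => fderiv ℝ φ z - D n z) q (volume.restrict K) < (1 / (n + 1) : ℝ≥0∞) := by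
    intro n
    obtain ⟨φ, hφ, a1, a2⟩ := (h n).approx K hKU hK
    have pos : (0 : ℝ≥0∞) < 1 / (n + 1) := by
      rw [one_div]
      exact ENNReal.inv_pos.2 (by simp)
    obtain ⟨k, hk1, hk2⟩ := ((a1.eventually (gt_mem_nhds pos)).and
      (a2.eventually (gt_mem_nhds pos))).exists
    exact ⟨φ k, hφ k, hk1, hk2⟩
  choose φ hφ a1 a2 using ap
  have lim : Tendsto (fun n : ℕ => (1 / (n + 1) : ℝ≥0∞)) atTop (𝓝 0) := by
    have := ENNReal.tendsto_inv_nat_nhds_zero.comp (tendsto_add_atTop_nat 1)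
    refine this.congr fun n => ?_
    simp
  refine ⟨φ, hφ, ?_, ?_⟩
  · have hb : ∀ n, eLpNorm (fun z => φ n z - f z) q (volume.restrict K) ≤
        (1 / (n + 1) : ℝ≥0∞) + eLpNorm (fun z => g n z - f z) q (volume.restrict K) := by
      intro n
      have e : (fun z => φ n z - f z) = fun z => (φ n z - g n z) + (g n z - f z) := by
        funext z; abel
      have mg := (h n).meas.mono_measure mK
      rw [e]
      refine (eLpNorm_tri hq ((hφ n).continuous.aestronglyMeasurable.sub mg)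
        (mg.sub (hf.mono_measure mK))).trans (add_le_add (a1 n).le le_rfl)
    have := lim.add (h1 K hKU hK)
    rw [add_zero] at this
    exact tendsto_of_tendsto_of_tendsto_of_le_of_le tendsto_const_nhds this (fun _ => bot_le) hb
  · have hb : ∀ n, eLpNorm (fun z => fderiv ℝ (φ n) z - Df z) q (volume.restrict K) ≤
        (1 / (n + 1) : ℝ≥0∞) + eLpNorm (fun z => D n z - Df z) q (volume.restrict K) := by
      intro n
      have e : (fun z => fderiv ℝ (φ n) z - Df z) =
          fun z => (fderiv ℝ (φ n) z - D n z) + (D n z - Df z) := by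
        funext z; abel
      have mD := (h n).measD.mono_measure mK
      have mφ : AEStronglyMeasurable (fderiv ℝ (φ n)) (volume.restrict K) :=
        ((hφ n).continuous_fderiv (by simp)).aestronglyMeasurable
      rw [e]
      refine (eLpNorm_tri hq (mφ.sub mD)
        (mD.sub (hDf.mono_measure mK))).trans (add_le_add (a2 n).le le_rfl)
    have := lim.add (h2 K hKU hK)
    rw [add_zero] at this
    exact tendsto_of_tendsto_of_tendsto_of_le_of_le tendsto_const_nhds this (fun _ => bot_le) hb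

end Pool.Agent.H52.PH
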