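import Pool.Agent.H52.PH.Reg

/-! `G` and `F` are in `Sob`. -/

open MeasureTheory Set Metric Filter Topology ContDiff Complex
open scoped ENNReal

namespace Pool.Agent.H52.PH

theorem continuous_Phi0 {γ : ℝ} (hγ : -1 < γ) : Continuous (Phi 0 γ) := by
  rw [continuous_iff_continuousAt]
  intro X
  by_cases hX : X = 0
  · have h0 : Phi 0 γ 0 = 0 := by simp [Phi]
    rw [hX, ContinuousAt, h0, tendsto_zero_iff_norm_tendsto_zero]
    have e : ∀ Y : ℂ, ‖Phi 0 γ Y‖ = ‖Y‖ ^ (γ + 1) := by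
      intro Y
      rw [norm_Phi_zero]
      by_cases hY : Y = 0
      · rw [hY, norm_zero, Real.zero_rpow (by linarith : γ + 1 ≠ 0), mul_zero]
      · rw [Real.rpow_add_one (norm_pos_iff.2 hY).ne']
    simp_rw [e]
    have c : Continuous fun Y : ℂ => ‖Y‖ ^ (γ + 1) :=
      continuous_norm.rpow_const fun x => Or.inr (by linarith)
    have := c.tendsto (0 : ℂ)
    rwa [norm_zero, Real.zero_rpow (by linarith : γ + 1 ≠ 0)] at this
  · exact (contDiffAt_Phi (zpos hX)).continuousAt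

/-- The sequence of regularisation parameters. -/
noncomputable def dl (n : ℕ) : ℝ := 1 / (n + 1)

theorem dl_pos (n : ℕ) : 0 < dl n := by unfold dl; positivity

theorem dl_le_one (n : ℕ) : dl n ≤ 1 := by
  unfold dl
  rw [div_le_one (by positivity)]
  have : (0 : ℝ) ≤ n := by positivity
  linarith

theorem dl_tendsto : Tendsto dl atTop (𝓝 0) := tendsto_one_div_add_atTop_nhds_zero_nat

theorem tendsto_T {γ : ℝ} {X : ℂ} (hX : X ≠ 0) :
    Tendsto (fun n => (dl n ^ 2 + ‖X‖ ^ 2) ^ γ) atTop (𝓝 (((0 : ℝ) ^ 2 + ‖X‖ ^ 2) ^ γ)) := by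
  have h1 : Tendsto (fun n => dl n ^ 2 + ‖X‖ ^ 2) atTop (𝓝 ((0 : ℝ) ^ 2 + ‖X‖ ^ 2)) :=
    (dl_tendsto.pow 2).add tendsto_const_nhds
  exact h1.rpow_const (Or.inl (zpos hX).ne')

theorem tendsto_Phi (γ : ℝ) (X : ℂ) :
    Tendsto (fun n => Phi (dl n) γ X) atTop (𝓝 (Phi 0 γ X)) := by
  by_cases hX : X = 0
  · simp [Phi, hX]
  · exact (tendsto_T hX).smul_const X

theorem tendsto_dPhi (γ : ℝ) {X : ℂ} (hX : X ≠ 0) :
    Tendsto (fun n => dPhi (dl n) γ X) atTop (𝓝 (dPhi 0 γ X)) := by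
  unfold dPhi
  exact ((tendsto_T hX).smul_const _).add (((tendsto_T hX).const_mul γ).smul_const _)

theorem sob_phi_n {U : Set ℂ} {V : ℂ → ℂ} {D : ℂ → ℂ →L[ℝ] ℂ} (hV : Sob 2 U V D)
    (hVc : ContinuousOn V U) (γ : ℝ) (n : ℕ) :
    Sob 2 U (fun z => Phi (dl n) γ (V z)) (fun z => (dPhi (dl n) γ (V z)).comp (D z)) := by
  have h := hV.comp_loc hVc (contDiff_Phi (γ := γ) (dl_pos n))
  have e : ∀ X, fderiv ℝ (Phi (dl n) γ) X = dPhi (dl n) γ X := fun X =>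
    fderiv_Phi (by have := dl_pos n; positivity)
  simpa only [e] using h

theorem tendsto_comp_dPhi (γ : ℝ) {V : ℂ → ℂ} {D : ℂ → ℂ →L[ℝ] ℂ} {z : ℂ}
    (h0 : V z = 0 → D z = 0) :
    Tendsto (fun n => (dPhi (dl n) γ (V z)).comp (D z)) atTop
      (𝓝 ((dPhi 0 γ (V z)).comp (D z))) := by
  by_cases hX : V z = 0
  · rw [h0 hX]; simp
  · exact (((ContinuousLinearMap.compL ℝ ℂ ℂ ℂ).flip (D z)).continuous.tendsto _).comp
      (tendsto_dPhi γ hX)

theorem aesm_comp_dPhi {U : Set ℂ} {V : ℂ → ℂ} {D : ℂ → ℂ →L[ℝ] ℂ} (hV : Sob 2 U V D)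
    (hVc : ContinuousOn V U) (h0 : ∀ᵐ z ∂(volume.restrict U), V z = 0 → D z = 0) (γ : ℝ) :
    AEStronglyMeasurable (fun z => (dPhi 0 γ (V z)).comp (D z)) (volume.restrict U) := by
  refine aestronglyMeasurable_of_tendsto_ae atTop
    (f := fun n z => (dPhi (dl n) γ (V z)).comp (D z)) (fun n => (sob_phi_n hV hVc γ n).measD) ?_
  filter_upwards [h0] with z hz
  exact tendsto_comp_dPhi γ hz

/-- Limit of the regularised maps. -/
theorem phi_limit {U : Set ℂ} (hU : IsOpen U) {V : ℂ → ℂ} {D : ℂ → ℂ →L[ℝ] ℂ} (hV : Sob 2 U V D)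
    (hVc : ContinuousOn V U) (h0 : ∀ᵐ z ∂(volume.restrict U), V z = 0 → D z = 0) {γ : ℝ}
    (hγ : -1 < γ)
    (hb : ∀ K ⊆ U, IsCompact K → ∃ C : ℝ, ∀ n, ∀ z ∈ K, ‖Phi (dl n) γ (V z)‖ ≤ C)
    (hD : ∀ K ⊆ U, IsCompact K → ∃ b : ℂ → ℝ, MemLp b 2 (volume.restrict K) ∧
      ∀ n, ∀ᵐ z ∂(volume.restrict K), ‖(dPhi (dl n) γ (V z)).comp (D z)‖ ≤ b z) :
    Sob 2 U (fun z => Phi 0 γ (V z)) (fun z => (dPhi 0 γ (V z)).comp (D z)) := by
  have mΦ : AEStronglyMeasurable (fun z => Phi 0 γ (V z)) (volume.restrict U) :=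
    ((continuous_Phi0 hγ).comp_continuousOn hVc).aestronglyMeasurable hU.measurableSet
  have mD := aesm_comp_dPhi hV hVc h0 γ
  refine Sob.of_tendsto (by norm_num) (sob_phi_n hV hVc γ) mΦ mD ?_ ?_
  · intro K hKU hK
    have : IsFiniteMeasure (volume.restrict K) := ⟨by simpa using hK.measure_lt_top⟩
    have mK : volume.restrict K ≤ volume.restrict U := Measure.restrict_mono hKU le_rfl
    obtain ⟨C, hC⟩ := hb K hKU hK
    refine tendsto_eLpNorm_two_of_dominated (b := fun _ => C + C) ?_ (memLp_const _) ?_ ?_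
    · exact fun n => ((sob_phi_n hV hVc γ n).meas.sub mΦ).mono_measure mK
    · intro n
      rw [ae_restrict_iff' hK.measurableSet]
      refine Eventually.of_forall fun z hz => (norm_sub_le _ _).trans (add_le_add (hC n z hz) ?_)
      exact le_of_tendsto (tendsto_Phi γ (V z)).norm (Eventually.of_forall fun n => hC n z hz)
    · refine Eventually.of_forall fun z => ?_
      have := (tendsto_Phi γ (V z)).sub_const (Phi 0 γ (V z))
      simpa using this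
  · intro K hKU hK
    have mK : volume.restrict K ≤ volume.restrict U := Measure.restrict_mono hKU le_rfl
    have h0K : ∀ᵐ z ∂(volume.restrict K), V z = 0 → D z = 0 :=
      ae_restrict_of_ae_restrict_of_subset hKU h0
    obtain ⟨b, hb2, hbn⟩ := hD K hKU hK
    refine tendsto_eLpNorm_two_of_dominated (b := fun z => b z + b z) ?_ (hb2.add hb2) ?_ ?_
    · exact fun n => ((sob_phi_n hV hVc γ n).measD.sub mD).mono_measure mK
    · intro n
      filter_upwards [hbn n, ae_all_iff.2 hbn, h0K] with z h1 h2 h3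
      refine (norm_sub_le _ _).trans (add_le_add h1 ?_)
      exact le_of_tendsto (tendsto_comp_dPhi γ h3).norm (Eventually.of_forall fun n => h2 n)
    · filter_upwards [h0K] with z h3
      have := (tendsto_comp_dPhi γ h3).sub_const ((dPhi 0 γ (V z)).comp (D z))
      rwa [sub_self] at this

theorem F_sob {m : ℝ} (hm : 1 ≤ m) {U : Set ℂ} (hU : IsOpen U) {V : ℂ → ℂ}
    {D : ℂ → ℂ →L[ℝ] ℂ} (hV : Sob 2 U V D) (hVc : ContinuousOn V U)
    (hst : ∀ᵐ z ∂(volume.restrict U), VStruct m (V z) (D z)) :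
    Sob 2 U (fun z => Phi 0 ((m - 1) / (m + 1)) (V z))
      (fun z => (dPhi 0 ((m - 1) / (m + 1)) (V z)).comp (D z)) := by
  have h0 : ∀ᵐ z ∂(volume.restrict U), V z = 0 → D z = 0 := by
    filter_upwards [hst] with z hz using hz.1
  have hγ0 : 0 ≤ (m - 1) / (m + 1) := div_nonneg (by linarith) (by linarith)
  set γ := (m - 1) / (m + 1) with hγ
  have T0 : ∀ (n : ℕ) (X : ℂ) (M : ℝ), ‖X‖ ≤ M →
      (dl n ^ 2 + ‖X‖ ^ 2) ^ (γ / 2) ≤ (1 + M ^ 2) ^ (γ / 2) := by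
    intro n X M hM
    have h1 := dl_pos n
    have h2 := dl_le_one n
    have h3 : dl n ^ 2 ≤ 1 := by nlinarith
    have h4 : ‖X‖ ^ 2 ≤ M ^ 2 := pow_le_pow_left₀ (norm_nonneg _) hM 2
    exact Real.rpow_le_rpow (by positivity) (by linarith) (by positivity)
  refine phi_limit hU hV hVc h0 (by linarith) ?_ ?_
  · intro K hKU hK
    obtain ⟨M, hM⟩ := hK.exists_bound_of_continuousOn (hVc.mono hKU)
    refine ⟨(1 + M ^ 2) ^ (γ / 2) * M, fun n z hz => ?_⟩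
    unfold Phi
    rw [norm_smul, Real.norm_eq_abs, abs_of_nonneg (by positivity)]
    exact mul_le_mul (T0 n _ M (hM z hz)) (hM z hz) (norm_nonneg _) (by positivity)
  · intro K hKU hK
    obtain ⟨M, hM⟩ := hK.exists_bound_of_continuousOn (hVc.mono hKU)
    refine ⟨fun z => (1 + |γ|) * (1 + M ^ 2) ^ (γ / 2) * ‖D z‖,
      (hV.memLpD hKU hK).norm.const_mul _, fun n => ?_⟩
    rw [ae_restrict_iff' hK.measurableSet]
    refine Eventually.of_forall fun z hz => ?_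
    refine (ContinuousLinearMap.opNorm_comp_le _ _).trans
      (mul_le_mul_of_nonneg_right ?_ (norm_nonneg _))
    have h1 := dl_pos n
    refine (norm_dPhi_le (V z) (by positivity)).trans ?_
    exact mul_le_mul_of_nonneg_left (T0 n _ M (hM z hz)) (by positivity)

theorem frame_norm_bounds {s : ℂ} (hs : ‖s‖ = 1) {a : ℝ} (ha : -1 ≤ a) (ha0 : a ≤ 0) (Y : ℂ) :
    ‖Y + (a * dot s Y : ℝ) • s‖ ≤ ‖Y‖ ∧ (1 + a) * ‖Y‖ ≤ ‖Y + (a * dot s Y : ℝ) • s‖ := by
  have hfr := re_im_one hs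
  have e1 : ‖Y‖ ^ 2 = (dot s Y) ^ 2 + (dot (I * s) Y) ^ 2 := by
    rw [norm_sq_dot]
    simp only [dot, mul_re, mul_im, I_re, I_im]
    linear_combination (-(Y.re ^ 2 + Y.im ^ 2)) * hfr
  have e2 : ‖Y + (a * dot s Y : ℝ) • s‖ ^ 2 = ((1 + a) * dot s Y) ^ 2 + (dot (I * s) Y) ^ 2 := by
    have : Y + (a * dot s Y : ℝ) • s = ((1 + a) * dot s Y : ℝ) • s +
        (dot (I * s) Y : ℝ) • (I * s) := by
      conv_lhs => rw [decomp hs Y]
      have h1 := (frame_dots hs (dot s Y) (dot (I * s) Y)).1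
      rw [h1, add_right_comm, ← add_smul]
      congr 2
      ring
    rw [this]
    exact (frame_dots hs _ _).2.2
  constructor
  · refine le_of_sq_le_sq ?_ (norm_nonneg _)
    rw [e1, e2]
    have : (1 + a) ^ 2 ≤ 1 := by nlinarith
    have h2 : ((1 + a) * dot s Y) ^ 2 ≤ 1 * (dot s Y) ^ 2 := by
      rw [mul_pow]; gcongr
    linarith
  · refine le_of_sq_le_sq ?_ (norm_nonneg _)
    rw [mul_pow, e1, e2]
    have : (1 + a) ^ 2 ≤ 1 := by nlinarith
    have h2 : (1 + a) ^ 2 * (dot (I * s) Y) ^ 2 ≤ 1 * (dot (I * s) Y) ^ 2 := by gcongr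
    nlinarith

/-- Domination of the regularised derivative of `G`. -/
theorem dPhi_dom {γ δ : ℝ} (hγ : -1 < γ) (hγ0 : γ ≤ 0) {X : ℂ} {L : ℂ →L[ℝ] ℂ}
    (h0 : X = 0 → L = 0) :
    ‖(dPhi δ γ X).comp L‖ ≤ (1 / (1 + γ)) * ‖(dPhi 0 γ X).comp L‖ := by
  have h1γ : 0 < 1 + γ := by linarith
  by_cases hX : X = 0
  · rw [h0 hX]; simp
  · have hX0 : 0 < ‖X‖ := norm_pos_iff.2 hX
    have hT : 0 < δ ^ 2 + ‖X‖ ^ 2 := by positivity
    obtain ⟨s, hs⟩ : ∃ s : ℂ, s = (‖X‖⁻¹ : ℝ) • X := ⟨_, rfl⟩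
    have hsn : ‖s‖ = 1 := by
      rw [hs, norm_smul, norm_inv, norm_norm]
      exact inv_mul_cancel₀ hX0.ne'
    have hXs : X = (‖X‖ : ℝ) • s := by
      rw [hs, smul_smul, mul_inv_cancel₀ hX0.ne', one_smul]
    refine ContinuousLinearMap.opNorm_le_bound _ (by positivity) fun v => ?_
    rw [ContinuousLinearMap.comp_apply, dPhi_frame_gen hX hXs hsn]
    set T := δ ^ 2 + ‖X‖ ^ 2 with hTdef
    set t := ‖X‖ ^ 2 / T with ht
    have ht0 : 0 ≤ t := by positivity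
    have ht1 : t ≤ 1 := by
      rw [ht, div_le_one hT]; nlinarith [sq_nonneg δ]
    have b1 := (frame_norm_bounds hsn (a := γ * t) (by nlinarith) (by nlinarith) (L v)).1
    have b2 := (frame_norm_bounds hsn (a := γ) (by linarith) hγ0 (L v)).2
    have hle : T ^ (γ / 2) ≤ ‖X‖ ^ γ := by
      rw [← zpow_simp]
      refine Real.rpow_le_rpow_of_nonpos (zpos hX) ?_ (by linarith)
      rw [hTdef]
      nlinarith [sq_nonneg δ]
    have hG : ‖(dPhi 0 γ X).comp L v‖ = ‖X‖ ^ γ * ‖L v + (γ * dot s (L v) : ℝ) • s‖ := by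
      rw [ContinuousLinearMap.comp_apply, dPhi_frame hX hXs, norm_smul, Real.norm_eq_abs,
        abs_of_nonneg (by positivity)]
    calc ‖(T ^ (γ / 2) : ℝ) • (L v + (γ * t * dot s (L v) : ℝ) • s)‖
        = T ^ (γ / 2) * ‖L v + (γ * t * dot s (L v) : ℝ) • s‖ := by
          rw [norm_smul, Real.norm_eq_abs, abs_of_nonneg (by positivity)]
      _ ≤ ‖X‖ ^ γ * ‖L v‖ := by gcongr
      _ = (1 / (1 + γ)) * (‖X‖ ^ γ * ((1 + γ) * ‖L v‖)) := by field_simp
      _ ≤ (1 / (1 + γ)) * (‖X‖ ^ γ * ‖L v + (γ * dot s (L v) : ℝ) • s‖) := by gcongr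
      _ = (1 / (1 + γ)) * ‖(dPhi 0 γ X).comp L v‖ := by rw [hG]
      _ ≤ (1 / (1 + γ)) * (‖(dPhi 0 γ X).comp L‖ * ‖v‖) := by
          gcongr
          exact ContinuousLinearMap.le_opNorm _ _
      _ = _ := by ring

theorem norm_Phi_le {γ δ : ℝ} (hγ0 : γ ≤ 0) (X : ℂ) : ‖Phi δ γ X‖ ≤ ‖Phi 0 γ X‖ := by
  by_cases hX : X = 0
  · simp [Phi, hX]
  · unfold Phi
    rw [norm_smul, norm_smul, Real.norm_eq_abs, Real.norm_eq_abs, abs_of_nonneg (by positivity),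
      abs_of_nonneg (by positivity)]
    refine mul_le_mul_of_nonneg_right ?_ (norm_nonneg _)
    refine Real.rpow_le_rpow_of_nonpos (zpos hX) ?_ (by linarith)
    nlinarith [sq_nonneg δ]

end Pool.Agent.H52.PH
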