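import Pool.Agent.H52.PH.T1b

/-! `V` is in `W^{1,2}`. -/

open MeasureTheory Set Metric Filter Topology ContDiff Complex
open scoped ENNReal

namespace Pool.Agent.H52.PH

theorem integral_norm_rpow_eq {X : Type*} [NormedAddCommGroup X] {p : ℝ} (hp : 1 ≤ p) {f : ℂ → X}
    {μ : Measure ℂ} (hf : AEStronglyMeasurable f μ) :
    ∫ z, ‖f z‖ ^ p ∂μ = (eLpNorm f (ENNReal.ofReal p) μ ^ p).toReal := by
  rw [eLpNorm_ofReal_rpow hp, integral_eq_lintegral_of_nonneg_ae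
    (Eventually.of_forall fun z => by positivity)
    ((hf.norm.aemeasurable.pow_const p).aestronglyMeasurable)]
  congr 1
  refine lintegral_congr fun z => ?_
  rw [← ofReal_norm, ENNReal.ofReal_rpow_of_nonneg (norm_nonneg _) (by linarith)]

theorem integral_norm_rpow_le {X Y : Type*} [NormedAddCommGroup X] [NormedAddCommGroup Y] {p : ℝ}
    (hp : 1 ≤ p) {f : ℂ → X} {g : ℂ → Y} {μ ν : Measure ℂ} {c : ℝ} (hc : 0 ≤ c)
    (hf : AEStronglyMeasurable f μ) (hg : MemLp g (ENNReal.ofReal p) ν)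
    (h : eLpNorm f (ENNReal.ofReal p) μ ≤ ENNReal.ofReal c * eLpNorm g (ENNReal.ofReal p) ν) :
    ∫ z, ‖f z‖ ^ p ∂μ ≤ c ^ p * ∫ z, ‖g z‖ ^ p ∂ν := by
  rw [integral_norm_rpow_eq hp hf, integral_norm_rpow_eq hp hg.aestronglyMeasurable]
  have h1 := ENNReal.rpow_le_rpow h (by linarith : (0 : ℝ) ≤ p)
  rw [ENNReal.mul_rpow_of_nonneg _ _ (by linarith : (0 : ℝ) ≤ p)] at h1
  have h2 := ENNReal.toReal_mono (ENNReal.mul_ne_top
    (ENNReal.rpow_ne_top_of_nonneg (by linarith) ENNReal.ofReal_ne_top)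
    (ENNReal.rpow_ne_top_of_nonneg (by linarith) hg.eLpNorm_ne_top)) h1
  rw [ENNReal.toReal_mul, ENNReal.ofReal_rpow_of_nonneg hc (by linarith),
    ENNReal.toReal_ofReal (by positivity)] at h2
  exact h2

theorem young_aux {p a b : ℝ} (hp : 2 ≤ p) (ha : 0 ≤ a) (hb : 0 ≤ b) :
    a ^ 2 * b ^ (p - 2) ≤ a ^ p + b ^ p := by
  have h1 : ∀ x : ℝ, 0 ≤ x → x ^ 2 * x ^ (p - 2) = x ^ p := by
    intro x hx
    rcases eq_or_lt_of_le hx with h | h
    · rw [← h, Real.zero_rpow (by linarith : p ≠ 0)]; simp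
    · rw [show p - 2 = p - (2 : ℕ) by norm_num, Real.rpow_sub_natCast h.ne']
      field_simp
  have h2 : 0 ≤ a ^ p := by positivity
  have h3 : 0 ≤ b ^ p := by positivity
  rcases le_total a b with h | h
  · calc a ^ 2 * b ^ (p - 2) ≤ b ^ 2 * b ^ (p - 2) := by gcongr
      _ = b ^ p := h1 b hb
      _ ≤ _ := by linarith
  · calc a ^ 2 * b ^ (p - 2) ≤ a ^ 2 * a ^ (p - 2) := by
          gcongr
      _ = a ^ p := h1 a ha
      _ ≤ _ := by linarith

/-- The pointwise inequality behind the energy estimate. -/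
theorem pointwise_energy {p B ξ a ε : ℝ} (hp : 2 ≤ p) (hB : 0 ≤ B) (hξ : 0 ≤ ξ)
    {L : ℂ →L[ℝ] ℝ} (hL : ‖L‖ ≤ B) {X Y : ℂ} (hε : 0 < ε) :
    (2 / p ^ 2) * (ξ ^ 2 * ‖Vmap p X - Vmap p Y‖ ^ 2) ≤
      ((2 * ξ * a) • L + (ξ ^ 2) • (innerSL ℝ X - innerSL ℝ Y)) (flux p X - flux p Y) +
      p ^ 2 * B ^ 2 * ε ^ 2 * (2 * (|a| / ε) ^ p + ‖X‖ ^ p + ‖Y‖ ^ p) := by
  have hp0 : 0 < p := by linarith
  have e1 : ((2 * ξ * a) • L + (ξ ^ 2) • (innerSL ℝ X - innerSL ℝ Y)) (flux p X - flux p Y) =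
      2 * ξ * a * L (flux p X - flux p Y) + ξ ^ 2 * dot (flux p X - flux p Y) (X - Y) := by
    simp only [add_apply, smul_apply, sub_apply, smul_eq_mul, innerSL_apply_apply, inner_eq_dot]
    simp only [dot, sub_re, sub_im]
    ring
  rw [e1]
  set W := ‖Vmap p X - Vmap p Y‖ with hW
  set N := ‖X‖ ^ ((p - 2) / 2) + ‖Y‖ ^ ((p - 2) / 2) with hN
  have hW0 : 0 ≤ W := norm_nonneg _
  have hN0 : 0 ≤ N := by positivity
  have h1 := mono_ineq hp X Y
  have h2 : |L (flux p X - flux p Y)| ≤ B * (W * N) := by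
    have h3 := L.le_opNorm (flux p X - flux p Y)
    rw [Real.norm_eq_abs] at h3
    exact h3.trans (mul_le_mul hL (flux_le hp X Y) (norm_nonneg _) hB)
  have h4 : -(2 * ξ * |a| * (B * (W * N))) ≤ 2 * ξ * a * L (flux p X - flux p Y) := by
    have h5 : |2 * ξ * a * L (flux p X - flux p Y)| ≤ 2 * ξ * |a| * (B * (W * N)) := by
      rw [abs_mul, abs_mul, abs_mul, abs_two, abs_of_nonneg hξ]
      exact mul_le_mul_of_nonneg_left h2 (by positivity)
    exact (abs_le.1 h5).1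
  have h6 : 2 * ξ * |a| * (B * (W * N)) ≤ (2 / p ^ 2) * (ξ ^ 2 * W ^ 2) +
      (p ^ 2 / 2) * (B ^ 2 * |a| ^ 2 * N ^ 2) := by
    have h7 := sq_nonneg ((2 / p) * (ξ * W) - p * (B * |a| * N))
    have h8 : ((2 / p) * (ξ * W) - p * (B * |a| * N)) ^ 2 =
        2 * ((2 / p ^ 2) * (ξ ^ 2 * W ^ 2) + (p ^ 2 / 2) * (B ^ 2 * |a| ^ 2 * N ^ 2) -
          2 * ξ * |a| * (B * (W * N))) := by
      field_simp
      ring
    rw [h8] at h7
    linarith
  have h9 : N ^ 2 ≤ 2 * (‖X‖ ^ (p - 2) + ‖Y‖ ^ (p - 2)) := by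
    rw [← rpow_half_sq (norm_nonneg X), ← rpow_half_sq (norm_nonneg Y), hN]
    nlinarith [sq_nonneg (‖X‖ ^ ((p - 2) / 2) - ‖Y‖ ^ ((p - 2) / 2))]
  have h10 : |a| ^ 2 * N ^ 2 ≤ 2 * ε ^ 2 * (2 * (|a| / ε) ^ p + ‖X‖ ^ p + ‖Y‖ ^ p) := by
    have y1 := young_aux hp (a := |a| / ε) (b := ‖X‖) (by positivity) (norm_nonneg _)
    have y2 := young_aux hp (a := |a| / ε) (b := ‖Y‖) (by positivity) (norm_nonneg _)
    have y3 : |a| ^ 2 = ε ^ 2 * (|a| / ε) ^ 2 := by field_simp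
    calc |a| ^ 2 * N ^ 2 ≤ |a| ^ 2 * (2 * (‖X‖ ^ (p - 2) + ‖Y‖ ^ (p - 2))) := by gcongr
      _ = 2 * ε ^ 2 * ((|a| / ε) ^ 2 * ‖X‖ ^ (p - 2) + (|a| / ε) ^ 2 * ‖Y‖ ^ (p - 2)) := by
          rw [y3]; ring
      _ ≤ 2 * ε ^ 2 * (2 * (|a| / ε) ^ p + ‖X‖ ^ p + ‖Y‖ ^ p) :=
          mul_le_mul_of_nonneg_left (by linarith) (by positivity)
  have h11 : (p ^ 2 / 2) * (B ^ 2 * |a| ^ 2 * N ^ 2) ≤
      p ^ 2 * B ^ 2 * ε ^ 2 * (2 * (|a| / ε) ^ p + ‖X‖ ^ p + ‖Y‖ ^ p) := by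
    have h12 : 0 ≤ p ^ 2 / 2 * B ^ 2 := by positivity
    have := mul_le_mul_of_nonneg_left h10 h12
    calc (p ^ 2 / 2) * (B ^ 2 * |a| ^ 2 * N ^ 2) = p ^ 2 / 2 * B ^ 2 * (|a| ^ 2 * N ^ 2) := by ring
      _ ≤ _ := this
      _ = _ := by ring
  have h13 : (4 / p ^ 2) * W ^ 2 ≤ dot (flux p X - flux p Y) (X - Y) := by
    have h14 : (4 / p ^ 2) * W ^ 2 ≤ (4 / p ^ 2) *
        (p ^ 2 / 4 * dot (flux p X - flux p Y) (X - Y)) := by gcongr
    have h15 : (4 / p ^ 2) * (p ^ 2 / 4 * dot (flux p X - flux p Y) (X - Y)) =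
        dot (flux p X - flux p Y) (X - Y) := by field_simp
    linarith
  have h16 : ξ ^ 2 * ((4 / p ^ 2) * W ^ 2) ≤ ξ ^ 2 * dot (flux p X - flux p Y) (X - Y) := by
    gcongr
  have h17 : ξ ^ 2 * ((4 / p ^ 2) * W ^ 2) = 2 * ((2 / p ^ 2) * (ξ ^ 2 * W ^ 2)) := by ring
  linarith

/-- `V` has a square integrable derivative on balls. -/
theorem vmap_sob {p : ℝ} (hp : 2 ≤ p) {Ω : Set ℂ} (hΩ : IsOpen Ω) {h : ℂ → ℝ} {G : ℂ → ℂ}
    (H : IsPHarmonic p Ω h G) {x : ℂ} {ρ ρ' : ℝ} (hρ : 0 < ρ) (hρρ' : ρ < ρ')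
    (hb : closedBall x ρ' ⊆ Ω) : ∃ D, Sob 2 (ball x ρ) (fun z => Vmap p (G z)) D := by
  have hp0 : 0 < p := by linarith
  have hp1 : 1 ≤ p := by linarith
  set ρ1 := (ρ + ρ') / 2 with hρ1
  set K1 := closedBall x ρ1 with hK1def
  set K2 := closedBall x ρ' with hK2def
  have hK1 : IsCompact K1 := isCompact_closedBall _ _
  have hK2 : IsCompact K2 := isCompact_closedBall _ _
  have hK1m := hK1.measurableSet
  have hK2m := hK2.measurableSet
  have hK12 : K1 ⊆ K2 := closedBall_subset_closedBall (by linarith)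
  have μle : volume.restrict K1 ≤ volume.restrict K2 := Measure.restrict_mono hK12 le_rfl
  let bump : ContDiffBump x := ⟨ρ, ρ1, hρ, by linarith⟩
  have hξ : ContDiff ℝ ∞ (bump : ℂ → ℝ) := bump.contDiff
  have hξK : tsupport (bump : ℂ → ℝ) ⊆ K1 := by rw [bump.tsupport_eq]
  have hξ' : Continuous (fderiv ℝ (bump : ℂ → ℝ)) := hξ.continuous_fderiv (by simp)
  obtain ⟨B0, hB0⟩ := hK1.exists_bound_of_continuousOn hξ'.continuousOn
  set B := max B0 0 with hBdef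
  have hB : 0 ≤ B := le_max_right _ _
  have hBb : ∀ z ∈ K1, ‖fderiv ℝ (bump : ℂ → ℝ) z‖ ≤ B := fun z hz =>
    (hB0 z hz).trans (le_max_left _ _)
  have hS := H.sob hp hΩ
  have mG2 := H.locG K2 hb hK2
  have mh2 := hS.memLp hb hK2
  have mD2 := hS.memLpD hb hK2
  have mV2 := memLp_Vmap hp mG2
  set M := ∫ z in K2, ‖G z‖ ^ p with hM
  have hM0 : 0 ≤ M := by positivity
  refine Pool.Agent.H12.PH.sob_of_diffQuot isOpen_ball ?_ (ENNReal.ofReal (2 * p ^ 4 * B ^ 2 * M))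
    ENNReal.ofReal_ne_top ?_
  · intro K hK hKc
    exact mV2.mono_measure (Measure.restrict_mono (hK.trans (ball_subset_closedBall.trans
      (closedBall_subset_closedBall hρρ'.le))) le_rfl)
  intro K hK hKc
  refine ⟨ρ' - ρ1, by linarith, fun e he => ?_⟩
  rcases eq_or_ne e 0 with rfl | he0
  · simp
  have hε : 0 < ‖e‖ := norm_pos_iff.2 he0
  have hseg : ∀ z ∈ K1, ∀ t ∈ Icc (0 : ℝ) 1, z + t • e ∈ K2 := by
    intro z hz t ht
    rw [hK1def, mem_closedBall_iff_norm] at hz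
    rw [hK2def, mem_closedBall_iff_norm]
    calc ‖z + t • e - x‖ = ‖(z - x) + t • e‖ := by congr 1; ring
      _ ≤ ‖z - x‖ + ‖t • e‖ := norm_add_le _ _
      _ ≤ ρ1 + 1 * ‖e‖ := by
          refine add_le_add hz ?_
          rw [norm_smul, Real.norm_eq_abs, abs_of_nonneg ht.1]
          exact mul_le_mul_of_nonneg_right ht.2 (norm_nonneg _)
      _ ≤ ρ' := by linarith
  have hK12' : ∀ z ∈ K1, z + e ∈ K2 := fun z hz => by simpa using hseg z hz 1 (by simp)
  obtain ⟨hint, hzero⟩ := energy_identity hp hΩ H hK1 hK2 hb hK12 hK12' hξ hξK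
  -- integrable functions
  have mG : MemLp G (ENNReal.ofReal p) (volume.restrict K1) := mG2.mono_measure μle
  have mGe : MemLp (fun z => G (z + e)) (ENNReal.ofReal p) (volume.restrict K1) :=
    memLp_translate hK2m hK12' mG2
  have mh : MemLp (fun z => h (z + e) - h z) (ENNReal.ofReal p) (volume.restrict K1) :=
    (memLp_translate hK2m hK12' mh2).sub (mh2.mono_measure μle)
  have mV : MemLp (fun z => Vmap p (G (z + e)) - Vmap p (G z)) 2 (volume.restrict K1) :=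
    (memLp_translate (f := fun z => Vmap p (G z)) hK2m hK12' mV2).sub (mV2.mono_measure μle)
  have iG : Integrable (fun z => ‖G z‖ ^ p) (volume.restrict K1) := by
    have := mG.integrable_norm_rpow (by simp; linarith) ENNReal.ofReal_ne_top
    rwa [ENNReal.toReal_ofReal hp0.le] at this
  have iGe : Integrable (fun z => ‖G (z + e)‖ ^ p) (volume.restrict K1) := by
    have := mGe.integrable_norm_rpow (by simp; linarith) ENNReal.ofReal_ne_top
    rwa [ENNReal.toReal_ofReal hp0.le] at this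
  have ih : Integrable (fun z => |h (z + e) - h z| ^ p) (volume.restrict K1) := by
    have := mh.integrable_norm_rpow (by simp; linarith) ENNReal.ofReal_ne_top
    rwa [ENNReal.toReal_ofReal hp0.le] at this
  have iV : Integrable (fun z => ‖Vmap p (G (z + e)) - Vmap p (G z)‖ ^ 2)
      (volume.restrict K1) := mV.integrable_norm_pow (by norm_num)
  -- bounds of the three integrals
  have b1 : ∫ z in K1, ‖G z‖ ^ p ≤ M := by
    refine setIntegral_mono_set ?_ (Eventually.of_forall fun z => by positivity) hK12.eventuallyLE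
    have := mG2.integrable_norm_rpow (by simp; linarith) ENNReal.ofReal_ne_top
    rwa [ENNReal.toReal_ofReal hp0.le] at this
  have b2 : ∫ z in K1, ‖G (z + e)‖ ^ p ≤ M := by
    have := integral_norm_rpow_le hp1 (c := 1) zero_le_one mGe.aestronglyMeasurable mG2
      (by rw [ENNReal.ofReal_one, one_mul]
          exact eLpNorm_translate_le hK2m hK12' _ mG2.aestronglyMeasurable)
    simpa using this
  have b3 : ∫ z in K1, |h (z + e) - h z| ^ p ≤ ‖e‖ ^ p * M := by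
    have t := translation_sob hp1 hS hK1m hK2 hb hseg
    have t' : eLpNorm (fun z => innerSL ℝ (G z)) (ENNReal.ofReal p) (volume.restrict K2) =
        eLpNorm G (ENNReal.ofReal p) (volume.restrict K2) := by
      refine eLpNorm_congr_norm_ae (Eventually.of_forall fun z => ?_)
      simp
    rw [t', ← ofReal_norm] at t
    exact integral_norm_rpow_le hp1 (norm_nonneg e) mh.aestronglyMeasurable mG2 t
  -- integrate the pointwise inequality
  have hpt : ∀ z ∈ K1, (2 / p ^ 2) * (bump z ^ 2 * ‖Vmap p (G (z + e)) - Vmap p (G z)‖ ^ 2) ≤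
      tder bump (fun z => h (z + e) - h z) (fun z => innerSL ℝ (G (z + e)) - innerSL ℝ (G z)) z
        (flux p (G (z + e)) - flux p (G z)) +
      p ^ 2 * B ^ 2 * ‖e‖ ^ 2 * (2 * ((1 / ‖e‖ ^ p) * |h (z + e) - h z| ^ p) +
        ‖G (z + e)‖ ^ p + ‖G z‖ ^ p) := by
    intro z hz
    have := pointwise_energy (p := p) (B := B) (ξ := bump z) (a := h (z + e) - h z) hp hB
      bump.nonneg (hBb z hz) (X := G (z + e)) (Y := G z) hε
    rw [Real.div_rpow (abs_nonneg _) (norm_nonneg _)] at this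
    have e2 : |h (z + e) - h z| ^ p / ‖e‖ ^ p = (1 / ‖e‖ ^ p) * |h (z + e) - h z| ^ p := by ring
    rw [e2] at this
    exact this
  have iR : Integrable (fun z => p ^ 2 * B ^ 2 * ‖e‖ ^ 2 *
      (2 * ((1 / ‖e‖ ^ p) * |h (z + e) - h z| ^ p) + ‖G (z + e)‖ ^ p + ‖G z‖ ^ p))
      (volume.restrict K1) :=
    ((((ih.const_mul _).const_mul _).add iGe).add iG).const_mul _
  have iL : Integrable (fun z => (2 / p ^ 2) *
      (bump z ^ 2 * ‖Vmap p (G (z + e)) - Vmap p (G z)‖ ^ 2)) (volume.restrict K1) := by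
    refine Integrable.const_mul ?_ _
    refine iV.mono' ((bump.continuous.pow 2).aestronglyMeasurable.mul iV.aestronglyMeasurable)
      (Eventually.of_forall fun z => ?_)
    rw [Real.norm_eq_abs, abs_of_nonneg (by positivity)]
    have h1 : bump z ≤ 1 := bump.le_one
    have h2 : 0 ≤ bump z := bump.nonneg
    have h3 : bump z ^ 2 ≤ 1 := by nlinarith
    have h4 : 0 ≤ ‖Vmap p (G (z + e)) - Vmap p (G z)‖ ^ 2 := by positivity
    nlinarith
  have I1 := setIntegral_mono_on iL (hint.add iR) hK1m hpt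
  rw [integral_const_mul] at I1
  have I2 : ∫ z in K1, (tder bump (fun z => h (z + e) - h z)
      (fun z => innerSL ℝ (G (z + e)) - innerSL ℝ (G z)) z
        (flux p (G (z + e)) - flux p (G z)) +
      p ^ 2 * B ^ 2 * ‖e‖ ^ 2 * (2 * ((1 / ‖e‖ ^ p) * |h (z + e) - h z| ^ p) +
        ‖G (z + e)‖ ^ p + ‖G z‖ ^ p)) ≤ p ^ 2 * B ^ 2 * ‖e‖ ^ 2 * (4 * M) := by
    have j0 : Integrable (fun z => 2 * ((1 / ‖e‖ ^ p) * |h (z + e) - h z| ^ p))
        (volume.restrict K1) := (ih.const_mul _).const_mul _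
    have j1 : Integrable (fun z => 2 * ((1 / ‖e‖ ^ p) * |h (z + e) - h z| ^ p) +
        ‖G (z + e)‖ ^ p) (volume.restrict K1) := j0.add iGe
    rw [integral_add hint iR, hzero, zero_add, integral_const_mul,
      integral_add j1 iG, integral_add j0 iGe, integral_const_mul, integral_const_mul]
    have b3' : (1 / ‖e‖ ^ p) * ∫ z in K1, |h (z + e) - h z| ^ p ≤ M := by
      calc (1 / ‖e‖ ^ p) * ∫ z in K1, |h (z + e) - h z| ^ p ≤
          (1 / ‖e‖ ^ p) * (‖e‖ ^ p * M) := by gcongr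
        _ = M := by
            have : ‖e‖ ^ p ≠ 0 := (Real.rpow_pos_of_pos hε p).ne'
            field_simp
    refine mul_le_mul_of_nonneg_left ?_ (by positivity)
    linarith
  have I3 : ∫ z in K1, bump z ^ 2 * ‖Vmap p (G (z + e)) - Vmap p (G z)‖ ^ 2 ≤
      2 * p ^ 4 * B ^ 2 * M * ‖e‖ ^ 2 := by
    have h1 := I1.trans I2
    have h2 : (p ^ 2 / 2) * ((2 / p ^ 2) * ∫ z in K1, bump z ^ 2 *
        ‖Vmap p (G (z + e)) - Vmap p (G z)‖ ^ 2) ≤
        (p ^ 2 / 2) * (p ^ 2 * B ^ 2 * ‖e‖ ^ 2 * (4 * M)) :=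
      mul_le_mul_of_nonneg_left h1 (by positivity)
    have h3 : (p ^ 2 / 2) * ((2 / p ^ 2) * ∫ z in K1, bump z ^ 2 *
        ‖Vmap p (G (z + e)) - Vmap p (G z)‖ ^ 2) = ∫ z in K1, bump z ^ 2 *
        ‖Vmap p (G (z + e)) - Vmap p (G z)‖ ^ 2 := by field_simp
    linarith
  have hKK1 : K ⊆ K1 := hK.trans (ball_subset_closedBall.trans
    (closedBall_subset_closedBall (by linarith)))
  calc ∫⁻ z in K, ‖Vmap p (G (z + e)) - Vmap p (G z)‖ₑ ^ 2 =
      ∫⁻ z in K, ENNReal.ofReal (bump z ^ 2 * ‖Vmap p (G (z + e)) - Vmap p (G z)‖ ^ 2) := by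
        refine setLIntegral_congr_fun hKc.measurableSet fun z hz => ?_
        have : bump z = 1 := bump.one_of_mem_closedBall (ball_subset_closedBall (hK hz))
        rw [this, one_pow, one_mul, ← ofReal_norm, ENNReal.ofReal_pow (norm_nonneg _)]
    _ ≤ ∫⁻ z in K1, ENNReal.ofReal (bump z ^ 2 * ‖Vmap p (G (z + e)) - Vmap p (G z)‖ ^ 2) :=
        lintegral_mono' (Measure.restrict_mono hKK1 le_rfl) le_rfl
    _ = ENNReal.ofReal (∫ z in K1, bump z ^ 2 * ‖Vmap p (G (z + e)) - Vmap p (G z)‖ ^ 2) := by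
        rw [ofReal_integral_eq_lintegral_ofReal]
        · have := iL.const_mul (p ^ 2 / 2)
          refine this.congr (Eventually.of_forall fun z => ?_)
          field_simp
        · exact Eventually.of_forall fun z => by positivity
    _ ≤ ENNReal.ofReal (2 * p ^ 4 * B ^ 2 * M * ‖e‖ ^ 2) := ENNReal.ofReal_le_ofReal I3
    _ = _ := by
        rw [ENNReal.ofReal_mul (by positivity), ENNReal.ofReal_pow (norm_nonneg _), ofReal_norm]

end Pool.Agent.H52.PH
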