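import Pool.Agent.H52.PH.Reg2
import Pool.Agent.H52.PH.T1c
import Pool.Agent.H52.PH.QRF

/-! `G` is in `Sob`. -/

open MeasureTheory Set Metric Filter Topology ContDiff Complex
open scoped ENNReal

namespace Pool.Agent.H52.PH

theorem lintegral_D_le {K : ℝ} {g : ℂ → ℂ} {D : ℂ → ℂ →L[ℝ] ℂ} {U : Set ℂ} (h : Sob 2 U g D)
    {s : Set ℂ} (hs : IsCompact s) (hsU : s ⊆ U) {t : Set ℂ} (ht : t ⊆ s)
    (hQ : ∀ᵐ z ∂volume.restrict U, QR K (D z)) {A : ℝ}
    (hA : ∫ z in t, -jac (D z) ≤ A) (hK : 0 ≤ K) :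
    ∫⁻ z in t, ‖D z‖ₑ ^ 2 ≤ ENNReal.ofReal (K * A) := by
  have mD := (h.memLpD hsU hs).mono_measure (Measure.restrict_mono ht le_rfl)
  have i1 : Integrable (fun z => ‖D z‖ ^ 2) (volume.restrict t) :=
    mD.integrable_norm_pow (by norm_num)
  have i2 : Integrable (fun z => jac (D z)) (volume.restrict t) := by
    have hc : Continuous (jac : (ℂ →L[ℝ] ℂ) → ℝ) := by
      unfold jac
      have c1 : ∀ v : ℂ, Continuous fun L : ℂ →L[ℝ] ℂ => L v := fun v =>
        (ContinuousLinearMap.apply ℝ ℂ v).continuous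
      exact ((continuous_re.comp (c1 1)).mul (continuous_im.comp (c1 I))).sub
        ((continuous_im.comp (c1 1)).mul (continuous_re.comp (c1 I)))
    refine (i1.const_mul 2).mono' (hc.comp_aestronglyMeasurable mD.aestronglyMeasurable)
      (Eventually.of_forall fun z => ?_)
    have b1 : ‖D z 1‖ ≤ ‖D z‖ := by simpa using (D z).le_opNorm 1
    have b2 : ‖D z I‖ ≤ ‖D z‖ := by simpa using (D z).le_opNorm I
    have c1 := abs_re_le_norm (D z 1)
    have c2 := abs_im_le_norm (D z 1)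
    have c3 := abs_re_le_norm (D z I)
    have c4 := abs_im_le_norm (D z I)
    unfold jac
    rw [Real.norm_eq_abs]
    have n0 := norm_nonneg (D z)
    calc |(D z 1).re * (D z I).im - (D z 1).im * (D z I).re|
        ≤ |(D z 1).re * (D z I).im| + |(D z 1).im * (D z I).re| := abs_sub _ _
      _ = |(D z 1).re| * |(D z I).im| + |(D z 1).im| * |(D z I).re| := by rw [abs_mul, abs_mul]
      _ ≤ ‖D z‖ * ‖D z‖ + ‖D z‖ * ‖D z‖ := by
          gcongr <;> linarith
      _ = _ := by ring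
  have e1 : ∀ z, ‖D z‖ₑ ^ 2 = ENNReal.ofReal (‖D z‖ ^ 2) := by
    intro z
    rw [← ofReal_norm, ENNReal.ofReal_pow (norm_nonneg _)]
  simp_rw [e1]
  rw [← ofReal_integral_eq_lintegral_ofReal i1 (Eventually.of_forall fun z => by positivity)]
  refine ENNReal.ofReal_le_ofReal ?_
  calc ∫ z in t, ‖D z‖ ^ 2 ≤ ∫ z in t, K * -jac (D z) := by
        refine integral_mono_ae i1 (i2.neg.const_mul K) ?_
        exact ae_restrict_of_ae_restrict_of_subset (ht.trans hsU) hQ
    _ = K * ∫ z in t, -jac (D z) := integral_const_mul _ _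
    _ ≤ K * A := by gcongr

theorem G_memLp {m : ℝ} (hm : 1 ≤ m) {U : Set ℂ} (hU : IsOpen U) {V : ℂ → ℂ}
    {D : ℂ → ℂ →L[ℝ] ℂ} (hV : Sob 2 U V D) (hVc : ContinuousOn V U)
    (hst : ∀ᵐ z ∂(volume.restrict U), VStruct m (V z) (D z)) {K : Set ℂ} (hKU : K ⊆ U)
    (hK : IsCompact K) :
    MemLp (fun z => (dPhi 0 (-(m - 1) / (m + 1)) (V z)).comp (D z)) 2 (volume.restrict K) := by
  have h0 : ∀ᵐ z ∂(volume.restrict U), V z = 0 → D z = 0 := by
    filter_upwards [hst] with z hz using hz.1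
  have hm1 : 0 < m + 1 := by linarith
  have hγ0 : -(m - 1) / (m + 1) ≤ 0 := div_nonpos_of_nonpos_of_nonneg (by linarith) hm1.le
  have hγ1 : -1 < -(m - 1) / (m + 1) := by
    rw [lt_div_iff₀ hm1]; linarith
  obtain ⟨γ, hγ⟩ : ∃ γ, γ = -(m - 1) / (m + 1) := ⟨_, rfl⟩
  rw [← hγ] at hγ0 hγ1 ⊢
  have mDU := aesm_comp_dPhi hV hVc h0 γ
  have hQ : ∀ n, ∀ᵐ z ∂(volume.restrict U), QR (m + 1) ((dPhi (dl n) γ (V z)).comp (D z)) := by
    intro n
    filter_upwards [hst] with z hz
    exact qstruct_qr hm (vstruct_comp hm hz (Or.inl hγ))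
  obtain ⟨C, hC0, hC⟩ := qr_caccioppoli (m + 1) (by linarith)
  have hfin : ∫⁻ z in K, ‖(dPhi 0 γ (V z)).comp (D z)‖ₑ ^ 2 < ⊤ := by
    refine hK.induction_on (p := fun s => ∫⁻ z in s, ‖(dPhi 0 γ (V z)).comp (D z)‖ₑ ^ 2 < ⊤)
      (by simp) ?_ ?_ ?_
    · intro s t hst' ht
      exact (lintegral_mono' (Measure.restrict_mono hst' le_rfl) le_rfl).trans_lt ht
    · intro s t hs ht
      exact (lintegral_union_le _ _ _).trans_lt (ENNReal.add_lt_top.2 ⟨hs, ht⟩)
    · intro y hy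
      obtain ⟨ε, hε, hball⟩ := Metric.isOpen_iff.1 hU y (hKU hy)
      set r := ε / 4 with hr
      have hr0 : 0 < r := by positivity
      have hcb : closedBall y (2 * r) ⊆ U :=
        (closedBall_subset_ball (by rw [hr]; linarith)).trans hball
      refine ⟨ball y r, mem_nhdsWithin_of_mem_nhds (ball_mem_nhds y hr0), ?_⟩
      -- uniform bound
      set A := C / (2 * r - r) ^ 2 * ∫ z in ball y (2 * r), ‖Phi 0 γ (V z)‖ ^ 2 with hA
      have cont : ContinuousOn (fun z => ‖Phi 0 γ (V z)‖ ^ 2) U :=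
        (((continuous_Phi0 hγ1).comp_continuousOn hVc).norm).pow 2
      have intG : IntegrableOn (fun z => ‖Phi 0 γ (V z)‖ ^ 2) (ball y (2 * r)) :=
        ((cont.mono hcb).integrableOn_compact (isCompact_closedBall _ _)).mono_set
          ball_subset_closedBall
      have bound : ∀ n, ∫⁻ z in ball y r, ‖(dPhi (dl n) γ (V z)).comp (D z)‖ₑ ^ 2 ≤
          ENNReal.ofReal ((m + 1) * A) := by
        intro n
        have hS := sob_phi_n hV hVc γ n
        have h1 := hC U _ _ y r (2 * r) 0 hU hS (hQ n) hr0 (by linarith) hcb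
        refine lintegral_D_le hS (isCompact_closedBall y (2 * r)) hcb
          ((ball_subset_ball (by linarith)).trans ball_subset_closedBall) (hQ n)
          (h1.trans ?_) hm1.le
        rw [hA]
        refine mul_le_mul_of_nonneg_left ?_ (by positivity)
        refine integral_mono_of_nonneg (Eventually.of_forall fun z => by positivity) intG
          (Eventually.of_forall fun z => ?_)
        simp only [sub_zero]
        exact pow_le_pow_left₀ (norm_nonneg _) (norm_Phi_le hγ0 _) 2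
      have hrU : ball y r ⊆ U :=
        ((ball_subset_ball (by linarith)).trans ball_subset_closedBall).trans hcb
      have h0r : ∀ᵐ z ∂(volume.restrict (ball y r)), V z = 0 → D z = 0 :=
        ae_restrict_of_ae_restrict_of_subset hrU h0
      have fatou : ∫⁻ z in ball y r, ‖(dPhi 0 γ (V z)).comp (D z)‖ₑ ^ 2 ≤
          ENNReal.ofReal ((m + 1) * A) := by
        have e : ∀ᵐ z ∂(volume.restrict (ball y r)), ‖(dPhi 0 γ (V z)).comp (D z)‖ₑ ^ 2 =
            liminf (fun n => ‖(dPhi (dl n) γ (V z)).comp (D z)‖ₑ ^ 2) atTop := by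
          filter_upwards [h0r] with z hz
          have t1 := (continuous_enorm.tendsto _).comp (tendsto_comp_dPhi γ hz)
          have t2 := ENNReal.Tendsto.pow (n := 2) t1
          exact t2.liminf_eq.symm
        rw [lintegral_congr_ae e]
        refine (lintegral_liminf_le' fun n => ?_).trans ?_
        · exact (((sob_phi_n hV hVc γ n).measD.mono_measure
            (Measure.restrict_mono hrU le_rfl)).enorm.pow_const 2)
        · refine liminf_le_of_le (by isBoundedDefault) fun b hb => ?_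
          obtain ⟨n, hn⟩ := hb.exists
          exact hn.trans (bound n)
      exact fatou.trans_lt ENNReal.ofReal_lt_top
  refine ⟨mDU.mono_measure (Measure.restrict_mono hKU le_rfl), ?_⟩
  rw [← eLpNorm_two_sq] at hfin
  by_contra hcon
  rw [not_lt, top_le_iff] at hcon
  rw [hcon] at hfin
  simp at hfin

theorem G_sob {m : ℝ} (hm : 1 ≤ m) {U : Set ℂ} (hU : IsOpen U) {V : ℂ → ℂ}
    {D : ℂ → ℂ →L[ℝ] ℂ} (hV : Sob 2 U V D) (hVc : ContinuousOn V U)
    (hst : ∀ᵐ z ∂(volume.restrict U), VStruct m (V z) (D z)) :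
    Sob 2 U (fun z => Phi 0 (-(m - 1) / (m + 1)) (V z))
      (fun z => (dPhi 0 (-(m - 1) / (m + 1)) (V z)).comp (D z)) := by
  have h0 : ∀ᵐ z ∂(volume.restrict U), V z = 0 → D z = 0 := by
    filter_upwards [hst] with z hz using hz.1
  have hm1 : 0 < m + 1 := by linarith
  have hγ0 : -(m - 1) / (m + 1) ≤ 0 := div_nonpos_of_nonpos_of_nonneg (by linarith) hm1.le
  have hγ1 : -1 < -(m - 1) / (m + 1) := by
    rw [lt_div_iff₀ hm1]; linarith
  refine phi_limit hU hV hVc h0 hγ1 ?_ ?_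
  · intro K hKU hK
    have cont : ContinuousOn (fun z => Phi 0 (-(m - 1) / (m + 1)) (V z)) U :=
      (continuous_Phi0 hγ1).comp_continuousOn hVc
    obtain ⟨C, hC⟩ := hK.exists_bound_of_continuousOn (cont.mono hKU)
    exact ⟨C, fun n z hz => (norm_Phi_le hγ0 _).trans (hC z hz)⟩
  · intro K hKU hK
    refine ⟨fun z => (1 / (1 + -(m - 1) / (m + 1))) *
      ‖(dPhi 0 (-(m - 1) / (m + 1)) (V z)).comp (D z)‖,
      (G_memLp hm hU hV hVc hst hKU hK).norm.const_mul _, fun n => ?_⟩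
    have h0K : ∀ᵐ z ∂(volume.restrict K), V z = 0 → D z = 0 :=
      ae_restrict_of_ae_restrict_of_subset hKU h0
    filter_upwards [h0K] with z hz
    exact dPhi_dom hγ1 hγ0 hz

/-- Regularity: continuous representatives of `G` and `F` with their structure. -/
theorem main_regularity {p : ℝ} (hp : 2 ≤ p) {Ω : Set ℂ} (hΩ : IsOpen Ω) {h : ℂ → ℝ} {G : ℂ → ℂ}
    (H : IsPHarmonic p Ω h G) {x : ℂ} {ρ ρ' : ℝ} (hρ : 0 < ρ) (hρρ' : ρ < ρ')
    (hb : closedBall x ρ' ⊆ Ω) :
    ∃ (G' : ℂ → ℂ) (DG DF : ℂ → ℂ →L[ℝ] ℂ), ContinuousOn G' (ball x ρ) ∧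
      (∀ᵐ z ∂(volume.restrict (ball x ρ)), G z = G' z) ∧
      Sob 2 (ball x ρ) G' DG ∧
      (∀ᵐ z ∂(volume.restrict (ball x ρ)), PStruct (p - 1) (G' z) (DG z)) ∧
      Sob 2 (ball x ρ) (fun z => flux p (G' z)) DF ∧
      (∀ᵐ z ∂(volume.restrict (ball x ρ)), QR p (DF z)) := by
  have hp0 : 0 < p := by linarith
  have hm : 1 ≤ p - 1 := by linarith
  set ρ1 := (ρ + ρ') / 2 with hρ1
  have hb1 : ball x ρ1 ⊆ Ω := (ball_subset_closedBall.trans
    (closedBall_subset_closedBall (by linarith))).trans hb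
  obtain ⟨D, hV⟩ := vmap_sob hp hΩ H (ρ := ρ1) (by linarith) (by linarith) hb
  have hst := vstruct hp H isOpen_ball hb1 hV
  have hQ : ∀ᵐ z ∂(volume.restrict (ball x ρ1)), QR (p - 1 + 1) (D z) := by
    filter_upwards [hst] with z hz
    exact vstruct_qr hm hz
  obtain ⟨V', hV'c, hV'⟩ := qr_cont (by linarith) isOpen_ball hV hQ hρ
    (s₀ := (ρ1 - ρ) / 2) (by linarith)
    (closedBall_subset_ball (by linarith))
  have hsub : ball x ρ ⊆ ball x ρ1 := ball_subset_ball (by linarith)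
  have hV2 : Sob 2 (ball x ρ) V' D := (hV.mono hsub).congr_ae hV' (EventuallyEq.refl _ _)
  have hst2 : ∀ᵐ z ∂(volume.restrict (ball x ρ)), VStruct (p - 1) (V' z) (D z) := by
    filter_upwards [ae_restrict_of_ae_restrict_of_subset hsub hst, hV'] with z h1 h2
    rw [← h2]; exact h1
  have eG : -(p - 1 - 1) / (p - 1 + 1) = -(p - 2) / p := by
    congr 1 <;> ring
  have eF : (p - 1 - 1) / (p - 1 + 1) = (p - 2) / p := by
    congr 1 <;> ring
  have hG := G_sob hm isOpen_ball hV2 hV'c hst2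
  have hF := F_sob hm isOpen_ball hV2 hV'c hst2
  have hγ1 : -1 < -(p - 1 - 1) / (p - 1 + 1) := by
    rw [lt_div_iff₀ (by linarith)]; linarith
  -- every `X` is `Vmap p` of something
  have hinv : ∀ X : ℂ, Vmap p (Phi 0 (-(p - 2) / p) X) = X := by
    intro X
    unfold Vmap
    rw [norm_Phi_zero]
    unfold Phi
    rw [zpow_simp]
    by_cases hX : X = 0
    · simp [hX]
    · have hX0 : 0 < ‖X‖ := norm_pos_iff.2 hX
      rw [smul_smul, ← Real.rpow_add_one hX0.ne', ← Real.rpow_mul hX0.le, ← Real.rpow_add hX0]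
      have : (-(p - 2) / p + 1) * ((p - 2) / 2) + -(p - 2) / p = 0 := by
        field_simp
        ring
      rw [this, Real.rpow_zero, one_smul]
  have hfl : ∀ X : ℂ, flux p (Phi 0 (-(p - 2) / p) X) = Phi 0 ((p - 2) / p) X := by
    intro X
    rw [← Phi_Vmap_flux hp, hinv]
  refine ⟨fun z => Phi 0 (-(p - 1 - 1) / (p - 1 + 1)) (V' z), _,
    fun z => (dPhi 0 ((p - 1 - 1) / (p - 1 + 1)) (V' z)).comp (D z),
    (continuous_Phi0 hγ1).comp_continuousOn hV'c, ?_, hG, ?_, ?_, ?_⟩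
  · filter_upwards [hV'] with z hz
    rw [← hz, eG, Phi_Vmap_id hp]
  · filter_upwards [hst2] with z hz
    exact vstruct_pstruct hm hz
  · have : (fun z => flux p (Phi 0 (-(p - 1 - 1) / (p - 1 + 1)) (V' z))) =
        fun z => Phi 0 ((p - 1 - 1) / (p - 1 + 1)) (V' z) := by
      funext z
      rw [eG, eF, hfl]
    rw [this]
    exact hF
  · filter_upwards [hst2] with z hz
    have h1 := qstruct_qr hm (vstruct_comp (δ := 0) hm hz (Or.inr rfl))
    unfold QR at h1 ⊢
    exact h1.trans (le_of_eq (by ring))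

end Pool.Agent.H52.PH
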