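import Pool.Agent.H52.PH.Defs

/-! Basic properties of the class `Sob`. -/

open MeasureTheory Set Metric Filter Topology ContDiff Complex
open scoped ENNReal

namespace Pool.Agent.H52.PH

variable {E : Type*} [NormedAddCommGroup E] [NormedSpace ℝ E]

theorem memLp_continuous {X : Type*} [NormedAddCommGroup X] {f : ℂ → X} (hf : Continuous f)
    {K : Set ℂ} (hK : IsCompact K) (q : ℝ≥0∞) : MemLp f q (volume.restrict K) := by
  have : IsFiniteMeasure (volume.restrict K) := ⟨by simpa using hK.measure_lt_top⟩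
  obtain ⟨C, hC⟩ := hK.exists_bound_of_continuousOn hf.continuousOn
  refine MemLp.of_bound hf.aestronglyMeasurable C ?_
  rw [ae_restrict_iff' hK.measurableSet]
  exact Eventually.of_forall fun x hx => hC x hx

theorem memLp_of_tendsto {X : Type*} [NormedAddCommGroup X] {f : ℂ → X} {φ : ℕ → ℂ → X}
    {K : Set ℂ} (hK : IsCompact K) {q : ℝ≥0∞} (hφ : ∀ n, Continuous (φ n))
    (hf : AEStronglyMeasurable f (volume.restrict K))
    (h : Tendsto (fun n => eLpNorm (fun z => φ n z - f z) q (volume.restrict K)) atTop (𝓝 0)) :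
    MemLp f q (volume.restrict K) := by
  obtain ⟨n, hn⟩ := (h.eventually (gt_mem_nhds (zero_lt_one : (0 : ℝ≥0∞) < 1))).exists
  have h1 : MemLp (fun z => φ n z - f z) q (volume.restrict K) :=
    ⟨(hφ n).aestronglyMeasurable.sub hf, hn.trans ENNReal.one_lt_top⟩
  have h2 := (memLp_continuous (hφ n) hK q).sub h1
  have e : f = (φ n - fun z => φ n z - f z) := by
    funext z
    simp
  rw [e]
  exact h2

namespace Sob

variable {q : ℝ≥0∞} {U : Set ℂ} {g : ℂ → E} {D : ℂ → ℂ →L[ℝ] E}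

theorem memLp (h : Sob q U g D) {K : Set ℂ} (hKU : K ⊆ U) (hK : IsCompact K) :
    MemLp g q (volume.restrict K) := by
  obtain ⟨φ, hφ, h1, h2⟩ := h.approx K hKU hK
  exact memLp_of_tendsto hK (fun n => (hφ n).continuous)
    (h.meas.mono_measure (Measure.restrict_mono hKU le_rfl)) h1

theorem memLpD (h : Sob q U g D) {K : Set ℂ} (hKU : K ⊆ U) (hK : IsCompact K) :
    MemLp D q (volume.restrict K) := by
  obtain ⟨φ, hφ, h1, h2⟩ := h.approx K hKU hK
  exact memLp_of_tendsto hK (fun n => (hφ n).continuous_fderiv (by simp))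
    (h.measD.mono_measure (Measure.restrict_mono hKU le_rfl)) h2

theorem mono (h : Sob q U g D) {U' : Set ℂ} (hU : U' ⊆ U) : Sob q U' g D where
  meas := h.meas.mono_measure (Measure.restrict_mono hU le_rfl)
  measD := h.measD.mono_measure (Measure.restrict_mono hU le_rfl)
  approx K hK hKc := h.approx K (hK.trans hU) hKc

theorem congr_ae (h : Sob q U g D) {g' : ℂ → E} {D' : ℂ → ℂ →L[ℝ] E}
    (hg : g =ᵐ[volume.restrict U] g') (hD : D =ᵐ[volume.restrict U] D') : Sob q U g' D' where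
  meas := h.meas.congr hg
  measD := h.measD.congr hD
  approx K hK hKc := by
    obtain ⟨φ, hφ, h1, h2⟩ := h.approx K hK hKc
    have e1 : g =ᵐ[volume.restrict K] g' := ae_restrict_of_ae_restrict_of_subset hK hg
    have e2 : D =ᵐ[volume.restrict K] D' := ae_restrict_of_ae_restrict_of_subset hK hD
    refine ⟨φ, hφ, ?_, ?_⟩
    · refine h1.congr fun n => eLpNorm_congr_ae ?_
      filter_upwards [e1] with z hz
      rw [hz]
    · refine h2.congr fun n => eLpNorm_congr_ae ?_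
      filter_upwards [e2] with z hz
      rw [hz]

end Sob

/-- `L^1` convergence from `L^q` convergence on a compact set, with a bounded weight. -/
theorem tendsto_integral_bounded {X Y : Type*} [NormedAddCommGroup X] [NormedSpace ℝ X]
    [NormedAddCommGroup Y] [NormedSpace ℝ Y]
    {K : Set ℂ} (hK : IsCompact K) {q : ℝ≥0∞} (hq : 1 ≤ q) {u : ℂ → X} {φ : ℕ → ℂ → X}
    (hu : MemLp u q (volume.restrict K)) (hφ : ∀ n, MemLp (φ n) q (volume.restrict K))
    (h : Tendsto (fun n => eLpNorm (fun z => φ n z - u z) q (volume.restrict K)) atTop (𝓝 0))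
    {w : ℂ → X →L[ℝ] Y} (hw : AEStronglyMeasurable w (volume.restrict K)) {C : ℝ}
    (hC : ∀ᵐ z ∂(volume.restrict K), ‖w z‖ ≤ C) :
    Tendsto (fun n => ∫ z in K, w z (φ n z)) atTop (𝓝 (∫ z in K, w z (u z))) := by
  have : IsFiniteMeasure (volume.restrict K) := ⟨by simpa using hK.measure_lt_top⟩
  have hint : ∀ f : ℂ → X, MemLp f q (volume.restrict K) →
      Integrable (fun z => w z (f z)) (volume.restrict K) := by
    intro f hf
    have hf1 : Integrable f (volume.restrict K) := (hf.mono_exponent hq).integrable le_rfl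
    refine Integrable.mono' (hf1.norm.const_mul C) ?_ ?_
    · exact (isBoundedBilinearMap_apply (𝕜 := ℝ) (E := X) (F := Y)).continuous.comp_aestronglyMeasurable
        (hw.prodMk hf1.aestronglyMeasurable)
    · filter_upwards [hC] with z hz
      exact ((w z).le_opNorm _).trans (mul_le_mul_of_nonneg_right hz (norm_nonneg _))
  refine tendsto_integral_of_L1 _ (hint u hu).aestronglyMeasurable
    (Eventually.of_forall fun n => hint _ (hφ n)) ?_
  -- bound
  have hb : ∀ n, ∫⁻ z in K, ‖w z (φ n z) - w z (u z)‖ₑ ≤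
      ENNReal.ofReal C * (eLpNorm (fun z => φ n z - u z) q (volume.restrict K) *
        (volume.restrict K) univ ^ (1 / (1 : ℝ≥0∞).toReal - 1 / q.toReal)) := by
    intro n
    have h1 : ∫⁻ z in K, ‖w z (φ n z) - w z (u z)‖ₑ ≤
        ∫⁻ z in K, ENNReal.ofReal C * ‖φ n z - u z‖ₑ := by
      refine lintegral_mono_ae ?_
      filter_upwards [hC] with z hz
      rw [← map_sub]
      have h3 := (w z).le_opENorm (φ n z - u z)
      refine h3.trans (mul_le_mul_left ?_ _)
      rw [← ofReal_norm]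
      exact ENNReal.ofReal_le_ofReal hz
    refine h1.trans ?_
    rw [lintegral_const_mul' _ _ ENNReal.ofReal_ne_top]
    refine mul_le_mul_right ?_ _
    rw [← eLpNorm_one_eq_lintegral_enorm]
    exact eLpNorm_le_eLpNorm_mul_rpow_measure_univ hq ((hφ n).sub hu).aestronglyMeasurable
  refine tendsto_of_tendsto_of_tendsto_of_le_of_le tendsto_const_nhds ?_ (fun _ => bot_le) hb
  have hfin : (volume.restrict K) univ ^ (1 / (1 : ℝ≥0∞).toReal - 1 / q.toReal) ≠ ⊤ := by
    refine ENNReal.rpow_ne_top_of_nonneg ?_ (measure_ne_top _ _)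
    rcases eq_or_ne q ⊤ with rfl | hq'
    · simp
    · have : 1 ≤ q.toReal := by
        rw [← ENNReal.toReal_one]
        exact ENNReal.toReal_mono hq' hq
      simp only [ENNReal.toReal_one, div_one, sub_nonneg]
      rw [div_le_one (by linarith)]
      exact this
  have := ENNReal.Tendsto.const_mul (a := ENNReal.ofReal C)
    (ENNReal.Tendsto.mul_const h (Or.inr hfin)) (Or.inr ENNReal.ofReal_ne_top)
  simpa using this

/-- Convergence of the integral of a product of `L^P` and `L^Q` convergent sequences. -/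
theorem tendsto_integral_bilin_gen {X Y Z : Type*} [NormedAddCommGroup X] [NormedSpace ℝ X]
    [NormedAddCommGroup Y] [NormedSpace ℝ Y] [NormedAddCommGroup Z] [NormedSpace ℝ Z]
    (B : X →L[ℝ] Y →L[ℝ] Z) {P Q : ℝ≥0∞} (hP : 1 ≤ P) (hQ : 1 ≤ Q) [ENNReal.HolderTriple P Q 1]
    {μ : Measure ℂ} {u : ℂ → X} {φ : ℕ → ℂ → X} {v : ℂ → Y} {ψ : ℕ → ℂ → Y}
    (hu : MemLp u P μ) (hφ : ∀ n, MemLp (φ n) P μ)
    (h : Tendsto (fun n => eLpNorm (fun z => φ n z - u z) P μ) atTop (𝓝 0))
    (hv : MemLp v Q μ) (hψ : ∀ n, MemLp (ψ n) Q μ)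
    (h' : Tendsto (fun n => eLpNorm (fun z => ψ n z - v z) Q μ) atTop (𝓝 0)) :
    Tendsto (fun n => ∫ z, B (φ n z) (ψ n z) ∂μ) atTop (𝓝 (∫ z, B (u z) (v z) ∂μ)) := by
  have key : ∀ (a : ℂ → X) (b : ℂ → Y), MemLp a P μ → MemLp b Q μ →
      eLpNorm (fun z => B (a z) (b z)) 1 μ ≤ ENNReal.ofReal ‖B‖ * eLpNorm a P μ * eLpNorm b Q μ := by
    intro a b ha hb
    have := eLpNorm_le_eLpNorm_mul_eLpNorm'_of_norm (p := P) (q := Q) (r := 1)
      ha.aestronglyMeasurable hb.aestronglyMeasurable (fun x y => B x y) ‖B‖₊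
      (Eventually.of_forall fun z => by simpa using B.le_opNorm₂ (a z) (b z))
    refine this.trans (le_of_eq ?_)
    congr 2
    simp only [ENNReal.ofReal]
    congr 1
    exact (norm_toNNReal (a := B)).symm
  have hmeas : ∀ (a : ℂ → X) (b : ℂ → Y), MemLp a P μ → MemLp b Q μ →
      AEStronglyMeasurable (fun z => B (a z) (b z)) μ := fun a b ha hb =>
    B.aestronglyMeasurable_comp₂ ha.aestronglyMeasurable hb.aestronglyMeasurable
  have hint : ∀ (a : ℂ → X) (b : ℂ → Y), MemLp a P μ → MemLp b Q μ →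
      Integrable (fun z => B (a z) (b z)) μ := fun a b ha hb => by
    rw [← memLp_one_iff_integrable]
    refine ⟨hmeas a b ha hb, (key a b ha hb).trans_lt ?_⟩
    exact ENNReal.mul_lt_top (ENNReal.mul_lt_top ENNReal.ofReal_lt_top ha.eLpNorm_lt_top)
      hb.eLpNorm_lt_top
  refine tendsto_integral_of_L1 _ (hint u v hu hv).aestronglyMeasurable
    (Eventually.of_forall fun n => hint _ _ (hφ n) (hψ n)) ?_
  have hb : ∀ n, ∫⁻ z, ‖B (φ n z) (ψ n z) - B (u z) (v z)‖ₑ ∂μ ≤
      ENNReal.ofReal ‖B‖ * eLpNorm (fun z => φ n z - u z) P μ *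
        (eLpNorm (fun z => ψ n z - v z) Q μ + eLpNorm v Q μ) +
      ENNReal.ofReal ‖B‖ * eLpNorm u P μ * eLpNorm (fun z => ψ n z - v z) Q μ := by
    intro n
    have e1 : (fun z => B (φ n z) (ψ n z) - B (u z) (v z)) =
        (fun z => B (φ n z - u z) (ψ n z)) + fun z => B (u z) (ψ n z - v z) := by
      funext z
      simp only [Pi.add_apply, map_sub, sub_apply]
      abel
    rw [← eLpNorm_one_eq_lintegral_enorm, e1]
    refine (eLpNorm_add_le (hmeas _ _ ((hφ n).sub hu) (hψ n)) (hmeas _ _ hu ((hψ n).sub hv))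
      le_rfl).trans ?_
    refine add_le_add ((key _ _ ((hφ n).sub hu) (hψ n)).trans ?_) (key _ _ hu ((hψ n).sub hv))
    refine mul_le_mul_right ?_ _
    have e2 : ψ n = (fun z => ψ n z - v z) + v := by
      funext z
      simp
    calc eLpNorm (ψ n) Q μ = eLpNorm ((fun z => ψ n z - v z) + v) Q μ := by rw [← e2]
      _ ≤ _ := eLpNorm_add_le ((hψ n).sub hv).aestronglyMeasurable hv.aestronglyMeasurable hQ
  refine tendsto_of_tendsto_of_tendsto_of_le_of_le tendsto_const_nhds ?_ (fun _ => bot_le) hb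
  have t1 : Tendsto (fun n => ENNReal.ofReal ‖B‖ * eLpNorm (fun z => φ n z - u z) P μ)
      atTop (𝓝 (ENNReal.ofReal ‖B‖ * 0)) :=
    ENNReal.Tendsto.const_mul h (Or.inr ENNReal.ofReal_ne_top)
  have t2 : Tendsto (fun n => eLpNorm (fun z => ψ n z - v z) Q μ + eLpNorm v Q μ)
      atTop (𝓝 (0 + eLpNorm v Q μ)) := h'.add tendsto_const_nhds
  have t3 := ENNReal.Tendsto.mul t1 (Or.inr (by simpa using hv.eLpNorm_ne_top)) t2
    (Or.inr (by simp))
  have t4 : Tendsto (fun n => ENNReal.ofReal ‖B‖ * eLpNorm u P μ *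
      eLpNorm (fun z => ψ n z - v z) Q μ) atTop (𝓝 (ENNReal.ofReal ‖B‖ * eLpNorm u P μ * 0)) :=
    ENNReal.Tendsto.const_mul h' (Or.inr (ENNReal.mul_ne_top ENNReal.ofReal_ne_top
      hu.eLpNorm_ne_top))
  simpa using t3.add t4

theorem integrable_bilin_gen {X Y Z : Type*} [NormedAddCommGroup X] [NormedSpace ℝ X]
    [NormedAddCommGroup Y] [NormedSpace ℝ Y] [NormedAddCommGroup Z] [NormedSpace ℝ Z]
    (B : X →L[ℝ] Y →L[ℝ] Z) {P Q : ℝ≥0∞} [ENNReal.HolderTriple P Q 1] {μ : Measure ℂ}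
    {u : ℂ → X} {v : ℂ → Y}
    (hu : MemLp u P μ) (hv : MemLp v Q μ) : Integrable (fun z => B (u z) (v z)) μ := by
  have := eLpNorm_le_eLpNorm_mul_eLpNorm'_of_norm (p := P) (q := Q) (r := 1)
      hu.aestronglyMeasurable hv.aestronglyMeasurable (fun x y => B x y) ‖B‖₊
      (Eventually.of_forall fun z => by simpa using B.le_opNorm₂ (u z) (v z))
  rw [← memLp_one_iff_integrable]
  refine ⟨B.aestronglyMeasurable_comp₂ hu.aestronglyMeasurable hv.aestronglyMeasurable,
    this.trans_lt ?_⟩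
  exact ENNReal.mul_lt_top (ENNReal.mul_lt_top ENNReal.coe_lt_top hu.eLpNorm_lt_top)
      hv.eLpNorm_lt_top

/-- Convergence of the integral of a product of `L²` convergent sequences. -/
theorem tendsto_integral_bilin {X Y Z : Type*} [NormedAddCommGroup X] [NormedSpace ℝ X]
    [NormedAddCommGroup Y] [NormedSpace ℝ Y] [NormedAddCommGroup Z] [NormedSpace ℝ Z]
    (B : X →L[ℝ] Y →L[ℝ] Z) {μ : Measure ℂ}
    {u : ℂ → X} {φ : ℕ → ℂ → X} {v : ℂ → Y} {ψ : ℕ → ℂ → Y}
    (hu : MemLp u 2 μ) (hφ : ∀ n, MemLp (φ n) 2 μ)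
    (h : Tendsto (fun n => eLpNorm (fun z => φ n z - u z) 2 μ) atTop (𝓝 0))
    (hv : MemLp v 2 μ) (hψ : ∀ n, MemLp (ψ n) 2 μ)
    (h' : Tendsto (fun n => eLpNorm (fun z => ψ n z - v z) 2 μ) atTop (𝓝 0)) :
    Tendsto (fun n => ∫ z, B (φ n z) (ψ n z) ∂μ) atTop (𝓝 (∫ z, B (u z) (v z) ∂μ)) :=
  tendsto_integral_bilin_gen B (by norm_num) (by norm_num) hu hφ h hv hψ h'

theorem integrable_bilin {X Y Z : Type*} [NormedAddCommGroup X] [NormedSpace ℝ X]
    [NormedAddCommGroup Y] [NormedSpace ℝ Y] [NormedAddCommGroup Z] [NormedSpace ℝ Z]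
    (B : X →L[ℝ] Y →L[ℝ] Z) {μ : Measure ℂ} {u : ℂ → X} {v : ℂ → Y}
    (hu : MemLp u 2 μ) (hv : MemLp v 2 μ) : Integrable (fun z => B (u z) (v z)) μ :=
  integrable_bilin_gen B hu hv

end Pool.Agent.H52.PH
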