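import Pool.Agent.H52.PH.Sob1

/-! Integration by parts and chain rule for the class `Sob`. -/

open MeasureTheory Set Metric Filter Topology ContDiff Complex
open scoped ENNReal

namespace Pool.Agent.H52.PH

variable {E : Type*} [NormedAddCommGroup E] [NormedSpace ℝ E]

theorem eLpNorm_two_sq {X : Type*} [NormedAddCommGroup X] (f : ℂ → X) (μ : Measure ℂ) :
    eLpNorm f 2 μ ^ 2 = ∫⁻ z, ‖f z‖ₑ ^ 2 ∂μ := by
  rw [eLpNorm_eq_lintegral_rpow_enorm_toReal two_ne_zero ENNReal.ofNat_ne_top]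
  rw [← ENNReal.rpow_natCast, ← ENNReal.rpow_mul]
  simp

theorem tendsto_sq_zero_iff {a : ℕ → ℝ≥0∞} :
    Tendsto (fun n => a n ^ 2) atTop (𝓝 0) ↔ Tendsto a atTop (𝓝 0) := by
  constructor
  · intro h
    have h2 : Tendsto (fun n => (a n ^ 2) ^ (1 / 2 : ℝ)) atTop (𝓝 ((0 : ℝ≥0∞) ^ (1 / 2 : ℝ))) :=
      (ENNReal.continuous_rpow_const.tendsto _).comp h
    have e : ∀ x : ℝ≥0∞, (x ^ 2) ^ (1 / 2 : ℝ) = x := by
      intro x
      rw [← ENNReal.rpow_natCast, ← ENNReal.rpow_mul]
      simp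
    simp only [e] at h2
    rwa [ENNReal.zero_rpow_of_pos (by norm_num)] at h2
  · intro h
    have := ENNReal.Tendsto.pow (n := 2) h
    simpa using this

/-- dominated convergence in `L²` -/
theorem tendsto_eLpNorm_two_of_dominated {X : Type*} [NormedAddCommGroup X] {μ : Measure ℂ}
    {f : ℕ → ℂ → X} (hf : ∀ n, AEStronglyMeasurable (f n) μ) {b : ℂ → ℝ} (hb : MemLp b 2 μ)
    (hfb : ∀ n, ∀ᵐ z ∂μ, ‖f n z‖ ≤ b z)
    (h : ∀ᵐ z ∂μ, Tendsto (fun n => f n z) atTop (𝓝 0)) :
    Tendsto (fun n => eLpNorm (f n) 2 μ) atTop (𝓝 0) := by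
  rw [← tendsto_sq_zero_iff]
  simp_rw [eLpNorm_two_sq]
  have h0 : (0 : ℝ≥0∞) = ∫⁻ z, 0 ∂μ := by simp
  rw [h0]
  refine tendsto_lintegral_of_dominated_convergence' (fun z => ‖b z‖ₑ ^ 2) ?_ ?_ ?_ ?_
  · exact fun n => (hf n).enorm.pow_const 2
  · intro n
    filter_upwards [hfb n] with z hz
    have : ‖f n z‖ₑ ≤ ‖b z‖ₑ := by
      rw [← ofReal_norm, ← ofReal_norm]
      exact ENNReal.ofReal_le_ofReal (hz.trans (le_abs_self _))
    gcongr
  · rw [← eLpNorm_two_sq]
    exact ENNReal.pow_ne_top hb.eLpNorm_ne_top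
  · filter_upwards [h] with z hz
    have h1 : Tendsto (fun n => ‖f n z‖ₑ) atTop (𝓝 0) := by
      have := (continuous_enorm.tendsto (0 : X)).comp hz
      rw [enorm_zero] at this
      exact this
    have := ENNReal.Tendsto.pow (n := 2) h1
    simpa using this

theorem smooth_ibp {φ : ℂ → ℝ} (hφ : ContDiff ℝ ∞ φ) (hc : HasCompactSupport φ) {ψ : ℂ → E}
    (hψ : ContDiff ℝ ∞ ψ) (v : ℂ) :
    ∫ z, fderiv ℝ φ z v • ψ z = -∫ z, φ z • fderiv ℝ ψ z v := by
  have hφ' : Continuous fun z => fderiv ℝ φ z v :=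
    (hφ.continuous_fderiv (by simp)).clm_apply continuous_const
  have hψ' : Continuous fun z => fderiv ℝ ψ z v :=
    (hψ.continuous_fderiv (by simp)).clm_apply continuous_const
  have h1 : Integrable (fun z => fderiv ℝ φ z v • ψ z) := by
    refine (hφ'.smul hψ.continuous).integrable_of_hasCompactSupport ?_
    have : HasCompactSupport fun z => fderiv ℝ φ z v := hc.fderiv_apply (𝕜 := ℝ) v
    exact this.smul_right
  have h2 : Integrable (fun z => φ z • fderiv ℝ ψ z v) :=
    (hφ.continuous.smul hψ').integrable_of_hasCompactSupport hc.smul_right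
  have h3 : Integrable (fun z => φ z • ψ z) :=
    (hφ.continuous.smul hψ.continuous).integrable_of_hasCompactSupport hc.smul_right
  have := integral_smul_fderiv_eq_neg_fderiv_smul_of_integrable (𝕜 := ℝ) (f := φ) (g := ψ)
    (v := v) (μ := volume) h1 h2 h3 (fun x _ => (hφ.differentiable (by simp)) x)
    (fun x _ => (hψ.differentiable (by simp)) x)
  rw [this, neg_neg]

theorem setIntegral_tsupport {X : Type*} [NormedAddCommGroup X] [NormedSpace ℝ X]
    {φ : ℂ → ℝ} {f : ℂ → X} (hf : ∀ z, z ∉ tsupport φ → f z = 0) :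
    ∫ z in tsupport φ, f z = ∫ z, f z :=
  setIntegral_eq_integral_of_forall_compl_eq_zero hf

theorem fderiv_eq_zero_of_notMem_tsupport {φ : ℂ → E} {z : ℂ} (hz : z ∉ tsupport φ) :
    fderiv ℝ φ z = 0 := by
  have : z ∉ tsupport (fderiv ℝ φ) := fun h => hz (tsupport_fderiv_subset ℝ h)
  exact image_eq_zero_of_notMem_tsupport this

theorem Sob.integral_by_parts {q : ℝ≥0∞} (hq : 1 ≤ q) {U : Set ℂ} {g : ℂ → E}
    {D : ℂ → ℂ →L[ℝ] E} (h : Sob q U g D) {φ : ℂ → ℝ} (hφ : IsTest U φ) (v : ℂ) :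
    ∫ z, fderiv ℝ φ z v • g z = -∫ z, φ z • D z v := by
  obtain ⟨hφs, hφc, hφU⟩ := hφ
  set K := tsupport φ with hK
  have hKc : IsCompact K := hφc
  obtain ⟨ψ, hψ, h1, h2⟩ := h.approx K hφU hKc
  have hφ' : Continuous fun z => fderiv ℝ φ z v :=
    (hφs.continuous_fderiv (by simp)).clm_apply continuous_const
  obtain ⟨C1, hC1⟩ := hKc.exists_bound_of_continuousOn hφ'.continuousOn
  obtain ⟨C2, hC2⟩ := hKc.exists_bound_of_continuousOn hφs.continuous.continuousOn
  have t1 := tendsto_integral_bounded (Y := E) hKc hq (h.memLp hφU hKc)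
    (fun n => memLp_continuous (hψ n).continuous hKc q) h1
    (w := fun z => (fderiv ℝ φ z v) • ContinuousLinearMap.id ℝ E)
    (hφ'.smul continuous_const).aestronglyMeasurable (C := C1) (by
      rw [ae_restrict_iff' hKc.measurableSet]
      refine Eventually.of_forall fun z hz => ?_
      rw [norm_smul]
      calc ‖fderiv ℝ φ z v‖ * ‖ContinuousLinearMap.id ℝ E‖ ≤ ‖fderiv ℝ φ z v‖ * 1 :=
            mul_le_mul_of_nonneg_left ContinuousLinearMap.norm_id_le (norm_nonneg _)
        _ ≤ C1 := by rw [mul_one]; exact hC1 z hz)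
  have : SecondCountableTopologyEither ℂ ((ℂ →L[ℝ] E) →L[ℝ] E) :=
    secondCountableTopologyEither_of_left _ _
  have t2 := tendsto_integral_bounded (Y := E) hKc hq (h.memLpD hφU hKc)
    (fun n => memLp_continuous ((hψ n).continuous_fderiv (by simp)) hKc q) h2
    (w := fun z => (φ z) • ContinuousLinearMap.apply ℝ E v)
    (hφs.continuous.smul continuous_const).aestronglyMeasurable
    (C := C2 * ‖ContinuousLinearMap.apply ℝ E v‖) (by
      rw [ae_restrict_iff' hKc.measurableSet]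
      refine Eventually.of_forall fun z hz => ?_
      rw [norm_smul]
      exact mul_le_mul_of_nonneg_right (hC2 z hz) (norm_nonneg _))
  simp only [_root_.smul_apply, ContinuousLinearMap.id_apply,
    ContinuousLinearMap.apply_apply] at t1 t2
  have e1 : ∀ f : ℂ → E, ∫ z in K, fderiv ℝ φ z v • f z = ∫ z, fderiv ℝ φ z v • f z := by
    intro f
    refine setIntegral_tsupport fun z hz => ?_
    rw [fderiv_eq_zero_of_notMem_tsupport hz]
    simp
  have e2 : ∀ f : ℂ → E, ∫ z in K, φ z • f z = ∫ z, φ z • f z := by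
    intro f
    refine setIntegral_tsupport fun z hz => ?_
    rw [image_eq_zero_of_notMem_tsupport hz]
    simp
  simp only [e1] at t1
  have e3 : ∀ f : ℂ → ℂ →L[ℝ] E, ∫ z in K, φ z • f z v = ∫ z, φ z • f z v :=
    fun f => e2 fun z => f z v
  simp only [e3] at t2
  have t3 := t2.neg
  have e4 : ∀ n, -∫ z, φ z • fderiv ℝ (ψ n) z v = ∫ z, fderiv ℝ φ z v • ψ n z := fun n =>
    (smooth_ibp hφs hφc (hψ n) v).symm
  simp only [e4] at t3
  exact tendsto_nhds_unique t1 t3

/-- `L²` convergence of `Φ ∘ φ_n` for Lipschitz `Φ`. -/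
theorem tendsto_eLpNorm_lipschitz {X Y : Type*} [NormedAddCommGroup X] [NormedAddCommGroup Y]
    {μ : Measure ℂ} {q : ℝ≥0∞} {Φ : X → Y} {L : ℝ}
    (hΦ : ∀ x y, ‖Φ x - Φ y‖ ≤ L * ‖x - y‖) {g : ℂ → X} {φ : ℕ → ℂ → X}
    (h : Tendsto (fun n => eLpNorm (fun z => φ n z - g z) q μ) atTop (𝓝 0)) :
    Tendsto (fun n => eLpNorm (fun z => Φ (φ n z) - Φ (g z)) q μ) atTop (𝓝 0) := by
  have hb : ∀ n, eLpNorm (fun z => Φ (φ n z) - Φ (g z)) q μ ≤
      ENNReal.ofReal L * eLpNorm (fun z => φ n z - g z) q μ := by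
    intro n
    exact eLpNorm_le_mul_eLpNorm_of_ae_le_mul (Eventually.of_forall fun z => hΦ _ _) _
  refine tendsto_of_tendsto_of_tendsto_of_le_of_le tendsto_const_nhds ?_ (fun _ => bot_le) hb
  have := ENNReal.Tendsto.const_mul (a := ENNReal.ofReal L) h (Or.inr ENNReal.ofReal_ne_top)
  simpa using this

/-- Chain rule for smooth compactly supported (more generally: smooth with Lipschitz function and
bounded derivative) functions. -/
theorem Sob.comp_smooth {F : Type*} [NormedAddCommGroup F] [NormedSpace ℝ F] {U : Set ℂ}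
    {g : ℂ → E} {D : ℂ → ℂ →L[ℝ] E} (h : Sob 2 U g D) {Φ : E → F} (hΦ : ContDiff ℝ ∞ Φ)
    {L : ℝ} (hL : ∀ x, ‖fderiv ℝ Φ x‖ ≤ L) :
    Sob 2 U (fun z => Φ (g z)) (fun z => (fderiv ℝ Φ (g z)).comp (D z)) := by
  have hΦ' : Continuous (fderiv ℝ Φ) := hΦ.continuous_fderiv (by simp)
  have hLip : ∀ x y, ‖Φ x - Φ y‖ ≤ L * ‖x - y‖ := fun x y =>
    Convex.norm_image_sub_le_of_norm_fderiv_le (𝕜 := ℝ)
      (fun z _ => (hΦ.differentiable (by simp)) z) (fun z _ => hL z) convex_univ (mem_univ y)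
      (mem_univ x)
  have hcompmeas : ∀ {μ : Measure ℂ} (A : ℂ → E →L[ℝ] F) (B : ℂ → ℂ →L[ℝ] E),
      AEStronglyMeasurable A μ → AEStronglyMeasurable B μ →
      AEStronglyMeasurable (fun z => (A z).comp (B z)) μ := by
    intro μ A B hA hB
    exact (ContinuousLinearMap.compL ℝ ℂ E F).aestronglyMeasurable_comp₂ hA hB
  refine ⟨hΦ.continuous.comp_aestronglyMeasurable h.meas, ?_, ?_⟩
  · exact hcompmeas _ _ (hΦ'.comp_aestronglyMeasurable h.meas) h.measD
  intro K hKU hK
  obtain ⟨φ, hφ, h1, h2⟩ := h.approx K hKU hK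
  have hgm := h.memLp hKU hK
  have hDm := h.memLpD hKU hK
  have hmeas : TendstoInMeasure (volume.restrict K) φ atTop g :=
    tendstoInMeasure_of_tendsto_eLpNorm two_ne_zero
      (fun n => (hφ n).continuous.aestronglyMeasurable) hgm.aestronglyMeasurable h1
  obtain ⟨ns, hns, hae⟩ := hmeas.exists_seq_tendsto_ae
  have h1' := h1.comp hns.tendsto_atTop
  have h2' := h2.comp hns.tendsto_atTop
  refine ⟨fun n z => Φ (φ (ns n) z), fun n => hΦ.comp (hφ _), ?_, ?_⟩
  · exact tendsto_eLpNorm_lipschitz (φ := fun n => φ (ns n)) hLip h1'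
  · have hfd : ∀ n z, fderiv ℝ (fun z => Φ (φ (ns n) z)) z =
        (fderiv ℝ Φ (φ (ns n) z)).comp (fderiv ℝ (φ (ns n)) z) := by
      intro n z
      exact fderiv_comp z ((hΦ.differentiable (by simp)) _) (((hφ _).differentiable (by simp)) z)
    simp only [hfd]
    have m1 : ∀ n, AEStronglyMeasurable (fun z => fderiv ℝ Φ (φ (ns n) z)) (volume.restrict K) :=
      fun n => (hΦ'.comp (hφ _).continuous).aestronglyMeasurable
    have m2 : ∀ n, AEStronglyMeasurable (fun z => fderiv ℝ (φ (ns n)) z) (volume.restrict K) :=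
      fun n => ((hφ _).continuous_fderiv (by simp)).aestronglyMeasurable
    have m3 : AEStronglyMeasurable (fun z => fderiv ℝ Φ (g z)) (volume.restrict K) :=
      hΦ'.comp_aestronglyMeasurable hgm.aestronglyMeasurable
    -- first piece
    have p1 : Tendsto (fun n => eLpNorm (fun z => (fderiv ℝ Φ (φ (ns n) z)).comp
        (fderiv ℝ (φ (ns n)) z - D z)) 2 (volume.restrict K)) atTop (𝓝 0) := by
      have hb : ∀ n, eLpNorm (fun z => (fderiv ℝ Φ (φ (ns n) z)).comp
          (fderiv ℝ (φ (ns n)) z - D z)) 2 (volume.restrict K) ≤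
          ENNReal.ofReal L * eLpNorm (fun z => fderiv ℝ (φ (ns n)) z - D z) 2
            (volume.restrict K) := by
        intro n
        refine eLpNorm_le_mul_eLpNorm_of_ae_le_mul (Eventually.of_forall fun z => ?_) _
        exact (ContinuousLinearMap.opNorm_comp_le _ _).trans
          (mul_le_mul_of_nonneg_right (hL _) (norm_nonneg _))
      refine tendsto_of_tendsto_of_tendsto_of_le_of_le tendsto_const_nhds ?_ (fun _ => bot_le) hb
      have := ENNReal.Tendsto.const_mul (a := ENNReal.ofReal L) h2' (Or.inr ENNReal.ofReal_ne_top)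
      simpa using this
    have p2 : Tendsto (fun n => eLpNorm (fun z => (fderiv ℝ Φ (φ (ns n) z) -
        fderiv ℝ Φ (g z)).comp (D z)) 2 (volume.restrict K)) atTop (𝓝 0) := by
      refine tendsto_eLpNorm_two_of_dominated (b := fun z => (2 * L) * ‖D z‖) ?_
        (hDm.norm.const_mul _) ?_ ?_
      · exact fun n => hcompmeas _ _ ((m1 n).sub m3) hDm.aestronglyMeasurable
      · intro n
        refine Eventually.of_forall fun z => ?_
        refine (ContinuousLinearMap.opNorm_comp_le _ _).trans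
          (mul_le_mul_of_nonneg_right ?_ (norm_nonneg _))
        refine (norm_sub_le _ _).trans ?_
        linarith [hL (φ (ns n) z), hL (g z)]
      · filter_upwards [hae] with z hz
        have t1 : Tendsto (fun n => fderiv ℝ Φ (φ (ns n) z) - fderiv ℝ Φ (g z)) atTop (𝓝 0) := by
          have := ((hΦ'.tendsto (g z)).comp hz).sub_const (fderiv ℝ Φ (g z))
          simpa using this
        have t2 := ((ContinuousLinearMap.compL ℝ ℂ E F).flip (D z)).continuous.tendsto
          (0 : E →L[ℝ] F)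
        have := t2.comp t1
        rw [map_zero] at this
        exact this
    have hsum := p1.add p2
    rw [add_zero] at hsum
    refine tendsto_of_tendsto_of_tendsto_of_le_of_le tendsto_const_nhds hsum
      (fun _ => bot_le) fun n => ?_
    have e : (fun z => (fderiv ℝ Φ (φ (ns n) z)).comp (fderiv ℝ (φ (ns n)) z) -
        (fderiv ℝ Φ (g z)).comp (D z)) =
        (fun z => (fderiv ℝ Φ (φ (ns n) z)).comp (fderiv ℝ (φ (ns n)) z - D z)) +
        fun z => (fderiv ℝ Φ (φ (ns n) z) - fderiv ℝ Φ (g z)).comp (D z) := by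
      funext z
      ext v
      simp
    have a1 : AEStronglyMeasurable (fun z => (fderiv ℝ Φ (φ (ns n) z)).comp
        (fderiv ℝ (φ (ns n)) z - D z)) (volume.restrict K) :=
      hcompmeas (fun z => fderiv ℝ Φ (φ (ns n) z)) (fun z => fderiv ℝ (φ (ns n)) z - D z)
        (m1 n) ((m2 n).sub hDm.aestronglyMeasurable)
    have a2 : AEStronglyMeasurable (fun z => (fderiv ℝ Φ (φ (ns n) z) -
        fderiv ℝ Φ (g z)).comp (D z)) (volume.restrict K) :=
      hcompmeas (fun z => fderiv ℝ Φ (φ (ns n) z) - fderiv ℝ Φ (g z)) D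
        ((m1 n).sub m3) hDm.aestronglyMeasurable
    have key := eLpNorm_add_le (p := 2) a1 a2 (by norm_num)
    rw [← e] at key
    exact key

end Pool.Agent.H52.PH
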