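import Pool.Agent.H52.PH.T2c

/-! Algebra of the structure conditions. -/

open MeasureTheory Set Metric Filter Topology ContDiff Complex
open scoped ENNReal

namespace Pool.Agent.H52.PH

theorem re_im_one {s : ℂ} (hs : ‖s‖ = 1) : s.re ^ 2 + s.im ^ 2 = 1 := by
  have := norm_sq_dot s
  rw [hs] at this
  simp only [dot] at this
  linarith

theorem norm_I_mul (s : ℂ) : ‖I * s‖ = ‖s‖ := by simp

theorem opNorm_sq_le_frame {s : ℂ} (hs : ‖s‖ = 1) (L : ℂ →L[ℝ] ℂ) :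
    ‖L‖ ^ 2 ≤ ‖L s‖ ^ 2 + ‖L (I * s)‖ ^ 2 := by
  have hfr := re_im_one hs
  set A := ‖L s‖
  set B := ‖L (I * s)‖
  have h : ‖L‖ ≤ Real.sqrt (A ^ 2 + B ^ 2) := by
    refine ContinuousLinearMap.opNorm_le_bound _ (Real.sqrt_nonneg _) fun v => ?_
    have e : L v = (dot s v : ℝ) • L s + (dot (I * s) v : ℝ) • L (I * s) := by
      conv_lhs => rw [decomp hs v]
      rw [map_add, map_smul, map_smul]
    have h1 : ‖L v‖ ≤ |dot s v| * A + |dot (I * s) v| * B := by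
      rw [e]
      refine (norm_add_le _ _).trans ?_
      rw [norm_smul, norm_smul, Real.norm_eq_abs, Real.norm_eq_abs]
    have h2 : (dot s v) ^ 2 + (dot (I * s) v) ^ 2 = ‖v‖ ^ 2 := by
      rw [norm_sq_dot]
      simp only [dot, mul_re, mul_im, I_re, I_im]
      linear_combination (v.re ^ 2 + v.im ^ 2) * hfr
    refine le_of_sq_le_sq ?_ (by positivity)
    rw [mul_pow, Real.sq_sqrt (by positivity), ← h2]
    have h3 : ‖L v‖ ^ 2 ≤ (|dot s v| * A + |dot (I * s) v| * B) ^ 2 :=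
      pow_le_pow_left₀ (norm_nonneg _) h1 2
    have h4 := sq_abs (dot s v)
    have h5 := sq_abs (dot (I * s) v)
    refine h3.trans ?_
    rw [← h4, ← h5]
    nlinarith [sq_nonneg (|dot s v| * B - |dot (I * s) v| * A)]
  calc ‖L‖ ^ 2 ≤ (Real.sqrt (A ^ 2 + B ^ 2)) ^ 2 := pow_le_pow_left₀ (norm_nonneg _) h 2
    _ = _ := Real.sq_sqrt (by positivity)

theorem jac_frame {s : ℂ} (hs : ‖s‖ = 1) (L : ℂ →L[ℝ] ℂ) :
    jac L = dot s (L s) * dot (I * s) (L (I * s)) - dot (I * s) (L s) * dot s (L (I * s)) := by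
  have h := re_im_one hs
  rw [clm_apply_eq L s, clm_apply_eq L (I * s)]
  simp only [jac, dot, add_re, add_im, real_smul, mul_re, mul_im, ofReal_re, ofReal_im, I_re, I_im]
  linear_combination (-((L 1).re * (L I).im - (L 1).im * (L I).re) *
    (s.re ^ 2 + s.im ^ 2 + 1)) * h

theorem frame_dots {s : ℂ} (hs : ‖s‖ = 1) (a b : ℝ) :
    dot s (a • s + b • (I * s)) = a ∧ dot (I * s) (a • s + b • (I * s)) = b ∧
      ‖a • s + b • (I * s)‖ ^ 2 = a ^ 2 + b ^ 2 := by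
  have h := re_im_one hs
  refine ⟨?_, ?_, ?_⟩
  · simp only [dot, add_re, add_im, real_smul, mul_re, mul_im, ofReal_re, ofReal_im, I_re, I_im]
    linear_combination a * h
  · simp only [dot, add_re, add_im, real_smul, mul_re, mul_im, ofReal_re, ofReal_im, I_re, I_im]
    linear_combination b * h
  · rw [norm_sq_dot]
    simp only [dot, add_re, add_im, real_smul, mul_re, mul_im, ofReal_re, ofReal_im, I_re, I_im]
    linear_combination (a ^ 2 + b ^ 2) * h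

theorem qstruct_qr {m : ℝ} (hm : 1 ≤ m) {L : ℂ →L[ℝ] ℂ} (h : QStruct m L) : QR (m + 1) L := by
  obtain ⟨s, P, R, ν, μ, hs, hν1, hνm, hμ, h1, h2⟩ := h
  unfold QR
  have e2 : L (I * s) = (μ * ν * R : ℝ) • s + (-(μ * m * P) : ℝ) • (I * s) := by
    rw [h2, neg_smul, sub_eq_add_neg]
  obtain ⟨a1, a2, a3⟩ := frame_dots hs (μ * ν * P) (μ * R)
  obtain ⟨b1, b2, b3⟩ := frame_dots hs (μ * ν * R) (-(μ * m * P))
  refine (opNorm_sq_le_frame hs L).trans ?_
  rw [jac_frame hs, h1, e2, a1, a2, a3, b1, b2, b3]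
  have hν0 : 0 ≤ ν := by linarith
  have h3 : ν ^ 2 + m ^ 2 ≤ (m + 1) * (ν * m) := by nlinarith [mul_nonneg hν0 (sub_nonneg.2 hνm), mul_nonneg (sub_nonneg.2 hν1) (sq_nonneg m)]
  have h4 : 1 + ν ^ 2 ≤ (m + 1) * ν := by nlinarith [mul_nonneg hν0 (sub_nonneg.2 hνm)]
  have h5 : μ ^ 2 * P ^ 2 * (ν ^ 2 + m ^ 2) ≤ μ ^ 2 * P ^ 2 * ((m + 1) * (ν * m)) := by gcongr
  have h6 : μ ^ 2 * R ^ 2 * (1 + ν ^ 2) ≤ μ ^ 2 * R ^ 2 * ((m + 1) * ν) := by gcongr
  nlinarith

theorem dPhi_frame_gen {δ γ : ℝ} {X s : ℂ} (hX : X ≠ 0) (hXs : X = (‖X‖ : ℝ) • s) (hs : ‖s‖ = 1)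
    (Y : ℂ) : dPhi δ γ X Y = ((δ ^ 2 + ‖X‖ ^ 2) ^ (γ / 2) : ℝ) •
      (Y + (γ * (‖X‖ ^ 2 / (δ ^ 2 + ‖X‖ ^ 2)) * dot s Y : ℝ) • s) := by
  have hX0 : 0 < ‖X‖ := norm_pos_iff.2 hX
  have hT : 0 < δ ^ 2 + ‖X‖ ^ 2 := by positivity
  rw [dPhi_apply]
  have h2 : dot X Y = ‖X‖ * dot s Y := by
    conv_lhs => rw [hXs]
    simp only [dot, real_smul, mul_re, mul_im, ofReal_re, ofReal_im]
    ring
  rw [Real.rpow_sub_one hT.ne', h2, smul_add, smul_smul]
  congr 1
  conv_lhs => rw [hXs]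
  rw [smul_smul]
  congr 1
  have : ‖(‖X‖ : ℝ) • s‖ = ‖X‖ := by rw [← hXs]
  rw [this]
  field_simp

/-- Composition with `Φ` of the derivative of `V` has the `QStruct` form. -/
theorem vstruct_comp {m δ γ : ℝ} (hm : 1 ≤ m) {X : ℂ} {L : ℂ →L[ℝ] ℂ} (h : VStruct m X L)
    (hγ : γ = -(m - 1) / (m + 1) ∨ γ = (m - 1) / (m + 1)) :
    QStruct m ((dPhi δ γ X).comp L) := by
  by_cases hX : X = 0
  · rw [h.1 hX]
    refine ⟨1, 0, 0, 1, 0, by simp, le_rfl, hm, le_rfl, ?_, ?_⟩ <;> simp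
  · obtain ⟨s, P, R, hs, hXs, h1, h2⟩ := h.2 hX
    have hX0 : 0 < ‖X‖ := norm_pos_iff.2 hX
    have hT : 0 < δ ^ 2 + ‖X‖ ^ 2 := by positivity
    set T := δ ^ 2 + ‖X‖ ^ 2 with hTdef
    set t := ‖X‖ ^ 2 / T with ht
    have ht0 : 0 ≤ t := by positivity
    have ht1 : t ≤ 1 := by
      rw [ht, div_le_one hT]; nlinarith [sq_nonneg δ]
    have hm1 : 0 < m + 1 := by linarith
    refine ⟨s, P, R, (1 + γ * t) * ((m + 1) / 2), T ^ (γ / 2), hs, ?_, ?_, by positivity, ?_, ?_⟩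
    · rcases hγ with hγ | hγ
      · have : 1 + γ * t ≥ 2 / (m + 1) := by
          rw [hγ]
          have e : 1 + -(m - 1) / (m + 1) * t - 2 / (m + 1) = (m - 1) / (m + 1) * (1 - t) := by
            field_simp; ring
          have : 0 ≤ (m - 1) / (m + 1) * (1 - t) :=
            mul_nonneg (div_nonneg (by linarith) hm1.le) (by linarith)
          linarith
        calc (1 : ℝ) = 2 / (m + 1) * ((m + 1) / 2) := by field_simp
          _ ≤ (1 + γ * t) * ((m + 1) / 2) := by gcongr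
      · have : 1 ≤ 1 + γ * t := by
          have : 0 ≤ γ := by rw [hγ]; exact div_nonneg (by linarith) hm1.le
          nlinarith
        calc (1 : ℝ) ≤ 1 * ((m + 1) / 2) := by linarith
          _ ≤ (1 + γ * t) * ((m + 1) / 2) := by gcongr
    · rcases hγ with hγ | hγ
      · have : 1 + γ * t ≤ 1 := by
          have : γ ≤ 0 := by
            rw [hγ]; exact div_nonpos_of_nonpos_of_nonneg (by linarith) hm1.le
          nlinarith
        calc (1 + γ * t) * ((m + 1) / 2) ≤ 1 * ((m + 1) / 2) := by gcongr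
          _ ≤ m := by linarith
      · have : 1 + γ * t ≤ 2 * m / (m + 1) := by
          rw [hγ]
          have e : 2 * m / (m + 1) - (1 + (m - 1) / (m + 1) * t) = (m - 1) / (m + 1) * (1 - t) := by
            field_simp; ring
          have : 0 ≤ (m - 1) / (m + 1) * (1 - t) :=
            mul_nonneg (div_nonneg (by linarith) hm1.le) (by linarith)
          linarith
        calc (1 + γ * t) * ((m + 1) / 2) ≤ 2 * m / (m + 1) * ((m + 1) / 2) := by gcongr
          _ = m := by field_simp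
    · rw [ContinuousLinearMap.comp_apply, dPhi_frame_gen hX hXs hs, h1]
      obtain ⟨a1, a2, a3⟩ := frame_dots hs ((m + 1) / 2 * P) R
      rw [a1]
      rw [smul_add, smul_add, smul_smul, smul_smul, smul_smul, add_right_comm, ← add_smul]
      congr 2
      ring
    · rw [ContinuousLinearMap.comp_apply, dPhi_frame_gen hX hXs hs, h2]
      obtain ⟨a1, a2, a3⟩ := frame_dots hs ((m + 1) / 2 * R) (-(m * P))
      rw [sub_eq_add_neg, ← neg_smul, a1]
      rw [smul_add, smul_add, smul_smul, smul_smul, smul_smul, add_right_comm, ← add_smul,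
        sub_eq_add_neg, ← neg_smul]
      congr 2
      · ring
      · ring

/-- `PStruct` for the derivative of `G`. -/
theorem vstruct_pstruct {m : ℝ} (hm : 1 ≤ m) {X : ℂ} {L : ℂ →L[ℝ] ℂ} (h : VStruct m X L) :
    PStruct m (Phi 0 (-(m - 1) / (m + 1)) X) ((dPhi 0 (-(m - 1) / (m + 1)) X).comp L) := by
  have hm1 : 0 < m + 1 := by linarith
  by_cases hX : X = 0
  · rw [h.1 hX, hX]
    refine ⟨1, 0, 0, by simp, ?_, ?_, ?_⟩ <;> simp [Phi]
  · obtain ⟨s, P, R, hs, hXs, h1, h2⟩ := h.2 hX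
    have hX0 : 0 < ‖X‖ := norm_pos_iff.2 hX
    set γ := -(m - 1) / (m + 1) with hγ
    refine ⟨s, ‖X‖ ^ γ * P, ‖X‖ ^ γ * R, hs, ?_, ?_, ?_⟩
    · rw [norm_Phi_zero]
      unfold Phi
      rw [zpow_simp]
      conv_lhs => rw [hXs]
      rw [smul_smul]
      have : ‖(‖X‖ : ℝ) • s‖ = ‖X‖ := by rw [← hXs]
      rw [this]
    · rw [ContinuousLinearMap.comp_apply, dPhi_frame hX hXs, h1]
      obtain ⟨a1, a2, a3⟩ := frame_dots hs ((m + 1) / 2 * P) R
      rw [a1, smul_add, smul_add, smul_smul, smul_smul, smul_smul, add_right_comm, ← add_smul]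
      congr 2
      rw [hγ]; field_simp; ring
    · rw [ContinuousLinearMap.comp_apply, dPhi_frame hX hXs, h2]
      obtain ⟨a1, a2, a3⟩ := frame_dots hs ((m + 1) / 2 * R) (-(m * P))
      rw [sub_eq_add_neg, ← neg_smul, a1]
      rw [smul_add, smul_add, smul_smul, smul_smul, smul_smul, add_right_comm, ← add_smul,
        sub_eq_add_neg, ← neg_smul]
      congr 2
      · rw [hγ]; field_simp; ring
      · ring

theorem vstruct_qr {m : ℝ} (hm : 1 ≤ m) {X : ℂ} {L : ℂ →L[ℝ] ℂ} (h : VStruct m X L) :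
    QR (m + 1) L := by
  refine qstruct_qr hm ?_
  by_cases hX : X = 0
  · rw [h.1 hX]
    refine ⟨1, 0, 0, 1, 0, by simp, le_rfl, hm, le_rfl, ?_, ?_⟩ <;> simp
  · obtain ⟨s, P, R, hs, hXs, h1, h2⟩ := h.2 hX
    refine ⟨s, P, R, (m + 1) / 2, 1, hs, by linarith, by linarith, zero_le_one, ?_, ?_⟩
    · rw [h1, one_mul, one_mul]
    · rw [h2, one_mul, one_mul]

end Pool.Agent.H52.PH
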