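import Pool.Agent.H52.PH.T1

/-! Energy identity for translates of a `p`-harmonic function. -/

open MeasureTheory Set Metric Filter Topology ContDiff Complex
open scoped ENNReal

namespace Pool.Agent.H52.PH

theorem holder_pq {p : ℝ} (hp : 2 ≤ p) :
    ENNReal.HolderTriple (ENNReal.ofReal p) (ENNReal.ofReal (p / (p - 1))) 1 := by
  have h : p.HolderConjugate (p / (p - 1)) := Real.HolderConjugate.conjExponent (by linarith)
  exact h.ennrealOfReal

theorem one_le_ofReal {p : ℝ} (hp : 1 ≤ p) : (1 : ℝ≥0∞) ≤ ENNReal.ofReal p := by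
  rw [← ENNReal.ofReal_one]; exact ENNReal.ofReal_le_ofReal hp

/-- `Dw` for the test function `w = ξ² (φ(·+e) - φ)`. -/
theorem fderiv_testfun {ξ φ : ℂ → ℝ} (hξ : ContDiff ℝ ∞ ξ) (hφ : ContDiff ℝ ∞ φ) (e z : ℂ) :
    fderiv ℝ (fun z => ξ z ^ 2 * (φ (z + e) - φ z)) z =
      (2 * ξ z * (φ (z + e) - φ z)) • fderiv ℝ ξ z +
      (ξ z ^ 2) • (fderiv ℝ φ (z + e) - fderiv ℝ φ z) := by
  have h1 : HasFDerivAt ξ (fderiv ℝ ξ z) z := ((hξ.differentiable (by simp)) z).hasFDerivAt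
  have h2 : HasFDerivAt φ (fderiv ℝ φ z) z := ((hφ.differentiable (by simp)) z).hasFDerivAt
  have h3 : HasFDerivAt (fun z => φ (z + e)) (fderiv ℝ φ (z + e)) z := by
    have h4 : HasFDerivAt φ (fderiv ℝ φ (z + e)) (z + e) :=
      ((hφ.differentiable (by simp)) (z + e)).hasFDerivAt
    have h5 : HasFDerivAt (fun z : ℂ => z + e) (ContinuousLinearMap.id ℝ ℂ) z :=
      (hasFDerivAt_id z).add_const e
    have h6 := h4.comp z h5
    rw [ContinuousLinearMap.comp_id] at h6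
    exact h6
  have h6 : HasFDerivAt (fun z => ξ z ^ 2 * (φ (z + e) - φ z)) _ z :=
    (h1.pow 2).mul (h3.sub h2)
  rw [h6.fderiv]
  ext v
  simp only [add_apply, smul_apply, sub_apply, smul_eq_mul]
  ring

/-- The derivative of the test function, abstractly. -/
noncomputable def tder (ξ : ℂ → ℝ) (a : ℂ → ℝ) (b : ℂ → ℂ →L[ℝ] ℝ) (z : ℂ) : ℂ →L[ℝ] ℝ :=
  (2 * ξ z * a z) • fderiv ℝ ξ z + (ξ z ^ 2) • b z

theorem tder_sub (ξ : ℂ → ℝ) (a a' : ℂ → ℝ) (b b' : ℂ → ℂ →L[ℝ] ℝ) (z : ℂ) :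
    tder ξ a b z - tder ξ a' b' z = tder ξ (fun z => a z - a' z) (fun z => b z - b' z) z := by
  unfold tder
  ext v
  simp only [add_apply, smul_apply, sub_apply, smul_eq_mul]
  ring

theorem tder_bound {K : Set ℂ} (hK : IsCompact K) {ξ : ℂ → ℝ} (hξ : ContDiff ℝ ∞ ξ) :
    ∃ B : ℝ, 0 ≤ B ∧ ∀ z ∈ K, ∀ a b, ‖tder ξ a b z‖ ≤ B * ‖a z‖ + B * ‖b z‖ := by
  have hξ' : Continuous (fderiv ℝ ξ) := hξ.continuous_fderiv (by simp)
  have c1 : Continuous fun z => (2 * ξ z) • fderiv ℝ ξ z :=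
    (continuous_const.mul hξ.continuous).smul hξ'
  have c2 : Continuous fun z => ξ z ^ 2 := hξ.continuous.pow 2
  obtain ⟨B1, hB1⟩ := hK.exists_bound_of_continuousOn c1.continuousOn
  obtain ⟨B2, hB2⟩ := hK.exists_bound_of_continuousOn c2.continuousOn
  refine ⟨max 0 (max B1 B2), le_max_left _ _, fun z hz a b => ?_⟩
  unfold tder
  refine (norm_add_le _ _).trans (add_le_add ?_ ?_)
  · have := hB1 z hz
    rw [norm_smul] at this ⊢
    rw [norm_mul (2 * ξ z)]
    calc ‖2 * ξ z‖ * ‖a z‖ * ‖fderiv ℝ ξ z‖ = ‖2 * ξ z‖ * ‖fderiv ℝ ξ z‖ * ‖a z‖ := by ring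
      _ ≤ B1 * ‖a z‖ := mul_le_mul_of_nonneg_right this (norm_nonneg _)
      _ ≤ _ := mul_le_mul_of_nonneg_right ((le_max_left _ _).trans (le_max_right _ _))
        (norm_nonneg _)
  · rw [norm_smul]
    exact mul_le_mul_of_nonneg_right ((hB2 z hz).trans
      ((le_max_right _ _).trans (le_max_right _ _))) (norm_nonneg _)

theorem tder_aesm {μ : Measure ℂ} {ξ : ℂ → ℝ} (hξ : ContDiff ℝ ∞ ξ) {a : ℂ → ℝ}
    {b : ℂ → ℂ →L[ℝ] ℝ} (ha : AEStronglyMeasurable a μ) (hb : AEStronglyMeasurable b μ) :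
    AEStronglyMeasurable (tder ξ a b) μ := by
  have hξ' : Continuous (fderiv ℝ ξ) := hξ.continuous_fderiv (by simp)
  have h1 : AEStronglyMeasurable (fun z => (2 * ξ z * a z) • fderiv ℝ ξ z) μ :=
    (((continuous_const.mul hξ.continuous).aestronglyMeasurable.mul ha)).smul
      hξ'.aestronglyMeasurable
  have h2 : AEStronglyMeasurable (fun z => (ξ z ^ 2) • b z) μ :=
    (hξ.continuous.pow 2).aestronglyMeasurable.smul hb
  exact h1.add h2

theorem tder_eLpNorm {K : Set ℂ} (hK : IsCompact K) {ξ : ℂ → ℝ} (hξ : ContDiff ℝ ∞ ξ)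
    {P : ℝ≥0∞} (hP : 1 ≤ P) :
    ∃ B : ℝ, ∀ a b, AEStronglyMeasurable a (volume.restrict K) →
      AEStronglyMeasurable b (volume.restrict K) →
      eLpNorm (tder ξ a b) P (volume.restrict K) ≤
        ENNReal.ofReal B * (eLpNorm a P (volume.restrict K) + eLpNorm b P (volume.restrict K)) := by
  obtain ⟨B, hB0, hB⟩ := tder_bound hK hξ
  refine ⟨B, fun a b ha hb => ?_⟩
  have h1 : eLpNorm (tder ξ a b) P (volume.restrict K) ≤
      ENNReal.ofReal B * eLpNorm (fun z => ‖a z‖ + ‖b z‖) P (volume.restrict K) := by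
    refine eLpNorm_le_mul_eLpNorm_of_ae_le_mul ?_ _
    rw [ae_restrict_iff' hK.measurableSet]
    refine Eventually.of_forall fun z hz => ?_
    rw [Real.norm_eq_abs, abs_of_nonneg (by positivity)]
    have := hB z hz a b
    linarith
  refine h1.trans (mul_le_mul_right ?_ _)
  have h2 := eLpNorm_tri hP ha.norm hb.norm
  rwa [eLpNorm_norm, eLpNorm_norm] at h2

theorem tder_memLp {K : Set ℂ} (hK : IsCompact K) {ξ : ℂ → ℝ} (hξ : ContDiff ℝ ∞ ξ)
    {P : ℝ≥0∞} (hP : 1 ≤ P) {a : ℂ → ℝ} {b : ℂ → ℂ →L[ℝ] ℝ}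
    (ha : MemLp a P (volume.restrict K)) (hb : MemLp b P (volume.restrict K)) :
    MemLp (tder ξ a b) P (volume.restrict K) := by
  obtain ⟨B, hB⟩ := tder_eLpNorm hK hξ hP
  refine ⟨tder_aesm hξ ha.aestronglyMeasurable hb.aestronglyMeasurable,
    (hB a b ha.aestronglyMeasurable hb.aestronglyMeasurable).trans_lt ?_⟩
  exact ENNReal.mul_lt_top ENNReal.ofReal_lt_top
    (ENNReal.add_lt_top.2 ⟨ha.eLpNorm_lt_top, hb.eLpNorm_lt_top⟩)

/-- Zero integral against the derivative of a smooth test function. -/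
theorem energy_smooth {p : ℝ} (hp : 2 ≤ p) {Ω : Set ℂ} {h : ℂ → ℝ} {G : ℂ → ℂ}
    (H : IsPHarmonic p Ω h G) {K1 K2 : Set ℂ} (hK1 : IsCompact K1) (hK2 : IsCompact K2)
    (hK2Ω : K2 ⊆ Ω) {e : ℂ} (hK12 : K1 ⊆ K2) (hK12' : ∀ z ∈ K1, z + e ∈ K2) {ξ : ℂ → ℝ}
    (hξ : ContDiff ℝ ∞ ξ) (hξK : tsupport ξ ⊆ K1) {φ : ℂ → ℝ} (hφ : ContDiff ℝ ∞ φ) :
    ∫ z in K1, tder ξ (fun z => φ (z + e) - φ z) (fun z => fderiv ℝ φ (z + e) - fderiv ℝ φ z) z
      (flux p (G (z + e)) - flux p (G z)) = 0 := by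
  have hP : (1 : ℝ≥0∞) ≤ ENNReal.ofReal p := one_le_ofReal (by linarith)
  have := holder_pq hp
  have μle : volume.restrict K1 ≤ volume.restrict K2 := Measure.restrict_mono hK12 le_rfl
  have mG2 := H.locG K2 hK2Ω hK2
  have mF2 := memLp_flux hp mG2
  have mF : MemLp (fun z => flux p (G z)) (ENNReal.ofReal (p / (p - 1))) (volume.restrict K1) :=
    mF2.mono_measure μle
  have mFe : MemLp (fun z => flux p (G (z + e))) (ENNReal.ofReal (p / (p - 1)))
      (volume.restrict K1) :=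
    memLp_translate (f := fun z => flux p (G z)) hK2.measurableSet hK12' mF2
  have cφe : Continuous fun z => φ (z + e) :=
    hφ.continuous.comp (continuous_id.add continuous_const)
  have cDφ : Continuous (fderiv ℝ φ) := hφ.continuous_fderiv (by simp)
  have cDφe : Continuous fun z => fderiv ℝ φ (z + e) :=
    cDφ.comp (continuous_id.add continuous_const)
  have mu : MemLp (tder ξ (fun z => φ (z + e) - φ z)
      (fun z => fderiv ℝ φ (z + e) - fderiv ℝ φ z)) (ENNReal.ofReal p) (volume.restrict K1) :=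
    tder_memLp hK1 hξ hP (memLp_continuous (cφe.sub hφ.continuous) hK1 _)
      (memLp_continuous (cDφe.sub cDφ) hK1 _)
  obtain ⟨w, hw⟩ : ∃ w : ℂ → ℝ, w = fun z => ξ z ^ 2 * (φ (z + e) - φ z) := ⟨_, rfl⟩
  have hws : ContDiff ℝ ∞ w := by
    have e1 : ContDiff ℝ ∞ fun z => φ (z + e) := hφ.comp (contDiff_id.add contDiff_const)
    rw [hw]
    exact (hξ.pow 2).mul (e1.sub hφ)
  have hwt : tsupport w ⊆ tsupport ξ := by
    refine closure_mono fun z hz => ?_
    intro h0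
    apply hz
    simp [hw, h0]
  have hwc : HasCompactSupport w := hK1.of_isClosed_subset (isClosed_tsupport w)
    (hwt.trans hξK)
  have hwu : ∀ z, fderiv ℝ w z = tder ξ (fun z => φ (z + e) - φ z)
      (fun z => fderiv ℝ φ (z + e) - fderiv ℝ φ z) z := fun z => by
    rw [hw]; exact fderiv_testfun hξ hφ e z
  have T1 := H.eqn' (φ := w) ⟨hws, hwc, (hwt.trans hξK).trans (hK12.trans hK2Ω)⟩
  have T2 := H.eqn_translate hws hwc (e := e)
    (fun z hz => hK2Ω (hK12' z (hξK (hwt hz))))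
  have s1 : ∀ f : ℂ → ℂ, ∫ z in K1, fderiv ℝ w z (f z) = ∫ z, fderiv ℝ w z (f z) := by
    intro f
    refine setIntegral_eq_integral_of_forall_compl_eq_zero fun z hz => ?_
    rw [fderiv_eq_zero_of_notMem_tsupport (fun h => hz (hξK (hwt h)))]
    simp
  rw [← s1 (fun z => flux p (G z))] at T1
  rw [← s1 (fun z => flux p (G (z + e)))] at T2
  have i1 : Integrable (fun z => tder ξ (fun z => φ (z + e) - φ z)
      (fun z => fderiv ℝ φ (z + e) - fderiv ℝ φ z) z (flux p (G (z + e))))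
      (volume.restrict K1) :=
    integrable_bilin_gen (ContinuousLinearMap.id ℝ (ℂ →L[ℝ] ℝ)) mu mFe
  have i2 : Integrable (fun z => tder ξ (fun z => φ (z + e) - φ z)
      (fun z => fderiv ℝ φ (z + e) - fderiv ℝ φ z) z (flux p (G z))) (volume.restrict K1) :=
    integrable_bilin_gen (ContinuousLinearMap.id ℝ (ℂ →L[ℝ] ℝ)) mu mF
  simp_rw [hwu] at T1 T2
  simp_rw [map_sub]
  rw [integral_sub i1 i2, T1, T2, sub_zero]

theorem tendsto_translate_diff {X : Type*} [NormedAddCommGroup X] {P : ℝ≥0∞} (hP : 1 ≤ P)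
    {K1 K2 : Set ℂ} (hK2m : MeasurableSet K2)
    {e : ℂ} (hK12 : K1 ⊆ K2) (hK12' : ∀ z ∈ K1, z + e ∈ K2)
    {f : ℕ → ℂ → X} {g : ℂ → X} (mf : ∀ n, AEStronglyMeasurable (f n) (volume.restrict K2))
    (mg : AEStronglyMeasurable g (volume.restrict K2))
    (h : Tendsto (fun n => eLpNorm (fun z => f n z - g z) P (volume.restrict K2)) atTop (𝓝 0)) :
    Tendsto (fun n => eLpNorm (fun z => (f n (z + e) - f n z) - (g (z + e) - g z)) P
      (volume.restrict K1)) atTop (𝓝 0) := by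
  have μle : volume.restrict K1 ≤ volume.restrict K2 := Measure.restrict_mono hK12 le_rfl
  have m1 : ∀ n, AEStronglyMeasurable (fun z => f n z - g z) (volume.restrict K2) := fun n =>
    (mf n).sub mg
  have hle : ∀ n, eLpNorm (fun z => (f n (z + e) - f n z) - (g (z + e) - g z)) P
      (volume.restrict K1) ≤ eLpNorm (fun z => f n z - g z) P (volume.restrict K2) +
      eLpNorm (fun z => f n z - g z) P (volume.restrict K2) := fun n => by
    have e1 : (fun z => (f n (z + e) - f n z) - (g (z + e) - g z)) =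
        fun z => (f n (z + e) - g (z + e)) - (f n z - g z) := by
      funext z; abel
    rw [e1]
    refine (eLpNorm_tri_sub hP (aesm_translate (f := fun z => f n z - g z) hK2m hK12' (m1 n))
      ((m1 n).mono_measure μle)).trans ?_
    exact add_le_add (eLpNorm_translate_le (f := fun z => f n z - g z) hK2m hK12' P (m1 n))
      (eLpNorm_mono_measure _ μle)
  have := h.add h
  rw [add_zero] at this
  exact tendsto_of_tendsto_of_tendsto_of_le_of_le tendsto_const_nhds this (fun _ => bot_le) hle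

theorem energy_identity {p : ℝ} (hp : 2 ≤ p) {Ω : Set ℂ} (hΩ : IsOpen Ω) {h : ℂ → ℝ} {G : ℂ → ℂ}
    (H : IsPHarmonic p Ω h G) {K1 K2 : Set ℂ} (hK1 : IsCompact K1) (hK2 : IsCompact K2)
    (hK2Ω : K2 ⊆ Ω) {e : ℂ} (hK12 : K1 ⊆ K2) (hK12' : ∀ z ∈ K1, z + e ∈ K2) {ξ : ℂ → ℝ}
    (hξ : ContDiff ℝ ∞ ξ) (hξK : tsupport ξ ⊆ K1) :
    Integrable (fun z => tder ξ (fun z => h (z + e) - h z)
      (fun z => innerSL ℝ (G (z + e)) - innerSL ℝ (G z)) z
        (flux p (G (z + e)) - flux p (G z))) (volume.restrict K1) ∧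
    ∫ z in K1, tder ξ (fun z => h (z + e) - h z)
      (fun z => innerSL ℝ (G (z + e)) - innerSL ℝ (G z)) z
        (flux p (G (z + e)) - flux p (G z)) = 0 := by
  have hS := H.sob hp hΩ
  have hP : (1 : ℝ≥0∞) ≤ ENNReal.ofReal p := one_le_ofReal (by linarith)
  have hpp : 1 ≤ p / (p - 1) := by rw [le_div_iff₀ (by linarith)]; linarith
  have hQ : (1 : ℝ≥0∞) ≤ ENNReal.ofReal (p / (p - 1)) := one_le_ofReal hpp
  have := holder_pq hp
  obtain ⟨φ, hφ, h1, h2⟩ := hS.approx K2 hK2Ω hK2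
  have hK2m := hK2.measurableSet
  have μle : volume.restrict K1 ≤ volume.restrict K2 := Measure.restrict_mono hK12 le_rfl
  have mh2 := hS.memLp hK2Ω hK2
  have mD2 := hS.memLpD hK2Ω hK2
  have mG2 := H.locG K2 hK2Ω hK2
  have mF2 := memLp_flux hp mG2
  have mh : MemLp h (ENNReal.ofReal p) (volume.restrict K1) := mh2.mono_measure μle
  have mhe : MemLp (fun z => h (z + e)) (ENNReal.ofReal p) (volume.restrict K1) :=
    memLp_translate hK2m hK12' mh2
  have mD : MemLp (fun z => innerSL ℝ (G z)) (ENNReal.ofReal p) (volume.restrict K1) :=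
    mD2.mono_measure μle
  have mDe : MemLp (fun z => innerSL ℝ (G (z + e))) (ENNReal.ofReal p) (volume.restrict K1) :=
    memLp_translate (f := fun z => innerSL ℝ (G z)) hK2m hK12' mD2
  have mF : MemLp (fun z => flux p (G z)) (ENNReal.ofReal (p / (p - 1))) (volume.restrict K1) :=
    mF2.mono_measure μle
  have mFe : MemLp (fun z => flux p (G (z + e))) (ENNReal.ofReal (p / (p - 1)))
      (volume.restrict K1) :=
    memLp_translate (f := fun z => flux p (G z)) hK2m hK12' mF2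
  have mFd : MemLp (fun z => flux p (G (z + e)) - flux p (G z)) (ENNReal.ofReal (p / (p - 1)))
      (volume.restrict K1) := mFe.sub mF
  have cφe : ∀ n, Continuous fun z => φ n (z + e) := fun n =>
    (hφ n).continuous.comp (continuous_id.add continuous_const)
  have cDφ : ∀ n, Continuous (fderiv ℝ (φ n)) := fun n => (hφ n).continuous_fderiv (by simp)
  have cDφe : ∀ n, Continuous fun z => fderiv ℝ (φ n) (z + e) := fun n =>
    (cDφ n).comp (continuous_id.add continuous_const)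
  have ma : ∀ n, MemLp (fun z => φ n (z + e) - φ n z) (ENNReal.ofReal p) (volume.restrict K1) :=
    fun n => memLp_continuous ((cφe n).sub (hφ n).continuous) hK1 _
  have mb : ∀ n, MemLp (fun z => fderiv ℝ (φ n) (z + e) - fderiv ℝ (φ n) z)
      (ENNReal.ofReal p) (volume.restrict K1) :=
    fun n => memLp_continuous ((cDφe n).sub (cDφ n)) hK1 _
  have mu := fun n => tder_memLp hK1 hξ hP (ma n) (mb n)
  have muI := tder_memLp hK1 hξ hP (mhe.sub mh) (mDe.sub mD)
  have ta := tendsto_translate_diff hP hK2m hK12 hK12'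
    (fun n => (hφ n).continuous.aestronglyMeasurable) mh2.aestronglyMeasurable h1
  have tb := tendsto_translate_diff hP hK2m hK12 hK12'
    (fun n => (cDφ n).aestronglyMeasurable) mD2.aestronglyMeasurable h2
  obtain ⟨B, hB⟩ := tder_eLpNorm hK1 hξ hP
  have conv : Tendsto (fun n => eLpNorm (fun z => tder ξ (fun z => φ n (z + e) - φ n z)
      (fun z => fderiv ℝ (φ n) (z + e) - fderiv ℝ (φ n) z) z -
      tder ξ (fun z => h (z + e) - h z) (fun z => innerSL ℝ (G (z + e)) - innerSL ℝ (G z)) z)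
      (ENNReal.ofReal p) (volume.restrict K1)) atTop (𝓝 0) := by
    have hle : ∀ n, eLpNorm (fun z => tder ξ (fun z => φ n (z + e) - φ n z)
      (fun z => fderiv ℝ (φ n) (z + e) - fderiv ℝ (φ n) z) z -
      tder ξ (fun z => h (z + e) - h z) (fun z => innerSL ℝ (G (z + e)) - innerSL ℝ (G z)) z)
      (ENNReal.ofReal p) (volume.restrict K1) ≤ ENNReal.ofReal B *
      (eLpNorm (fun z => (φ n (z + e) - φ n z) - (h (z + e) - h z)) (ENNReal.ofReal p)
        (volume.restrict K1) +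
       eLpNorm (fun z => (fderiv ℝ (φ n) (z + e) - fderiv ℝ (φ n) z) -
        (innerSL ℝ (G (z + e)) - innerSL ℝ (G z))) (ENNReal.ofReal p) (volume.restrict K1)) := by
      intro n
      simp_rw [tder_sub]
      exact hB _ _ ((ma n).sub (mhe.sub mh)).aestronglyMeasurable
        ((mb n).sub (mDe.sub mD)).aestronglyMeasurable
    have lim := ENNReal.Tendsto.const_mul (a := ENNReal.ofReal B) (ta.add tb)
      (Or.inr ENNReal.ofReal_ne_top)
    rw [add_zero, mul_zero] at lim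
    exact tendsto_of_tendsto_of_tendsto_of_le_of_le tendsto_const_nhds lim (fun _ => bot_le) hle
  refine ⟨integrable_bilin_gen (ContinuousLinearMap.id ℝ (ℂ →L[ℝ] ℝ)) muI mFd, ?_⟩
  have fin := tendsto_integral_bilin_gen (ContinuousLinearMap.id ℝ (ℂ →L[ℝ] ℝ)) hP hQ muI mu conv
    mFd (fun _ => mFd) (by simp)
  refine tendsto_nhds_unique fin ?_
  have z0 := fun n => energy_smooth hp H hK1 hK2 hK2Ω hK12 hK12' hξ hξK (hφ n)
  refine (tendsto_const_nhds (x := (0 : ℝ))).congr fun n => ?_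
  exact (z0 n).symm

end Pool.Agent.H52.PH
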