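import Pool.Agent.H52.PH.Phi

/-! Structure of the derivative of `V`. -/

open MeasureTheory Set Metric Filter Topology ContDiff Complex
open scoped ENNReal

namespace Pool.Agent.H52.PH

theorem sob_sq_integrable {U : Set ℂ} {V : ℂ → ℂ} {D : ℂ → ℂ →L[ℝ] ℂ} (hV : Sob 2 U V D)
    {K : Set ℂ} (hK : IsCompact K) (hKU : K ⊆ U) :
    IntegrableOn (fun z => ‖V z‖ ^ 2) K ∧ IntegrableOn (fun z => (1 + ‖V z‖) * ‖D z‖) K := by
  have : IsFiniteMeasure (volume.restrict K) := ⟨by simpa using hK.measure_lt_top⟩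
  have mV := hV.memLp hKU hK
  have mD := hV.memLpD hKU hK
  have i1 : Integrable (fun z => ‖V z‖ ^ 2) (volume.restrict K) :=
    mV.integrable_norm_pow (by norm_num)
  have h1 : MemLp (fun _ : ℂ => (1 : ℝ)) 2 (volume.restrict K) := memLp_const 1
  have m1 : MemLp (fun z => 1 + ‖V z‖) 2 (volume.restrict K) := h1.add mV.norm
  exact ⟨i1, m1.integrable_mul mD.norm⟩

theorem integrable_test_smul {X : Type*} [NormedAddCommGroup X] [NormedSpace ℝ X] {K : Set ℂ}
    (hK : IsCompact K) {c : ℂ → ℝ} (hc : Continuous c) (hcK : ∀ z, z ∉ K → c z = 0) {f : ℂ → X}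
    (hf : IntegrableOn f K) : Integrable (fun z => c z • f z) := by
  have h1 : IntegrableOn (fun z => c z • f z) K := by
    obtain ⟨B, hB⟩ := hK.exists_bound_of_continuousOn hc.continuousOn
    refine (hf.norm.const_mul B).mono' (hc.aestronglyMeasurable.smul hf.aestronglyMeasurable) ?_
    rw [ae_restrict_iff' hK.measurableSet]
    refine Eventually.of_forall fun z hz => ?_
    rw [norm_smul]
    exact mul_le_mul_of_nonneg_right (hB z hz) (norm_nonneg _)
  rw [integrableOn_iff_integrable_of_support_subset] at h1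
  · exact h1
  · intro z hz
    by_contra hz'
    apply hz
    simp [hcK z hz']

theorem aesm_clm_apply {μ : Measure ℂ} {A B : ℂ → ℂ →L[ℝ] ℂ} (hA : AEStronglyMeasurable A μ)
    (hB : AEStronglyMeasurable B μ) (v : ℂ) : AEStronglyMeasurable (fun z => A z (B z v)) μ := by
  have a2 : AEStronglyMeasurable (fun z => B z v) μ :=
    (ContinuousLinearMap.apply ℝ ℂ v).continuous.comp_aestronglyMeasurable hB
  exact (isBoundedBilinearMap_apply (𝕜 := ℝ) (E := ℂ) (F := ℂ)).continuous.comp_aestronglyMeasurable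
      (hA.prodMk a2)

/-- Passing to the limit in the chain rule. -/
theorem weak_limit {U : Set ℂ} {V : ℂ → ℂ} {D : ℂ → ℂ →L[ℝ] ℂ} (hV : Sob 2 U V D)
    {Ψ : ℕ → ℂ → ℂ} (hΨ : ∀ n, ContDiff ℝ ∞ (Ψ n)) (hΨb : ∀ n, ∃ L, ∀ X, ‖fderiv ℝ (Ψ n) X‖ ≤ L)
    {T : ℂ → ℂ} {S : ℂ → ℂ →L[ℝ] ℂ} (hT : ∀ X, Tendsto (fun n => Ψ n X) atTop (𝓝 (T X)))
    (hS : ∀ X, Tendsto (fun n => fderiv ℝ (Ψ n) X) atTop (𝓝 (S X))) {C : ℝ}
    (hC1 : ∀ n X, ‖Ψ n X‖ ≤ C * (1 + ‖X‖ ^ 2)) (hC2 : ∀ n X, ‖fderiv ℝ (Ψ n) X‖ ≤ C * (1 + ‖X‖)) :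
    (∀ K ⊆ U, IsCompact K → ∀ v, IntegrableOn (fun z => S (V z) (D z v)) K) ∧
    ∀ ξ : ℂ → ℝ, IsTest U ξ → ∀ v,
      ∫ z, fderiv ℝ ξ z v • T (V z) = -∫ z, ξ z • S (V z) (D z v) := by
  have hC2S : ∀ X, ‖S X‖ ≤ C * (1 + ‖X‖) := fun X =>
    le_of_tendsto (hS X).norm (Eventually.of_forall fun n => hC2 n _)
  have bnd : ∀ (z v : ℂ) (L : ℂ →L[ℝ] ℂ), ‖L‖ ≤ C * (1 + ‖V z‖) →
      ‖L (D z v)‖ ≤ C * ‖v‖ * ((1 + ‖V z‖) * ‖D z‖) := by
    intro z v L hL
    have hC0 : 0 ≤ C * (1 + ‖V z‖) := (norm_nonneg _).trans hL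
    calc ‖L (D z v)‖ ≤ ‖L‖ * ‖D z v‖ := L.le_opNorm _
      _ ≤ (C * (1 + ‖V z‖)) * (‖D z‖ * ‖v‖) := by
          gcongr
          exact (D z).le_opNorm v
      _ = _ := by ring
  have hint : ∀ K ⊆ U, IsCompact K → ∀ v, IntegrableOn (fun z => S (V z) (D z v)) K := by
    intro K hKU hK v
    obtain ⟨i1, i2⟩ := sob_sq_integrable hV hK hKU
    have mV := (hV.memLp hKU hK).aestronglyMeasurable
    have mD := (hV.memLpD hKU hK).aestronglyMeasurable
    have mS : AEStronglyMeasurable (fun z => S (V z) (D z v)) (volume.restrict K) := by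
      refine aestronglyMeasurable_of_tendsto_ae atTop
        (f := fun n z => fderiv ℝ (Ψ n) (V z) (D z v)) (fun n => ?_) ?_
      · exact aesm_clm_apply (((hΨ n).continuous_fderiv (by simp)).comp_aestronglyMeasurable mV)
          mD v
      · refine Eventually.of_forall fun z => ?_
        exact ((ContinuousLinearMap.apply ℝ ℂ (D z v)).continuous.tendsto (S (V z))).comp
          (hS (V z))
    exact (i2.const_mul (C * ‖v‖)).mono' mS (Eventually.of_forall fun z => bnd z v _ (hC2S _))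
  refine ⟨hint, ?_⟩
  rintro ξ ⟨hξs, hξc, hξU⟩ v
  set K := tsupport ξ with hKdef
  have hK : IsCompact K := hξc
  have : IsFiniteMeasure (volume.restrict K) := ⟨by simpa using hK.measure_lt_top⟩
  obtain ⟨i1, i2⟩ := sob_sq_integrable hV hK hξU
  have mV := (hV.memLp hξU hK).aestronglyMeasurable
  have mD := (hV.memLpD hξU hK).aestronglyMeasurable
  have cξ' : Continuous fun z => fderiv ℝ ξ z v :=
    (hξs.continuous_fderiv (by simp)).clm_apply continuous_const
  obtain ⟨B1, hB1⟩ := hK.exists_bound_of_continuousOn cξ'.continuousOn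
  obtain ⟨B2, hB2⟩ := hK.exists_bound_of_continuousOn hξs.continuous.continuousOn
  have e1 : ∀ f : ℂ → ℂ, ∫ z in K, fderiv ℝ ξ z v • f z = ∫ z, fderiv ℝ ξ z v • f z := by
    intro f
    refine setIntegral_tsupport fun z hz => ?_
    rw [fderiv_eq_zero_of_notMem_tsupport hz]
    simp
  have e2 : ∀ f : ℂ → ℂ, ∫ z in K, ξ z • f z = ∫ z, ξ z • f z := by
    intro f
    refine setIntegral_tsupport fun z hz => ?_
    rw [image_eq_zero_of_notMem_tsupport hz]
    simp
  have bnd2 : ∀ z ∈ K, ∀ L : ℂ →L[ℝ] ℂ, ‖L‖ ≤ C * (1 + ‖V z‖) →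
      ‖ξ z • L (D z v)‖ ≤ B2 * (C * ‖v‖ * ((1 + ‖V z‖) * ‖D z‖)) := by
    intro z hz L hL
    rw [norm_smul]
    exact mul_le_mul (hB2 z hz) (bnd z v L hL) (norm_nonneg _)
      ((norm_nonneg _).trans (hB2 z hz))
  have chain : ∀ n, ∫ z in K, fderiv ℝ ξ z v • Ψ n (V z) =
      -∫ z in K, ξ z • fderiv ℝ (Ψ n) (V z) (D z v) := by
    intro n
    obtain ⟨L, hL⟩ := hΨb n
    have := (hV.comp_smooth (hΨ n) hL).integral_by_parts (by norm_num) ⟨hξs, hξc, hξU⟩ v
    rw [e1 (fun z => Ψ n (V z)), e2 (fun z => fderiv ℝ (Ψ n) (V z) (D z v))]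
    exact this
  have t1 : Tendsto (fun n => ∫ z in K, fderiv ℝ ξ z v • Ψ n (V z)) atTop
      (𝓝 (∫ z in K, fderiv ℝ ξ z v • T (V z))) := by
    refine tendsto_integral_of_dominated_convergence (fun z => B1 * (C * (1 + ‖V z‖ ^ 2)))
      ?_ ?_ ?_ ?_
    · intro n
      exact cξ'.aestronglyMeasurable.smul ((hΨ n).continuous.comp_aestronglyMeasurable mV)
    · exact (((integrable_const _).add i1).const_mul _).const_mul _
    · intro n
      rw [ae_restrict_iff' hK.measurableSet]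
      refine Eventually.of_forall fun z hz => ?_
      rw [norm_smul]
      exact mul_le_mul (hB1 z hz) (hC1 n _) (norm_nonneg _) ((norm_nonneg _).trans (hB1 z hz))
    · exact Eventually.of_forall fun z => (hT (V z)).const_smul _
  have t2 : Tendsto (fun n => ∫ z in K, ξ z • fderiv ℝ (Ψ n) (V z) (D z v)) atTop
      (𝓝 (∫ z in K, ξ z • S (V z) (D z v))) := by
    refine tendsto_integral_of_dominated_convergence
      (fun z => B2 * (C * ‖v‖ * ((1 + ‖V z‖) * ‖D z‖))) ?_ ?_ ?_ ?_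
    · intro n
      exact hξs.continuous.aestronglyMeasurable.smul (aesm_clm_apply
        (((hΨ n).continuous_fderiv (by simp)).comp_aestronglyMeasurable mV) mD v)
    · exact (i2.const_mul _).const_mul _
    · intro n
      rw [ae_restrict_iff' hK.measurableSet]
      exact Eventually.of_forall fun z hz => bnd2 z hz _ (hC2 n _)
    · refine Eventually.of_forall fun z => ?_
      have := ((ContinuousLinearMap.apply ℝ ℂ (D z v)).continuous.tendsto (S (V z))).comp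
        (hS (V z))
      exact this.const_smul (ξ z)
  rw [← e1 (fun z => T (V z)), ← e2 (fun z => S (V z) (D z v))]
  have t1' := t1.congr chain
  exact tendsto_nhds_unique t1' t2.neg

/-- A locally integrable function with zero integral against test functions vanishes. -/
theorem ae_zero_of_test {U : Set ℂ} (hU : IsOpen U) {X : Type*} [NormedAddCommGroup X]
    [NormedSpace ℝ X] [CompleteSpace X] {f : ℂ → X}
    (hf : ∀ K ⊆ U, IsCompact K → IntegrableOn f K)
    (h : ∀ ξ, IsTest U ξ → ∫ z, ξ z • f z = 0) : ∀ᵐ z ∂(volume.restrict U), f z = 0 := by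
  rw [ae_restrict_iff' hU.measurableSet]
  refine hU.ae_eq_zero_of_integral_contDiff_smul_eq_zero ?_ ?_
  · rw [locallyIntegrableOn_iff hU.isLocallyClosed]
    exact fun K hK hKc => hf K hK hKc
  · exact fun g hg hgc hgU => h g ⟨hg, hgc, hgU⟩

theorem bounded_fderiv {X Y : Type*} [NormedAddCommGroup X] [NormedSpace ℝ X]
    [NormedAddCommGroup Y] [NormedSpace ℝ Y] {Φ : X → Y} (h : ContDiff ℝ ∞ Φ)
    (hc : HasCompactSupport Φ) : ∃ L, ∀ x, ‖fderiv ℝ Φ x‖ ≤ L := by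
  have h1 : Continuous (fderiv ℝ Φ) := h.continuous_fderiv (by simp)
  obtain ⟨C, hC⟩ := (hc.fderiv (𝕜 := ℝ)).isCompact.exists_bound_of_continuousOn h1.continuousOn
  refine ⟨max C 0, fun x => ?_⟩
  by_cases hx : x ∈ tsupport (fderiv ℝ Φ)
  · exact (hC x hx).trans (le_max_left _ _)
  · rw [image_eq_zero_of_notMem_tsupport hx]; simp

/-! ### The derivative vanishes on the zero set -/

theorem zero_deriv {U : Set ℂ} (hU : IsOpen U) {V : ℂ → ℂ} {D : ℂ → ℂ →L[ℝ] ℂ}
    (hV : Sob 2 U V D) : ∀ᵐ z ∂(volume.restrict U), V z = 0 → D z = 0 := by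
  obtain ⟨B, hB0, hB⟩ := fderiv_bt_bound
  -- `Ψ_n(X) = b(nX) X`
  set Ψ : ℕ → ℂ → ℂ := fun n X => bt (n + 1) X • X with hΨdef
  have hΨ : ∀ n, ContDiff ℝ ∞ (Ψ n) := fun n => (contDiff_bt _).smul contDiff_id
  have hfd : ∀ n X, fderiv ℝ (Ψ n) X = bt (n + 1) X • ContinuousLinearMap.id ℝ ℂ +
      (fderiv ℝ (bt (n + 1)) X).smulRight X := by
    intro n X
    have h1 : HasFDerivAt (bt (n + 1)) (fderiv ℝ (bt (n + 1)) X) X :=
      ((contDiff_bt _).differentiable (by simp) X).hasFDerivAt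
    have h3 : HasFDerivAt (Ψ n) _ X := h1.smul (hasFDerivAt_id X)
    rw [h3.fderiv]
  have hbd : ∀ n X, ‖fderiv ℝ (Ψ n) X‖ ≤ 1 + B := by
    intro n X
    rw [hfd]
    refine (norm_add_le _ _).trans (add_le_add ?_ ?_)
    · rw [norm_smul, Real.norm_eq_abs, abs_of_nonneg (bt_nonneg _ _)]
      calc bt (n + 1) X * ‖ContinuousLinearMap.id ℝ ℂ‖ ≤ 1 * 1 :=
            mul_le_mul (bt_le_one _ _) ContinuousLinearMap.norm_id_le (norm_nonneg _) zero_le_one
        _ = 1 := one_mul 1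
    · rw [ContinuousLinearMap.norm_smulRight_apply]
      exact hB _ _
  have hpos : ∀ n : ℕ, (0 : ℝ) < n + 1 := fun n => by positivity
  have t1 : Tendsto (fun n : ℕ => (n : ℝ) + 1) atTop atTop :=
    tendsto_atTop_add_const_right _ _ tendsto_natCast_atTop_atTop
  -- eventually zero near nonzero points
  have hev : ∀ X : ℂ, X ≠ 0 → ∀ᶠ n : ℕ in atTop, ∀ᶠ Y in 𝓝 X, Ψ n Y = 0 := by
    intro X hX
    have hX0 : 0 < ‖X‖ := norm_pos_iff.2 hX
    filter_upwards [t1.eventually_gt_atTop (4 / ‖X‖)] with n h1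
    have ev : ∀ᶠ Y in 𝓝 X, ‖X‖ / 2 < ‖Y‖ :=
      (continuous_norm.tendsto X).eventually (lt_mem_nhds (by linarith))
    filter_upwards [ev] with Y hY
    have e1 : bt (n + 1) Y = 0 := by
      apply bt_eq_zero
      rw [abs_of_pos (hpos n)]
      have : 4 / ‖X‖ * (‖X‖ / 2) ≤ (n + 1) * ‖Y‖ := by gcongr
      have h3 : 4 / ‖X‖ * (‖X‖ / 2) = 2 := by field_simp; norm_num
      linarith
    simp [hΨdef, e1]
  set S : ℂ → ℂ →L[ℝ] ℂ := fun X => if X = 0 then ContinuousLinearMap.id ℝ ℂ else 0 with hSdef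
  have hT : ∀ X, Tendsto (fun n => Ψ n X) atTop (𝓝 0) := by
    intro X
    by_cases hX : X = 0
    · simp [hΨdef, hX]
    · refine (tendsto_const_nhds (x := (0 : ℂ))).congr' ?_
      filter_upwards [hev X hX] with n hn
      exact hn.self_of_nhds.symm
  have hS : ∀ X, Tendsto (fun n => fderiv ℝ (Ψ n) X) atTop (𝓝 (S X)) := by
    intro X
    by_cases hX : X = 0
    · have : ∀ n, fderiv ℝ (Ψ n) X = S X := by
        intro n
        rw [hfd, hX]
        have : bt (n + 1) 0 = 1 := bt_eq_one (by simp)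
        rw [this, hSdef]
        ext v
        simp
      simp_rw [this]
      exact tendsto_const_nhds
    · refine (tendsto_const_nhds (x := S X)).congr' ?_
      filter_upwards [hev X hX] with n hn
      have : Ψ n =ᶠ[𝓝 X] fun _ => 0 := hn
      rw [this.fderiv_eq]
      simp [hSdef, hX]
  have hC1 : ∀ n X, ‖Ψ n X‖ ≤ (1 + B) * (1 + ‖X‖ ^ 2) := by
    intro n X
    simp only [hΨdef]
    rw [norm_smul, Real.norm_eq_abs, abs_of_nonneg (bt_nonneg _ _)]
    calc bt (n + 1) X * ‖X‖ ≤ 1 * ‖X‖ := by gcongr; exact bt_le_one _ _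
      _ ≤ (1 + B) * (1 + ‖X‖ ^ 2) := by nlinarith [sq_nonneg (‖X‖ - 1), norm_nonneg X, sq_nonneg ‖X‖]
  have hC2 : ∀ n X, ‖fderiv ℝ (Ψ n) X‖ ≤ (1 + B) * (1 + ‖X‖) := by
    intro n X
    refine (hbd n X).trans ?_
    nlinarith [norm_nonneg X]
  obtain ⟨hint, hw⟩ := weak_limit hV hΨ (fun n => ⟨_, hbd n⟩) hT hS hC1 hC2
  have key : ∀ v, ∀ᵐ z ∂(volume.restrict U), S (V z) (D z v) = 0 := by
    intro v
    refine ae_zero_of_test hU (fun K hK hKc => hint K hK hKc v) fun ξ hξ => ?_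
    have := hw ξ hξ v
    simp only [smul_zero, integral_zero] at this
    exact neg_eq_zero.1 this.symm
  filter_upwards [key 1, key I] with z h1 h2 hz
  simp only [hSdef, hz, if_true, ContinuousLinearMap.id_apply] at h1 h2
  ext v
  rw [clm_apply_eq (D z) v, h1, h2]
  simp

end Pool.Agent.H52.PH
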