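import Pool.Agent.H52.PH.T2

/-! Structure of the derivative of `V`: trace and curl identities. -/

open MeasureTheory Set Metric Filter Topology ContDiff Complex
open scoped ENNReal

namespace Pool.Agent.H52.PH

/-- Trace. -/
noncomputable def tra (L : ℂ →L[ℝ] ℂ) : ℝ := (L 1).re + (L I).im

/-- Antisymmetric part. -/
noncomputable def asy (L : ℂ →L[ℝ] ℂ) : ℝ := (L I).re - (L 1).im

theorem zpow_simp (γ : ℝ) (X : ℂ) : ((0 : ℝ) ^ 2 + ‖X‖ ^ 2) ^ (γ / 2) = ‖X‖ ^ γ := by
  rw [zero_pow two_ne_zero, zero_add, ← Real.rpow_natCast, ← Real.rpow_mul (norm_nonneg X)]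
  congr 1
  push_cast; ring

theorem zpos {X : ℂ} (hX : X ≠ 0) : 0 < (0 : ℝ) ^ 2 + ‖X‖ ^ 2 := by
  have := norm_pos_iff.2 hX
  positivity

theorem norm_Phi_zero (γ : ℝ) (X : ℂ) : ‖Phi 0 γ X‖ = ‖X‖ ^ γ * ‖X‖ := by
  unfold Phi
  rw [norm_smul, Real.norm_eq_abs, zpow_simp, abs_of_nonneg (by positivity)]

/-- The truncation of `Φ` to an annulus. -/
noncomputable def Psi (γ : ℝ) (n : ℕ) (X : ℂ) : ℂ := zt n X • Phi 0 γ X

theorem contDiff_Psi (γ : ℝ) (n : ℕ) : ContDiff ℝ ∞ (Psi γ n) := by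
  refine contDiff_iff_contDiffAt.2 fun X => ?_
  by_cases hX : X = 0
  · have : Psi γ n =ᶠ[𝓝 X] fun _ => 0 := by
      rw [hX]
      filter_upwards [zt_zero_near n] with Y hY
      simp [Psi, hY]
    exact contDiffAt_const.congr_of_eventuallyEq this
  · exact (contDiff_zt n).contDiffAt.smul (contDiffAt_Phi (zpos hX))

theorem fderiv_Psi (γ : ℝ) (n : ℕ) {X : ℂ} (hX : X ≠ 0) : fderiv ℝ (Psi γ n) X =
    zt n X • dPhi 0 γ X + (fderiv ℝ (zt n) X).smulRight (Phi 0 γ X) := by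
  have h1 : HasFDerivAt (zt n) (fderiv ℝ (zt n) X) X :=
    ((contDiff_zt n).differentiable (by simp) X).hasFDerivAt
  have h3 : HasFDerivAt (Psi γ n) _ X := h1.smul (hasFDerivAt_Phi (zpos hX))
  rw [h3.fderiv]

theorem fderiv_Psi_zero (γ : ℝ) (n : ℕ) : fderiv ℝ (Psi γ n) 0 = 0 := by
  have : Psi γ n =ᶠ[𝓝 0] fun _ => 0 := by
    filter_upwards [zt_zero_near n] with Y hY
    simp [Psi, hY]
  rw [this.fderiv_eq]
  simp

theorem compact_Psi (γ : ℝ) (n : ℕ) : HasCompactSupport (Psi γ n) := (zt_compact n).smul_right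

/-- The flux as a function of `V`. -/
theorem Phi_Vmap {p : ℝ} (hp : 2 ≤ p) (γ : ℝ) (Q : ℂ) : Phi 0 γ (Vmap p Q) =
    (‖Q‖ ^ (p / 2 * γ + (p - 2) / 2) : ℝ) • Q := by
  unfold Phi
  rw [zpow_simp, norm_Vmap hp]
  unfold Vmap
  by_cases hQ : Q = 0
  · simp [hQ]
  · have : 0 < ‖Q‖ := norm_pos_iff.2 hQ
    rw [smul_smul, ← Real.rpow_mul this.le, ← Real.rpow_add this]

theorem Phi_Vmap_flux {p : ℝ} (hp : 2 ≤ p) (Q : ℂ) : Phi 0 ((p - 2) / p) (Vmap p Q) = flux p Q := by
  rw [Phi_Vmap hp]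
  unfold flux
  congr 2
  have : p ≠ 0 := by linarith
  field_simp
  ring

theorem Phi_Vmap_id {p : ℝ} (hp : 2 ≤ p) (Q : ℂ) : Phi 0 (-(p - 2) / p) (Vmap p Q) = Q := by
  rw [Phi_Vmap hp]
  have : p / 2 * (-(p - 2) / p) + (p - 2) / 2 = 0 := by
    have : p ≠ 0 := by linarith
    field_simp
    ring
  rw [this, Real.rpow_zero, one_smul]

theorem rpow_le_one_add {γ x : ℝ} (h0 : 0 ≤ γ) (h1 : γ ≤ 1) (hx : 0 ≤ x) : x ^ γ ≤ 1 + x := by
  rcases le_total x 1 with h | h
  · have := Real.rpow_le_one hx h h0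
    linarith
  · have := Real.rpow_le_rpow_of_exponent_le h h1
    rw [Real.rpow_one] at this
    linarith

theorem trace_zero {p : ℝ} (hp : 2 ≤ p) {Ω : Set ℂ} {h : ℂ → ℝ} {G : ℂ → ℂ}
    (H : IsPHarmonic p Ω h G) {U : Set ℂ} (hU : IsOpen U) (hUΩ : U ⊆ Ω) {D : ℂ → ℂ →L[ℝ] ℂ}
    (hV : Sob 2 U (fun z => Vmap p (G z)) D) :
    ∀ᵐ z ∂(volume.restrict U), Vmap p (G z) ≠ 0 →
      tra ((dPhi 0 ((p - 2) / p) (Vmap p (G z))).comp (D z)) = 0 := by
  set γ := (p - 2) / p with hγ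
  have hp0 : 0 < p := by linarith
  have hγ0 : 0 ≤ γ := div_nonneg (by linarith) hp0.le
  have hγ1 : γ ≤ 1 := by rw [hγ, div_le_one hp0]; linarith
  obtain ⟨B, hB0, hB⟩ := fderiv_zt_bound
  set S : ℂ → ℂ →L[ℝ] ℂ := fun X => if X = 0 then 0 else dPhi 0 γ X with hSdef
  have hΨb : ∀ n, ∃ L, ∀ X, ‖fderiv ℝ (Psi γ n) X‖ ≤ L := fun n =>
    bounded_fderiv (contDiff_Psi γ n) (compact_Psi γ n)
  have hT : ∀ X, Tendsto (fun n => Psi γ n X) atTop (𝓝 (Phi 0 γ X)) := by
    intro X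
    by_cases hX : X = 0
    · have : ∀ n, Psi γ n X = Phi 0 γ X := by
        intro n
        simp [Psi, Phi, hX]
      simp_rw [this]
      exact tendsto_const_nhds
    · refine (tendsto_const_nhds (x := Phi 0 γ X)).congr' ?_
      filter_upwards [zt_eventually_one hX] with n hn
      simp [Psi, hn.self_of_nhds]
  have hS : ∀ X, Tendsto (fun n => fderiv ℝ (Psi γ n) X) atTop (𝓝 (S X)) := by
    intro X
    by_cases hX : X = 0
    · have : ∀ n, fderiv ℝ (Psi γ n) X = S X := by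
        intro n
        rw [hX, fderiv_Psi_zero]
        simp [hSdef]
      simp_rw [this]
      exact tendsto_const_nhds
    · refine (tendsto_const_nhds (x := S X)).congr' ?_
      filter_upwards [zt_eventually_one hX] with n hn
      have e1 : Psi γ n =ᶠ[𝓝 X] Phi 0 γ := by
        filter_upwards [hn] with Y hY
        simp [Psi, hY]
      rw [e1.fderiv_eq, fderiv_Phi (zpos hX)]
      simp [hSdef, hX]
  have hC1 : ∀ n X, ‖Psi γ n X‖ ≤ (2 + γ + B) * (1 + ‖X‖ ^ 2) := by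
    intro n X
    unfold Psi
    rw [norm_smul, Real.norm_eq_abs, abs_of_nonneg (zt_nonneg _ _), norm_Phi_zero]
    have h1 := rpow_le_one_add hγ0 hγ1 (norm_nonneg X)
    have h2 : zt n X * (‖X‖ ^ γ * ‖X‖) ≤ 1 * ((1 + ‖X‖) * ‖X‖) := by
      have := zt_le_one n X
      gcongr
    refine h2.trans ?_
    nlinarith [sq_nonneg (‖X‖ - 1), norm_nonneg X, sq_nonneg ‖X‖]
  have hC2 : ∀ n X, ‖fderiv ℝ (Psi γ n) X‖ ≤ (2 + γ + B) * (1 + ‖X‖) := by
    intro n X
    by_cases hX : X = 0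
    · rw [hX, fderiv_Psi_zero, norm_zero]; positivity
    · rw [fderiv_Psi γ n hX]
      have h1 := rpow_le_one_add hγ0 hγ1 (norm_nonneg X)
      have h2 : ‖zt n X • dPhi 0 γ X‖ ≤ (1 + γ) * (1 + ‖X‖) := by
        rw [norm_smul, Real.norm_eq_abs, abs_of_nonneg (zt_nonneg _ _)]
        have h3 := norm_dPhi_le (γ := γ) X (zpos hX)
        rw [zpow_simp, abs_of_nonneg hγ0] at h3
        calc zt n X * ‖dPhi 0 γ X‖ ≤ 1 * ((1 + γ) * ‖X‖ ^ γ) := by
              have := zt_le_one n X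
              gcongr
          _ ≤ (1 + γ) * (1 + ‖X‖) := by rw [one_mul]; gcongr
      have h4 : ‖(fderiv ℝ (zt n) X).smulRight (Phi 0 γ X)‖ ≤ B * (1 + ‖X‖) := by
        rw [ContinuousLinearMap.norm_smulRight_apply, norm_Phi_zero]
        calc ‖fderiv ℝ (zt n) X‖ * (‖X‖ ^ γ * ‖X‖) = (‖fderiv ℝ (zt n) X‖ * ‖X‖) * ‖X‖ ^ γ := by
              ring
          _ ≤ B * (1 + ‖X‖) := by
              have := hB n X
              gcongr
      refine (norm_add_le _ _).trans ?_
      nlinarith [norm_nonneg X]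
  obtain ⟨hint, hw⟩ := weak_limit hV (contDiff_Psi γ) hΨb hT hS hC1 hC2
  have key : ∀ᵐ z ∂(volume.restrict U), tra ((S (Vmap p (G z))).comp (D z)) = 0 := by
    refine ae_zero_of_test hU (fun K hK hKc => ?_) fun ξ hξ => ?_
    · have h1 := hint K hK hKc 1
      have h2 := hint K hK hKc I
      exact (reCLM.integrable_comp h1).add (imCLM.integrable_comp h2)
    · have hξs := hξ.1
      have hKc : IsCompact (tsupport ξ) := hξ.2.1
      have hKU := hξ.2.2
      have w1 := hw ξ hξ 1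
      have w2 := hw ξ hξ I
      have pf : ∀ Q, Phi 0 γ (Vmap p Q) = flux p Q := fun Q => Phi_Vmap_flux hp Q
      simp only [pf] at w1 w2
      have E := H.eqn' (φ := ξ) ⟨hξ.1, hξ.2.1, hξ.2.2.trans hUΩ⟩
      have : IsFiniteMeasure (volume.restrict (tsupport ξ)) :=
        ⟨by simpa using hKc.measure_lt_top⟩
      have iF : IntegrableOn (fun z => flux p (G z)) (tsupport ξ) := by
        have := memLp_flux hp (H.locG _ (hKU.trans hUΩ) hKc)
        refine (this.mono_exponent ?_).integrable le_rfl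
        rw [← ENNReal.ofReal_one]
        refine ENNReal.ofReal_le_ofReal ?_
        rw [le_div_iff₀ (by linarith)]; linarith
      have cont : ∀ v : ℂ, Continuous fun z => fderiv ℝ ξ z v := fun v =>
        (hξs.continuous_fderiv (by simp)).clm_apply continuous_const
      have j1 : ∀ v : ℂ, Integrable (fun z => fderiv ℝ ξ z v • flux p (G z)) := fun v =>
        integrable_test_smul hKc (cont v) (fun z hz => by
          rw [fderiv_eq_zero_of_notMem_tsupport hz]; simp) iF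
      have j2 : ∀ v : ℂ, Integrable (fun z => ξ z • S (Vmap p (G z)) (D z v)) := fun v =>
        integrable_test_smul hKc hξs.continuous
          (fun z hz => image_eq_zero_of_notMem_tsupport hz) (hint _ hKU hKc v)
      have e1 : ∀ z, fderiv ℝ ξ z (flux p (G z)) =
          reCLM (fderiv ℝ ξ z 1 • flux p (G z)) + imCLM (fderiv ℝ ξ z I • flux p (G z)) := by
        intro z
        rw [clm_apply_eq (fderiv ℝ ξ z)]
        simp only [reCLM_apply, imCLM_apply, real_smul, mul_re, mul_im, ofReal_re, ofReal_im,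
          smul_eq_mul]
        ring
      have e2 : ∀ z, ξ z • tra ((S (Vmap p (G z))).comp (D z)) =
          reCLM (ξ z • S (Vmap p (G z)) (D z 1)) + imCLM (ξ z • S (Vmap p (G z)) (D z I)) := by
        intro z
        simp only [tra, ContinuousLinearMap.comp_apply, reCLM_apply, imCLM_apply, real_smul,
          mul_re, mul_im, ofReal_re, ofReal_im, smul_eq_mul]
        ring
      have E' : ∫ z, (reCLM (fderiv ℝ ξ z 1 • flux p (G z)) +
          imCLM (fderiv ℝ ξ z I • flux p (G z))) = 0 := by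
        rw [← E]
        exact integral_congr_ae (Eventually.of_forall fun z => (e1 z).symm)
      rw [integral_congr_ae (Eventually.of_forall e2)]
      rw [integral_add (reCLM.integrable_comp (j1 1)) (imCLM.integrable_comp (j1 I)),
        reCLM.integral_comp_comm (j1 1), imCLM.integral_comp_comm (j1 I), w1, w2] at E'
      rw [integral_add (reCLM.integrable_comp (j2 1)) (imCLM.integrable_comp (j2 I)),
        reCLM.integral_comp_comm (j2 1), imCLM.integral_comp_comm (j2 I)]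
      simp only [map_neg] at E'
      linarith
  filter_upwards [key] with z hz hz0
  simpa [hSdef, hz0] using hz

end Pool.Agent.H52.PH
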