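import Pool.Agent.H52.PH.T2b

/-! Structure of the derivative of `V`: curl identity and conclusion. -/

open MeasureTheory Set Metric Filter Topology ContDiff Complex
open scoped ENNReal

namespace Pool.Agent.H52.PH

theorem clm_I_mul (L : ℂ →L[ℝ] ℝ) (w : ℂ) : L (I * w) = w.re * L I - w.im * L 1 := by
  rw [clm_apply_eq L]
  simp
  ring

/-- `G` is curl free. -/
theorem curl_weak {p : ℝ} (hp : 2 ≤ p) {Ω : Set ℂ} {h : ℂ → ℝ} {G : ℂ → ℂ}
    (H : IsPHarmonic p Ω h G) {η : ℂ → ℝ} (hη : IsTest Ω η) :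
    ∫ z, fderiv ℝ η z (I * G z) = 0 := by
  obtain ⟨hηs, hηc, hηΩ⟩ := hη
  have hη' : ContDiff ℝ ∞ (fderiv ℝ η) := hηs.fderiv_right (by simp)
  have test : ∀ v : ℂ, IsTest Ω (fun z => fderiv ℝ η z v) := by
    intro v
    refine ⟨hη'.clm_apply contDiff_const, hηc.fderiv_apply (𝕜 := ℝ) v, ?_⟩
    refine Subset.trans ?_ hηΩ
    refine closure_minimal (fun z hz => ?_) (isClosed_tsupport η)
    by_contra h
    apply hz
    simp [fderiv_eq_zero_of_notMem_tsupport h]
  have w1 := (H.weak _ (test I)).1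
  have w2 := (H.weak _ (test 1)).2
  have sym : ∀ z, fderiv ℝ (fun z => fderiv ℝ η z I) z 1 =
      fderiv ℝ (fun z => fderiv ℝ η z 1) z I := by
    intro z
    have d : DifferentiableAt ℝ (fderiv ℝ η) z := (hη'.differentiable (by simp)) z
    have e1 : ∀ v w : ℂ, fderiv ℝ (fun z => fderiv ℝ η z v) z w = fderiv ℝ (fderiv ℝ η) z w v := by
      intro v w
      rw [fderiv_clm_apply d (differentiableAt_const _)]
      simp
    rw [e1, e1]
    have s : IsSymmSndFDerivAt ℝ η z := (hηs.contDiffAt).isSymmSndFDerivAt (by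
      simp only [minSmoothness_of_isRCLikeNormedField]
      exact ENat.LEInfty.out)
    exact s.eq 1 I
  simp_rw [sym] at w1
  rw [w1] at w2
  have hKc : IsCompact (tsupport η) := hηc
  have hq : (1 : ℝ≥0∞) ≤ ENNReal.ofReal p := by
    rw [← ENNReal.ofReal_one]; exact ENNReal.ofReal_le_ofReal (by linarith)
  have : IsFiniteMeasure (volume.restrict (tsupport η)) := ⟨by simpa using hKc.measure_lt_top⟩
  have iG : IntegrableOn G (tsupport η) :=
    ((H.locG _ hηΩ hKc).mono_exponent hq).integrable le_rfl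
  have cont : ∀ v : ℂ, Continuous fun z => fderiv ℝ η z v := fun v =>
    (hηs.continuous_fderiv (by simp)).clm_apply continuous_const
  have j : ∀ (L : ℂ →L[ℝ] ℝ) (v : ℂ), Integrable (fun z => fderiv ℝ η z v • L (G z)) := by
    intro L v
    exact integrable_test_smul hKc (cont v) (fun z hz => by
      rw [fderiv_eq_zero_of_notMem_tsupport hz]; simp) (L.integrable_comp iG)
  have e : ∀ z, fderiv ℝ η z (I * G z) = fderiv ℝ η z I • reCLM (G z) -
      fderiv ℝ η z 1 • imCLM (G z) := by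
    intro z
    rw [clm_I_mul]
    simp only [reCLM_apply, imCLM_apply, smul_eq_mul]
    ring
  rw [integral_congr_ae (Eventually.of_forall e), integral_sub (j _ _) (j _ _)]
  have e3 : ∫ z, fderiv ℝ η z I • reCLM (G z) = ∫ z, (G z).re * fderiv ℝ η z I :=
    integral_congr_ae (Eventually.of_forall fun z => by
      simp only [reCLM_apply, smul_eq_mul]; ring)
  have e4 : ∫ z, fderiv ℝ η z 1 • imCLM (G z) = ∫ z, (G z).im * fderiv ℝ η z 1 :=
    integral_congr_ae (Eventually.of_forall fun z => by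
      simp only [imCLM_apply, smul_eq_mul]; ring)
  rw [e3, e4]
  linarith

/-- Weak equation for the curl, tested with a Sobolev function times a test function. -/
theorem curl_sob {p : ℝ} (hp : 2 ≤ p) {Ω : Set ℂ} {h : ℂ → ℝ} {G : ℂ → ℂ}
    (H : IsPHarmonic p Ω h G) {U : Set ℂ} (hUΩ : U ⊆ Ω) {u : ℂ → ℝ} {Du : ℂ → ℂ →L[ℝ] ℝ}
    (hu : Sob 2 U u Du) {ξ : ℂ → ℝ} (hξ : IsTest U ξ) :
    ∫ z, u z * fderiv ℝ ξ z (I * G z) = -∫ z, ξ z * Du z (I * G z) := by
  obtain ⟨hξs, hξc, hξU⟩ := hξ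
  have hK : IsCompact (tsupport ξ) := hξc
  obtain ⟨φ, hφ, h1, h2⟩ := hu.approx _ hξU hK
  have : IsFiniteMeasure (volume.restrict (tsupport ξ)) := ⟨by simpa using hK.measure_lt_top⟩
  have hq : (2 : ℝ≥0∞) ≤ ENNReal.ofReal p := by
    have : (2 : ℝ≥0∞) = ENNReal.ofReal 2 := by simp
    rw [this]; exact ENNReal.ofReal_le_ofReal hp
  have mG : MemLp G 2 (volume.restrict (tsupport ξ)) :=
    (H.locG _ (hξU.trans hUΩ) hK).mono_exponent hq
  have mIG : MemLp (fun z => I * G z) 2 (volume.restrict (tsupport ξ)) := mG.const_mul I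
  have hξ' : Continuous (fderiv ℝ ξ) := hξs.continuous_fderiv (by simp)
  obtain ⟨B1, hB1⟩ := hK.exists_bound_of_continuousOn hξ'.continuousOn
  obtain ⟨B2, hB2⟩ := hK.exists_bound_of_continuousOn hξs.continuous.continuousOn
  have m1 : MemLp (fun z => fderiv ℝ ξ z (I * G z)) 2 (volume.restrict (tsupport ξ)) := by
    refine mIG.of_le_mul (c := B1) ?_ ?_
    · exact (isBoundedBilinearMap_apply (𝕜 := ℝ) (E := ℂ) (F := ℝ)).continuous.comp_aestronglyMeasurable
        (hξ'.aestronglyMeasurable.prodMk mIG.aestronglyMeasurable)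
    · rw [ae_restrict_iff' hK.measurableSet]
      refine Eventually.of_forall fun z hz => ?_
      exact ((fderiv ℝ ξ z).le_opNorm _).trans
        (mul_le_mul_of_nonneg_right (hB1 z hz) (norm_nonneg _))
  have m2 : MemLp (fun z => ξ z • (I * G z)) 2 (volume.restrict (tsupport ξ)) := by
    refine mIG.of_le_mul (c := B2) ?_ ?_
    · exact hξs.continuous.aestronglyMeasurable.smul mIG.aestronglyMeasurable
    · rw [ae_restrict_iff' hK.measurableSet]
      refine Eventually.of_forall fun z hz => ?_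
      rw [norm_smul]
      exact mul_le_mul_of_nonneg_right (hB2 z hz) (norm_nonneg _)
  have mφ : ∀ n, MemLp (φ n) 2 (volume.restrict (tsupport ξ)) := fun n =>
    memLp_continuous (hφ n).continuous hK 2
  have cDφ : ∀ n, Continuous (fderiv ℝ (φ n)) := fun n => (hφ n).continuous_fderiv (by simp)
  have mDφ : ∀ n, MemLp (fderiv ℝ (φ n)) 2 (volume.restrict (tsupport ξ)) := fun n =>
    memLp_continuous (cDφ n) hK 2
  have t1 := tendsto_integral_bilin (ContinuousLinearMap.mul ℝ ℝ) (hu.memLp hξU hK) mφ h1 m1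
    (fun _ => m1) (by simp)
  have t2 := tendsto_integral_bilin (ContinuousLinearMap.id ℝ (ℂ →L[ℝ] ℝ)) (hu.memLpD hξU hK)
    mDφ h2 m2 (fun _ => m2) (by simp)
  simp only [ContinuousLinearMap.mul_apply', ContinuousLinearMap.id_apply] at t1 t2
  have e1 : ∀ f : ℂ → ℝ, ∫ z in tsupport ξ, f z * fderiv ℝ ξ z (I * G z) =
      ∫ z, f z * fderiv ℝ ξ z (I * G z) := by
    intro f
    refine setIntegral_tsupport fun z hz => ?_
    rw [fderiv_eq_zero_of_notMem_tsupport hz]
    simp
  have e2 : ∀ f : ℂ → ℂ →L[ℝ] ℝ, ∫ z in tsupport ξ, f z (ξ z • (I * G z)) =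
      ∫ z, ξ z * f z (I * G z) := by
    intro f
    have : ∀ z, f z (ξ z • (I * G z)) = ξ z * f z (I * G z) := fun z => by
      rw [map_smul, smul_eq_mul]
    simp_rw [this]
    refine setIntegral_tsupport fun z hz => ?_
    rw [image_eq_zero_of_notMem_tsupport hz]
    simp
  simp only [e1] at t1
  simp only [e2] at t2
  have smooth : ∀ n, ∫ z, φ n z * fderiv ℝ ξ z (I * G z) =
      -∫ z, ξ z * fderiv ℝ (φ n) z (I * G z) := by
    intro n
    have hT : IsTest Ω (fun z => ξ z * φ n z) := by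
      refine ⟨hξs.mul (hφ n), hξc.mul_right, ?_⟩
      exact (tsupport_mul_subset_left.trans hξU).trans hUΩ
    have E := curl_weak hp H hT
    have e3 : ∀ z, fderiv ℝ (fun z => ξ z * φ n z) z (I * G z) =
        φ n z * fderiv ℝ ξ z (I * G z) + ξ z * fderiv ℝ (φ n) z (I * G z) := by
      intro z
      have h1 : HasFDerivAt ξ (fderiv ℝ ξ z) z := ((hξs.differentiable (by simp)) z).hasFDerivAt
      have h2 : HasFDerivAt (φ n) (fderiv ℝ (φ n) z) z :=
        (((hφ n).differentiable (by simp)) z).hasFDerivAt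
      have h3 : HasFDerivAt (fun z => ξ z * φ n z) _ z := h1.mul h2
      rw [h3.fderiv]
      simp only [add_apply, smul_apply, smul_eq_mul]
      ring
    rw [integral_congr_ae (Eventually.of_forall e3)] at E
    have i1 : Integrable (fun z => φ n z * fderiv ℝ ξ z (I * G z)) := by
      have h4 : IntegrableOn (fun z => φ n z * fderiv ℝ ξ z (I * G z)) (tsupport ξ) :=
        (mφ n).integrable_mul m1
      rw [integrableOn_iff_integrable_of_support_subset] at h4
      · exact h4
      · intro z hz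
        by_contra hz'
        apply hz
        simp [fderiv_eq_zero_of_notMem_tsupport hz']
    have i2 : Integrable (fun z => ξ z * fderiv ℝ (φ n) z (I * G z)) := by
      have h4 : IntegrableOn (fun z => fderiv ℝ (φ n) z (ξ z • (I * G z))) (tsupport ξ) :=
        integrable_bilin (ContinuousLinearMap.id ℝ (ℂ →L[ℝ] ℝ)) (mDφ n) m2
      have : ∀ z, fderiv ℝ (φ n) z (ξ z • (I * G z)) = ξ z * fderiv ℝ (φ n) z (I * G z) :=
        fun z => by rw [map_smul, smul_eq_mul]
      simp_rw [this] at h4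
      rw [integrableOn_iff_integrable_of_support_subset] at h4
      · exact h4
      · intro z hz
        by_contra hz'
        apply hz
        simp [image_eq_zero_of_notMem_tsupport hz']
    rw [integral_add i1 i2] at E
    linarith
  exact tendsto_nhds_unique (t1.congr smooth) t2.neg

theorem curl_zero {p : ℝ} (hp : 2 ≤ p) {Ω : Set ℂ} {h : ℂ → ℝ} {G : ℂ → ℂ}
    (H : IsPHarmonic p Ω h G) {U : Set ℂ} (hU : IsOpen U) (hUΩ : U ⊆ Ω) {D : ℂ → ℂ →L[ℝ] ℂ}
    (hV : Sob 2 U (fun z => Vmap p (G z)) D) :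
    ∀ᵐ z ∂(volume.restrict U), Vmap p (G z) ≠ 0 →
      asy ((dPhi 0 (-(p - 2) / p) (Vmap p (G z))).comp (D z)) = 0 := by
  obtain ⟨γ, hγ⟩ : ∃ γ, γ = -(p - 2) / p := ⟨_, rfl⟩
  rw [← hγ]
  have hΦ : ∀ Q, Phi 0 γ (Vmap p Q) = Q := fun Q => by rw [hγ]; exact Phi_Vmap_id hp Q
  -- for every `n`
  have key : ∀ n : ℕ, ∀ᵐ z ∂(volume.restrict U),
      asy ((fderiv ℝ (Psi γ n) (Vmap p (G z))).comp (D z)) -
        ((fderiv ℝ (zt n) (Vmap p (G z))).comp (D z)) (I * G z) = 0 := by
    intro n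
    obtain ⟨L1, hL1⟩ := bounded_fderiv (contDiff_Psi γ n) (compact_Psi γ n)
    obtain ⟨L2, hL2⟩ := bounded_fderiv (contDiff_zt n) (zt_compact n)
    have hW := hV.comp_smooth (contDiff_Psi γ n) hL1
    have hu := hV.comp_smooth (contDiff_zt n) hL2
    have hint1 : ∀ K ⊆ U, IsCompact K → ∀ v, IntegrableOn (fun z =>
        ((fderiv ℝ (Psi γ n) (Vmap p (G z))).comp (D z)) v) K := by
      intro K hK hKc v
      have : IsFiniteMeasure (volume.restrict K) := ⟨by simpa using hKc.measure_lt_top⟩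
      have := (hW.memLpD hK hKc).integrable (by norm_num)
      exact (ContinuousLinearMap.apply ℝ ℂ v).integrable_comp this
    have hint2 : ∀ K ⊆ U, IsCompact K → IntegrableOn (fun z =>
        ((fderiv ℝ (zt n) (Vmap p (G z))).comp (D z)) (I * G z)) K := by
      intro K hK hKc
      have : IsFiniteMeasure (volume.restrict K) := ⟨by simpa using hKc.measure_lt_top⟩
      have hq : (2 : ℝ≥0∞) ≤ ENNReal.ofReal p := by
        have : (2 : ℝ≥0∞) = ENNReal.ofReal 2 := by simp
        rw [this]; exact ENNReal.ofReal_le_ofReal hp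
      have mG : MemLp G 2 (volume.restrict K) := (H.locG _ (hK.trans hUΩ) hKc).mono_exponent hq
      have mIG : MemLp (fun z => I * G z) 2 (volume.restrict K) := mG.const_mul I
      exact integrable_bilin (ContinuousLinearMap.id ℝ (ℂ →L[ℝ] ℝ)) (hu.memLpD hK hKc) mIG
    refine ae_zero_of_test hU (fun K hK hKc => ?_) fun ξ hξ => ?_
    · exact ((reCLM.integrable_comp (hint1 K hK hKc I)).sub
        (imCLM.integrable_comp (hint1 K hK hKc 1))).sub (hint2 K hK hKc)
    · have hξs := hξ.1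
      have hKc : IsCompact (tsupport ξ) := hξ.2.1
      have hKU := hξ.2.2
      have c1 := curl_sob hp H hUΩ hu hξ
      have w1 := hW.integral_by_parts (by norm_num) hξ 1
      have w2 := hW.integral_by_parts (by norm_num) hξ I
      have cont : ∀ v : ℂ, Continuous fun z => fderiv ℝ ξ z v := fun v =>
        (hξs.continuous_fderiv (by simp)).clm_apply continuous_const
      have : IsFiniteMeasure (volume.restrict (tsupport ξ)) :=
        ⟨by simpa using hKc.measure_lt_top⟩
      have iW : IntegrableOn (fun z => Psi γ n (Vmap p (G z))) (tsupport ξ) :=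
        (hW.memLp hKU hKc).integrable (by norm_num)
      have j1 : ∀ v : ℂ, Integrable (fun z => fderiv ℝ ξ z v • Psi γ n (Vmap p (G z))) :=
        fun v => integrable_test_smul hKc (cont v) (fun z hz => by
          rw [fderiv_eq_zero_of_notMem_tsupport hz]; simp) iW
      have j2 : ∀ v : ℂ, Integrable (fun z =>
          ξ z • ((fderiv ℝ (Psi γ n) (Vmap p (G z))).comp (D z)) v) := fun v =>
        integrable_test_smul hKc hξs.continuous
          (fun z hz => image_eq_zero_of_notMem_tsupport hz) (hint1 _ hKU hKc v)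
      have j3 : Integrable (fun z =>
          ξ z • ((fderiv ℝ (zt n) (Vmap p (G z))).comp (D z)) (I * G z)) :=
        integrable_test_smul hKc hξs.continuous
          (fun z hz => image_eq_zero_of_notMem_tsupport hz) (hint2 _ hKU hKc)
      -- rewrite the left side of `c1`
      have e1 : ∀ z, zt n (Vmap p (G z)) * fderiv ℝ ξ z (I * G z) =
          reCLM (fderiv ℝ ξ z I • Psi γ n (Vmap p (G z))) -
            imCLM (fderiv ℝ ξ z 1 • Psi γ n (Vmap p (G z))) := by
        intro z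
        rw [clm_I_mul, Psi, hΦ]
        simp only [reCLM_apply, imCLM_apply, real_smul, mul_re, mul_im, ofReal_re, ofReal_im]
        ring
      rw [integral_congr_ae (Eventually.of_forall e1),
        integral_sub (reCLM.integrable_comp (j1 I)) (imCLM.integrable_comp (j1 1)),
        reCLM.integral_comp_comm (j1 I), imCLM.integral_comp_comm (j1 1), w1, w2] at c1
      have e2 : ∀ z, ξ z • (asy ((fderiv ℝ (Psi γ n) (Vmap p (G z))).comp (D z)) -
          ((fderiv ℝ (zt n) (Vmap p (G z))).comp (D z)) (I * G z)) =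
          (reCLM (ξ z • ((fderiv ℝ (Psi γ n) (Vmap p (G z))).comp (D z)) I) -
           imCLM (ξ z • ((fderiv ℝ (Psi γ n) (Vmap p (G z))).comp (D z)) 1)) -
          ξ z • ((fderiv ℝ (zt n) (Vmap p (G z))).comp (D z)) (I * G z) := by
        intro z
        simp only [asy, reCLM_apply, imCLM_apply, real_smul, mul_re, mul_im, ofReal_re, ofReal_im,
          smul_eq_mul]
        ring
      have j4 : Integrable (fun z =>
          reCLM (ξ z • ((fderiv ℝ (Psi γ n) (Vmap p (G z))).comp (D z)) I) -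
           imCLM (ξ z • ((fderiv ℝ (Psi γ n) (Vmap p (G z))).comp (D z)) 1)) :=
        (reCLM.integrable_comp (j2 I)).sub (imCLM.integrable_comp (j2 1))
      rw [integral_congr_ae (Eventually.of_forall e2), integral_sub j4 j3,
        integral_sub (reCLM.integrable_comp (j2 I)) (imCLM.integrable_comp (j2 1)),
        reCLM.integral_comp_comm (j2 I), imCLM.integral_comp_comm (j2 1)]
      simp only [map_neg, smul_eq_mul] at c1 ⊢
      linarith
  rw [← ae_all_iff] at key
  filter_upwards [key] with z hz hz0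
  obtain ⟨n, hn⟩ := (zt_eventually_one hz0).exists
  have h1 := hz n
  have h2 : zt n (Vmap p (G z)) = 1 := hn.self_of_nhds
  rw [fderiv_Psi γ n hz0, h2, hΦ, one_smul] at h1
  have h3 : asy ((dPhi 0 γ (Vmap p (G z)) +
      (fderiv ℝ (zt n) (Vmap p (G z))).smulRight (G z)).comp (D z)) =
      asy ((dPhi 0 γ (Vmap p (G z))).comp (D z)) +
      ((fderiv ℝ (zt n) (Vmap p (G z))).comp (D z)) (I * G z) := by
    rw [clm_I_mul]
    simp only [asy, ContinuousLinearMap.comp_apply, add_apply,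
      ContinuousLinearMap.smulRight_apply, real_smul, add_re, add_im, mul_re, mul_im, ofReal_re,
      ofReal_im]
    ring
  rw [h3] at h1
  linarith

/-- The structure of the derivative of `V`. -/
def VStruct (m : ℝ) (X : ℂ) (L : ℂ →L[ℝ] ℂ) : Prop :=
  (X = 0 → L = 0) ∧ (X ≠ 0 → ∃ (s : ℂ) (P R : ℝ), ‖s‖ = 1 ∧ X = (‖X‖ : ℝ) • s ∧
    L s = ((m + 1) / 2 * P : ℝ) • s + (R : ℝ) • (I * s) ∧
    L (I * s) = ((m + 1) / 2 * R : ℝ) • s - (m * P : ℝ) • (I * s))

theorem decomp {s : ℂ} (hs : ‖s‖ = 1) (w : ℂ) : w = (dot s w : ℝ) • s + (dot (I * s) w : ℝ) • (I * s) := by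
  have h : s.re ^ 2 + s.im ^ 2 = 1 := by
    have := norm_sq_dot s
    rw [hs] at this
    simp only [dot] at this
    linarith
  apply Complex.ext
  · simp only [dot, add_re, real_smul, mul_re, mul_im, ofReal_re, ofReal_im, I_re, I_im]
    linear_combination (-w.re) * h
  · simp only [dot, add_im, real_smul, mul_re, mul_im, ofReal_re, ofReal_im, I_re, I_im]
    linear_combination (-w.im) * h

theorem tra_frame {s : ℂ} (hs : ‖s‖ = 1) (M : ℂ →L[ℝ] ℂ) :
    tra M = dot s (M s) + dot (I * s) (M (I * s)) := by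
  have h : s.re ^ 2 + s.im ^ 2 = 1 := by
    have := norm_sq_dot s
    rw [hs] at this
    simp only [dot] at this
    linarith
  rw [clm_apply_eq M s, clm_apply_eq M (I * s)]
  simp only [tra, dot, add_re, add_im, real_smul, mul_re, mul_im, ofReal_re, ofReal_im, I_re, I_im]
  linear_combination (-(M 1).re - (M I).im) * h

theorem asy_frame {s : ℂ} (hs : ‖s‖ = 1) (M : ℂ →L[ℝ] ℂ) :
    asy M = dot s (M (I * s)) - dot (I * s) (M s) := by
  have h : s.re ^ 2 + s.im ^ 2 = 1 := by
    have := norm_sq_dot s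
    rw [hs] at this
    simp only [dot] at this
    linarith
  rw [clm_apply_eq M s, clm_apply_eq M (I * s)]
  simp only [asy, dot, add_re, add_im, real_smul, mul_re, mul_im, ofReal_re, ofReal_im, I_re, I_im]
  linear_combination (-(M I).re + (M 1).im) * h

/-- `dPhi` in the frame. -/
theorem dPhi_frame {γ : ℝ} {X s : ℂ} (hX : X ≠ 0) (hXs : X = (‖X‖ : ℝ) • s)
    (Y : ℂ) : dPhi 0 γ X Y = (‖X‖ ^ γ : ℝ) • (Y + (γ * dot s Y : ℝ) • s) := by
  have hX0 : 0 < ‖X‖ := norm_pos_iff.2 hX
  rw [dPhi_apply, zpow_simp]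
  have h1 : ((0 : ℝ) ^ 2 + ‖X‖ ^ 2) ^ (γ / 2 - 1) = ‖X‖ ^ γ / ‖X‖ ^ 2 := by
    rw [Real.rpow_sub_one (zpos hX).ne', zpow_simp]
    congr 1
    ring
  have h2 : dot X Y = ‖X‖ * dot s Y := by
    conv_lhs => rw [hXs]
    simp only [dot, real_smul, mul_re, mul_im, ofReal_re, ofReal_im]
    ring
  rw [h1, h2]
  have h3 : (γ * (‖X‖ ^ γ / ‖X‖ ^ 2) * (‖X‖ * dot s Y) : ℝ) • X =
      (‖X‖ ^ γ * (γ * dot s Y) : ℝ) • s := by
    conv_lhs => rw [hXs]
    rw [smul_smul]
    congr 1
    have : ‖(‖X‖ : ℝ) • s‖ = ‖X‖ := by rw [← hXs]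
    rw [this]
    field_simp
  rw [h3, smul_add, smul_smul]

theorem vstruct {p : ℝ} (hp : 2 ≤ p) {Ω : Set ℂ} {h : ℂ → ℝ} {G : ℂ → ℂ}
    (H : IsPHarmonic p Ω h G) {U : Set ℂ} (hU : IsOpen U) (hUΩ : U ⊆ Ω) {D : ℂ → ℂ →L[ℝ] ℂ}
    (hV : Sob 2 U (fun z => Vmap p (G z)) D) :
    ∀ᵐ z ∂(volume.restrict U), VStruct (p - 1) (Vmap p (G z)) (D z) := by
  filter_upwards [zero_deriv hU hV, trace_zero hp H hU hUΩ hV, curl_zero hp H hU hUΩ hV]
    with z h0 h1 h2
  refine ⟨h0, fun hX => ?_⟩
  have t := h1 hX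
  have c := h2 hX
  obtain ⟨X, hXdef⟩ : ∃ X, X = Vmap p (G z) := ⟨_, rfl⟩
  obtain ⟨L, hL⟩ : ∃ L, L = D z := ⟨_, rfl⟩
  rw [← hXdef] at hX t c ⊢
  rw [← hL] at t c ⊢
  have hX0 : 0 < ‖X‖ := norm_pos_iff.2 hX
  have hp0 : 0 < p := by linarith
  obtain ⟨s, hs⟩ : ∃ s : ℂ, s = (‖X‖⁻¹ : ℝ) • X := ⟨_, rfl⟩
  have hsn : ‖s‖ = 1 := by
    rw [hs, norm_smul, norm_inv, norm_norm]
    exact inv_mul_cancel₀ hX0.ne'
  have hXs : X = (‖X‖ : ℝ) • s := by
    rw [hs, smul_smul, mul_inv_cancel₀ hX0.ne', one_smul]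
  rw [tra_frame hsn] at t
  rw [asy_frame hsn] at c
  simp only [ContinuousLinearMap.comp_apply, dPhi_frame hX hXs] at t c
  have hss : dot s s = 1 := by rw [← norm_sq_dot, hsn]; norm_num
  have hns : dot (I * s) s = 0 := by
    simp only [dot, mul_re, mul_im, I_re, I_im]; ring
  have dlin : ∀ (a b : ℂ) (x y : ℝ), dot a (x • (b + y • s)) = x * (dot a b + y * dot a s) := by
    intro a b x y
    simp only [dot, add_re, add_im, real_smul, mul_re, mul_im, ofReal_re, ofReal_im, zero_mul,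
      sub_zero, add_zero]
    ring
  rw [dlin, dlin, hss, hns] at t c
  set a11 := dot s (L s)
  set a21 := dot (I * s) (L s)
  set a12 := dot s (L (I * s))
  set a22 := dot (I * s) (L (I * s))
  have hpos1 : 0 < ‖X‖ ^ ((p - 2) / p) := Real.rpow_pos_of_pos hX0 _
  have hpos2 : 0 < ‖X‖ ^ (-(p - 2) / p) := Real.rpow_pos_of_pos hX0 _
  have t' : (2 * (p - 1) / p) * a11 + a22 = 0 := by
    have : ‖X‖ ^ ((p - 2) / p) * ((2 * (p - 1) / p) * a11 + a22) = 0 := by
      rw [← t]
      field_simp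
      ring
    exact (mul_eq_zero.1 this).resolve_left hpos1.ne'
  have c' : (2 / p) * a12 - a21 = 0 := by
    have : ‖X‖ ^ (-(p - 2) / p) * ((2 / p) * a12 - a21) = 0 := by
      rw [← c]
      field_simp
      ring
    exact (mul_eq_zero.1 this).resolve_left hpos2.ne'
  have hm : p - 1 ≠ 0 := by linarith
  refine ⟨s, -a22 / (p - 1), a21, hsn, hXs, ?_, ?_⟩
  · rw [decomp hsn (L s)]
    have : (p - 1 + 1) / 2 * (-a22 / (p - 1)) = a11 := by
      field_simp
      have h5 : 2 * (p - 1) * a11 = -a22 * p := by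
        have := t'
        field_simp at this
        linarith
      linarith
    rw [this]
  · rw [decomp hsn (L (I * s))]
    have h6 : (p - 1 + 1) / 2 * a21 = a12 := by
      have := c'
      field_simp at this
      linarith
    have h7 : (p - 1) * (-a22 / (p - 1)) = -a22 := by field_simp
    rw [h6, h7, neg_smul, sub_neg_eq_add]

end Pool.Agent.H52.PH
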